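import Pool.Agent.Shared.Weier.Sigma

/-! The Gaussian regularisation of the sum of `1 / (z - l)` over a lattice. -/

set_option autoImplicit false

open Complex Filter Topology PeriodPair
open scoped Real ComplexConjugate

namespace Pool.Agent.Lib.MP_696deb_nt.EA

open Pool.Agent.Shared.Weier

/-- The Gaussian. -/
noncomputable def gs (t : ℝ) (w : ℂ) : ℝ := Real.exp (-π * t * ‖w‖ ^ 2)

/-- The regularised sum. -/
noncomputable def St (L : PeriodPair) (t : ℝ) (z : ℂ) : ℂ :=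
  ∑' l : L.lattice, (gs t (z - l) : ℂ) / (z - l)

/-- The Eisenstein-Kronecker function of weight one. -/
noncomputable def Es (L : PeriodPair) (z : ℂ) : ℂ := zet L z - eta L z

/-- The linear correction. -/
noncomputable def lq (t : ℝ) (l z : ℂ) : ℂ :=
  gs t l * (z / l ^ 2 + (2 * π * t * (conj l * z).re : ℝ) / l)

theorem gs_pos (t : ℝ) (w : ℂ) : 0 < gs t w := Real.exp_pos _

theorem gs_le {t : ℝ} (ht : 0 ≤ t) (w : ℂ) : gs t w ≤ 1 :=
  Real.exp_le_one_iff.2 (by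
    have := mul_nonneg (mul_nonneg Real.pi_pos.le ht) (sq_nonneg ‖w‖)
    linarith)

theorem k1_one {x : ℝ} : x * Real.exp (-x) ≤ 1 := by
  rw [Real.exp_neg, ← div_eq_mul_inv, div_le_one (Real.exp_pos _)]
  linarith [Real.add_one_le_exp x]

theorem k1_two {x u c : ℝ} (hx : 0 ≤ x) (h1 : |u| ≤ x / 2) (h2 : |u| ≤ c * x) :
    Real.exp (-x) * |Real.exp u - 1 - u| ≤ 8 * c ^ 2 := by
  have a1 : |Real.exp u - 1 - u| ≤ |u| ^ 2 * Real.exp |u| := by
    have := Complex.norm_exp_sub_sum_le_norm_mul_exp (u : ℂ) 2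
    simp only [Finset.sum_range_succ, Finset.range_zero, Finset.sum_empty, pow_zero,
      Nat.factorial, Nat.cast_one, div_one, zero_add, pow_one, mul_one, Complex.norm_real,
      Real.norm_eq_abs, Nat.succ_eq_add_one] at this
    rwa [← Complex.ofReal_exp, ← Complex.ofReal_one, ← Complex.ofReal_add, ← Complex.ofReal_sub,
      Complex.norm_real, Real.norm_eq_abs, ← sub_sub] at this
  have a2 : |u| ^ 2 ≤ (c * x) ^ 2 := pow_le_pow_left₀ (abs_nonneg _) h2 2
  have a3 : Real.exp |u| ≤ Real.exp (x / 2) := Real.exp_le_exp.2 h1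
  have a4 : x ^ 2 ≤ 8 * Real.exp (x / 2) := by
    have := Real.quadratic_le_exp_of_nonneg (x := x / 2) (by linarith)
    nlinarith
  have a5 : Real.exp (-x) * (Real.exp (x / 2) * Real.exp (x / 2)) = 1 := by
    rw [← Real.exp_add, ← Real.exp_add, ← Real.exp_zero]
    congr 1
    ring
  calc _ ≤ Real.exp (-x) * ((c ^ 2 * (8 * Real.exp (x / 2))) * Real.exp (x / 2)) := by
        refine mul_le_mul_of_nonneg_left (a1.trans (mul_le_mul (a2.trans ?_) a3
          (Real.exp_pos _).le (by positivity))) (Real.exp_pos _).le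
        rw [mul_pow]
        exact mul_le_mul_of_nonneg_left a4 (sq_nonneg _)
    _ = _ := by linear_combination 8 * c ^ 2 * a5

theorem k1_bound {t : ℝ} (ht : 0 ≤ t) {z l : ℂ} (hl : l ≠ 0) (h : 5 * ‖z‖ ≤ ‖l‖) :
    ‖(gs t (z - l) : ℂ) / (z - l) + gs t l / l + lq t l z‖ ≤ 152 * ‖z‖ ^ 2 * ‖l‖⁻¹ ^ 3 := by
  have r0 : 0 < ‖l‖ := norm_pos_iff.2 hl
  have z0 := norm_nonneg z
  have h1 : ‖l‖ / 2 ≤ ‖z - l‖ := by
    rw [norm_sub_rev]
    exact .trans (by linarith) (norm_sub_norm_le l z)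
  have h2 : z - l ≠ 0 := norm_pos_iff.1 (by linarith)
  obtain ⟨x, hx⟩ : ∃ x, x = π * t * ‖l‖ ^ 2 := ⟨_, rfl⟩
  obtain ⟨v, hv⟩ : ∃ v, v = 2 * π * t * (conj l * z).re := ⟨_, rfl⟩
  obtain ⟨c, hc⟩ : ∃ c, c = ‖z‖ / ‖l‖ := ⟨_, rfl⟩
  have pt : 0 ≤ π * t := mul_nonneg Real.pi_pos.le ht
  have x0 : 0 ≤ x := by rw [hx]; positivity
  have c0 : 0 ≤ c := by rw [hc]; positivity
  have c1 : c ≤ 1 / 5 := by rw [hc, div_le_iff₀ r0]; linarith
  have e0 : gs t l = Real.exp (-x) := by rw [gs, hx]; congr 1; ring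
  have e2 : π * t * ‖z‖ ^ 2 = c ^ 2 * x := by rw [hc, hx]; field_simp
  have e1 : gs t (z - l) = Real.exp (-x) * Real.exp (v - c ^ 2 * x) := by
    rw [gs, ← Real.exp_add, ← e2, hx, hv, ← normSq_eq_norm_sq, ← normSq_eq_norm_sq,
      ← normSq_eq_norm_sq, normSq_sub, mul_comm z]
    congr 1
    ring
  have v1 : |v| ≤ 2 * c * x := by
    have := (abs_re_le_norm (conj l * z)).trans_eq (by rw [norm_mul, norm_conj])
    rw [hv, mul_assoc 2, abs_mul, abs_of_nonneg (by linarith), hc, hx]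
    refine (mul_le_mul_of_nonneg_left this (by linarith)).trans_eq ?_
    field_simp
  have cx : 0 ≤ c * x := mul_nonneg c0 x0
  have u1 : |v - c ^ 2 * x| ≤ 11 / 5 * c * x := by
    refine (abs_sub _ _).trans ?_
    rw [abs_of_nonneg (a := c ^ 2 * x) (by positivity)]
    nlinarith
  have b2 := k1_two x0 (u1.trans (by nlinarith)) u1
  have b1 := k1_one (x := x)
  have E0 := Real.exp_pos (-x)
  have E1 : Real.exp (-x) ≤ 1 := Real.exp_le_one_iff.2 (by linarith)
  have e3 : (gs t (z - l) : ℂ) / (z - l) + gs t l / l + lq t l z =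
      ((Real.exp (-x) : ℝ) * (z / l) ^ 2 + (Real.exp (-x) * (Real.exp (v - c ^ 2 * x) - 1 -
        (v - c ^ 2 * x)) - c ^ 2 * (x * Real.exp (-x)) : ℝ) +
        (Real.exp (-x) * v : ℝ) * (z / l)) / (z - l) := by
    rw [lq, e0, e1, ← hv]
    generalize Real.exp (-x) = A
    generalize Real.exp (v - c ^ 2 * x) = B
    push_cast
    field_simp
    ring
  have b3 : ‖((Real.exp (-x) : ℝ) * (z / l) ^ 2 + (Real.exp (-x) * (Real.exp (v - c ^ 2 * x) - 1 -
        (v - c ^ 2 * x)) - c ^ 2 * (x * Real.exp (-x)) : ℝ) +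
        (Real.exp (-x) * v : ℝ) * (z / l) : ℂ)‖ ≤ 76 * c ^ 2 := by
    refine (norm_add₃_le ..).trans ?_
    simp only [norm_mul, norm_pow, norm_div, norm_real, Real.norm_eq_abs, ← hc, abs_of_pos E0]
    have k1 := abs_sub (Real.exp (-x) * (Real.exp (v - c ^ 2 * x) - 1 - (v - c ^ 2 * x)))
      (c ^ 2 * (x * Real.exp (-x)))
    rw [abs_mul, abs_of_pos E0, abs_of_nonneg (a := c ^ 2 * _) (by positivity)] at k1
    have k2 : Real.exp (-x) * |v| * c ≤ 2 * c ^ 2 := by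
      calc _ ≤ Real.exp (-x) * (2 * c * x) * c := by gcongr
        _ = 2 * c ^ 2 * (x * Real.exp (-x)) := by ring
        _ ≤ _ := mul_le_of_le_one_right (by positivity) b1
    nlinarith [sq_nonneg c]
  rw [e3, norm_div]
  calc _ ≤ 76 * c ^ 2 / (‖l‖ / 2) := by gcongr
    _ = _ := by rw [hc]; field_simp; ring

variable (L : PeriodPair)

theorem k1_sum {t : ℝ} (ht : 0 < t) {f : L.lattice → ℂ} {C : ℝ}
    (h : ∀ l : L.lattice, 1 ≤ ‖(l : ℂ)‖ → ‖f l‖ ≤ C) :
    Summable fun l : L.lattice => (gs t l : ℂ) * f l := by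
  refine .of_norm_bounded_eventually ((summable_inv_cube L).mul_left (C * (2 / (π * t) ^ 2))) ?_
  filter_upwards [cofinite_large L 1] with l hl
  have pt : 0 < π * t := mul_pos Real.pi_pos ht
  have r0 : 0 < ‖(l : ℂ)‖ := by linarith
  have k := Real.quadratic_le_exp_of_nonneg (x := π * t * ‖(l : ℂ)‖ ^ 2) (by positivity)
  rw [norm_mul, norm_real, Real.norm_of_nonneg (gs_pos _ _).le, mul_comm, mul_assoc]
  refine mul_le_mul (h l hl) ?_ (gs_pos _ _).le ((norm_nonneg _).trans (h l hl))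
  rw [gs, neg_mul, neg_mul, Real.exp_neg, inv_le_comm₀ (Real.exp_pos _) (by positivity)]
  refine le_trans ?_ k
  have e : (2 / (π * t) ^ 2 * ‖(l : ℂ)‖⁻¹ ^ 3)⁻¹ = (π * t) ^ 2 * ‖(l : ℂ)‖ ^ 3 / 2 := by field_simp
  have k2 : ‖(l : ℂ)‖ ^ 3 ≤ ‖(l : ℂ)‖ ^ 4 := pow_le_pow_right₀ hl (by norm_num)
  rw [e]
  nlinarith [mul_pos pt (pow_pos r0 2), mul_le_mul_of_nonneg_left k2 (sq_nonneg (π * t))]

theorem k1_lq {t : ℝ} (ht : 0 < t) (z : ℂ) : Summable fun l : L.lattice => lq t l z := by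
  refine k1_sum L ht (C := ‖z‖ + 2 * π * t * ‖z‖) fun l hl => (norm_add_le _ _).trans
    (add_le_add ?_ ?_)
  · rw [norm_div, norm_pow]
    exact div_le_self (norm_nonneg _) (one_le_pow₀ hl)
  · have := (abs_re_le_norm (conj (l : ℂ) * z)).trans_eq (by rw [norm_mul, norm_conj])
    have pt : 0 < 2 * π * t := by have := Real.pi_pos; positivity
    rw [norm_div, norm_real, Real.norm_eq_abs, abs_mul, abs_of_pos pt, div_le_iff₀ (by linarith)]
    nlinarith

theorem k1_odd {t : ℝ} (ht : 0 < t) : HasSum (fun l : L.lattice => (gs t l : ℂ) / l) 0 := by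
  have h := (k1_sum L ht (f := fun l => (l : ℂ)⁻¹) (C := 1) fun l hl => by
    rw [norm_inv]; exact inv_le_one_of_one_le₀ hl).hasSum
  have h2 := (Equiv.neg L.lattice).hasSum_iff.2 h
  have e := h.neg.unique (h2.congr_fun fun l => by simp [gs])
  rw [neg_eq_iff_add_eq_zero, add_self_eq_zero] at e
  rw [e] at h
  exact h

variable {L}

theorem k1_fin (z : ℂ) : ∃ b : L.lattice → ℝ, Summable b ∧ ∀ t : ℝ, 0 ≤ t → t ≤ 1 → ∀ l : L.lattice,
    ‖(gs t (z - l) : ℂ) / (z - l) + gs t l / l + lq t l z‖ ≤ b l := by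
  classical
  refine ⟨fun l => if 5 * ‖z‖ + 1 ≤ ‖(l : ℂ)‖ then 152 * ‖z‖ ^ 2 * ‖(l : ℂ)‖⁻¹ ^ 3 else
    ‖z - l‖⁻¹ + ‖(l : ℂ)‖⁻¹ + (‖z / l ^ 2‖ + 2 * π * |(conj (l : ℂ) * z).re| / ‖(l : ℂ)‖),
    ((summable_inv_cube L).mul_left (152 * ‖z‖ ^ 2)).congr_cofinite ?_, fun t t0 t1 l => ?_⟩
  · filter_upwards [cofinite_large L (5 * ‖z‖ + 1)] with l hl using (if_pos hl).symm
  dsimp only
  split_ifs with hl
  · exact k1_bound t0 (norm_pos_iff.1 (by linarith [norm_nonneg z])) (by linarith)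
  have k : ∀ w : ℂ, ‖(gs t w : ℂ) / w‖ ≤ ‖w‖⁻¹ := fun w => by
    rw [norm_div, norm_real, Real.norm_of_nonneg (gs_pos _ _).le, ← one_div]
    exact div_le_div_of_nonneg_right (gs_le t0 w) (norm_nonneg _)
  refine (norm_add₃_le ..).trans (add_le_add (add_le_add (k _) (k _)) ?_)
  rw [lq, norm_mul, norm_real, Real.norm_of_nonneg (gs_pos _ _).le]
  refine (mul_le_of_le_one_left (norm_nonneg _) (gs_le t0 _)).trans ((norm_add_le _ _).trans ?_)
  have p0 := Real.pi_pos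
  rw [norm_div ((_ : ℝ) : ℂ), norm_real, Real.norm_eq_abs, abs_mul,
    abs_of_nonneg (a := 2 * π * t) (by positivity)]
  exact add_le_add le_rfl (div_le_div_of_nonneg_right (mul_le_mul_of_nonneg_right
    (mul_le_of_le_one_right (by positivity) t1) (abs_nonneg _)) (norm_nonneg _))

theorem summable_St {t : ℝ} (ht : 0 < t) (h1 : t ≤ 1) (z : ℂ) :
    Summable fun l : L.lattice => (gs t (z - l) : ℂ) / (z - l) := by
  obtain ⟨b, hb, h⟩ := k1_fin (L := L) z
  simpa using ((Summable.of_norm_bounded hb (h t ht.le h1)).sub (k1_lq L ht z)).sub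
    (k1_odd L ht).summable

theorem k1_lim {z : ℂ} (hz : z ∉ L.lattice) :
    Tendsto (fun t => St L t z + ∑' l : L.lattice, lq t l z) (𝓝[>] 0) (𝓝 (zet L z)) := by
  classical
  obtain ⟨b, hb, h⟩ := k1_fin (L := L) z
  have ev : ∀ᶠ t : ℝ in 𝓝[>] 0, 0 < t ∧ t ≤ 1 := Ioc_mem_nhdsGT one_pos
  have h1 := tendsto_tsum_of_dominated_convergence (𝓕 := 𝓝[>] (0 : ℝ)) hb
    (f := fun t (l : L.lattice) => (gs t (z - l) : ℂ) / (z - l) + gs t l / l + lq t l z)
    (g := fun l => (if l = 0 then 1 / z else 0) + z ^ 2 / (l ^ 2 * (z - l))) (fun l => by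
      refine (Continuous.tendsto' (by unfold lq gs; fun_prop) 0 _ ?_).mono_left nhdsWithin_le_nhds
      have k : z - l ≠ 0 := fun e => hz (sub_eq_zero.1 e ▸ l.2)
      split_ifs with e
      · simp [e, lq, gs]
      · have k2 : (l : ℂ) ≠ 0 := fun e' => e (Subtype.ext e')
        simp only [lq, gs, mul_zero, zero_mul, Real.exp_zero, ofReal_one, ofReal_zero]
        field_simp
        ring) (ev.mono fun t ht => h t ht.1.le ht.2)
  rw [((hasSum_ite_eq (0 : L.lattice) (1 / z)).add (hasSum_zet0 L).hasSum).tsum_eq] at h1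
  refine h1.congr' (ev.mono fun t ht => ?_)
  simpa [St] using (((summable_St ht.1 ht.2 z).hasSum.add (k1_odd L ht.1)).add
    (k1_lq L ht.1 z).hasSum).tsum_eq

theorem St_add (t : ℝ) (z : ℂ) {w : ℂ} (hw : w ∈ L.lattice) : St L t (z + w) = St L t z := by
  rw [St, St, ← (Equiv.addRight (⟨w, hw⟩ : L.lattice)).tsum_eq]
  simp

theorem Es_add {z w : ℂ} (hz : z ∉ L.lattice) (hw : w ∈ L.lattice) : Es L (z + w) = Es L z := by
  rw [Es, Es, zet_add hw hz, map_add]
  ring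

/-- The regularised sum tends to the Eisenstein-Kronecker function. -/
theorem tendsto_St {z : ℂ} (hz : z ∉ L.lattice) :
    Tendsto (fun t => St L t z) (𝓝[>] 0) (𝓝 (Es L z)) := by
  have lin : ∀ t : ℝ, 0 < t → ∀ (a b : ℝ) (u v : ℂ), ∑' l : L.lattice, lq t l (a * u + b * v) =
      a * ∑' l : L.lattice, lq t l u + b * ∑' l : L.lattice, lq t l v := fun t ht a b u v => by
    refine ((((k1_lq L ht u).hasSum.mul_left (a : ℂ)).add
      ((k1_lq L ht v).hasSum.mul_left (b : ℂ))).congr_fun fun l => ?_).tsum_eq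
    rw [lq, lq, lq, mul_add (conj _), mul_left_comm _ (a : ℂ), mul_left_comm _ (b : ℂ), add_re,
      re_ofReal_mul, re_ofReal_mul]
    push_cast
    ring
  have per : ∀ w ∈ L.lattice, Tendsto (fun t => ∑' l : L.lattice, lq t l w) (𝓝[>] 0)
      (𝓝 (eta L w)) := fun w hw => by
    have h := (k1_lim (add_notMem hz hw)).sub (k1_lim hz)
    rw [zet_add hw hz, add_sub_cancel_left] at h
    refine h.congr' (eventually_mem_nhdsWithin.mono fun t ht => ?_)
    have := lin t ht 1 1 z w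
    simp only [ofReal_one, one_mul] at this
    simp only [St_add t z hw, this]
    ring
  obtain ⟨a, b, e⟩ : ∃ a b : ℝ, z = a * L.ω₁ + b * L.ω₂ :=
    ⟨L.basis.repr z 0, L.basis.repr z 1, by simpa using (L.basis.sum_repr z).symm⟩
  have h := (k1_lim hz).sub (((per _ L.ω₁_mem_lattice).const_mul (a : ℂ)).add
    ((per _ L.ω₂_mem_lattice).const_mul (b : ℂ)))
  have e2 : eta L z = a * eta L L.ω₁ + b * eta L L.ω₂ := by
    rw [e, map_add, ← real_smul, ← real_smul, map_smul, map_smul, real_smul, real_smul]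
  rw [← e2] at h
  refine h.congr' (eventually_mem_nhdsWithin.mono fun t ht => ?_)
  simp only [← lin t ht, ← e, add_sub_cancel_right]

end Pool.Agent.Lib.MP_696deb_nt.EA
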