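import Pool.Agent.Lib.MP_696deb_nt.EA.K1
import Pool.Agent.Shared.Weier.Unif
import Pool.Agent.Lib.MP_696deb_nt.QF.D0
import Pool.Agent.Lib.MP_696deb_nt.Q4.Gen

/-! The period lattice of the curve `y ^ 2 = x ^ 3 - x`. -/

set_option autoImplicit false

open Complex Filter Topology PeriodPair
open scoped Real ComplexConjugate Classical

namespace Pool.Agent.Lib.MP_696deb_nt.EA

open Pool.Agent.Shared.Weier QF Q4

/-- A multiple of the lattice of Gaussian integers. -/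
noncomputable def LO {c : ℂ} (hc : c ≠ 0) : PeriodPair :=
  ⟨c, c * I, LinearIndependent.pair_iff.2 fun s t h => by
    have : (s : ℂ) + t * I = 0 := mul_left_cancel₀ hc (by
      simp only [real_smul] at h
      linear_combination h)
    exact ⟨by simpa using congrArg re this, by simpa using congrArg im this⟩⟩

section
variable {c : ℂ} (hc : c ≠ 0)

theorem mem_LO {z : ℂ} : z ∈ (LO hc).lattice ↔ ∃ γ : G, z = c * γ := by
  rw [mem_lattice]
  refine ⟨fun ⟨m, n, h⟩ => ⟨⟨m, n⟩, ?_⟩, fun ⟨γ, h⟩ => ⟨γ.re, γ.im, ?_⟩⟩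
  · rw [← h, GaussianInt.toComplex_def']
    simp only [LO]
    ring
  · rw [h, GaussianInt.toComplex_def]
    simp only [LO]
    ring

/-- The parametrisation of the lattice. -/
noncomputable def eO : G ≃ (LO hc).lattice :=
  Equiv.ofBijective (fun γ => ⟨c * γ, (mem_LO hc).2 ⟨γ, rfl⟩⟩)
    ⟨fun _ _ h => GaussianInt.toComplex_inj.1 (mul_left_cancel₀ hc (congrArg Subtype.val h)),
      fun l => ((mem_LO hc).1 l.2).imp fun _ h => Subtype.ext h.symm⟩

theorem tsum_LO (f : ℂ → ℂ) : ∑' l : (LO hc).lattice, f l = ∑' γ : G, f (c * γ) :=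
  ((eO hc).tsum_eq fun l => f l).symm

theorem ii_coe : ((ii : G) : ℂ) = I := by simp [ii, GaussianInt.toComplex_def']

theorem tsum_rot (f : ℂ → ℂ) :
    ∑' l : (LO hc).lattice, f (I * l) = ∑' l : (LO hc).lattice, f l := by
  rw [tsum_LO hc fun l => f (I * l), tsum_LO hc f,
    ← (Units.mulLeft (⟨ii, -ii, by decide, by decide⟩ : Gˣ)).tsum_eq fun γ : G => f (c * γ)]
  refine tsum_congr fun γ => congrArg f ?_
  rw [Units.mulLeft_apply, map_mul, ii_coe, mul_left_comm]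

theorem g3_LO : (LO hc).g₃ = 0 := by
  have h := tsum_rot hc fun l => (l ^ 6)⁻¹
  have e : I ^ 6 = -1 := by rw [show 6 = 4 + 2 from rfl, pow_add, I_pow_four, I_sq, one_mul]
  simp only [mul_pow, e, neg_one_mul, inv_neg, tsum_neg] at h
  rw [g₃, PeriodPair.G, neg_eq_self.1 h, mul_zero]

theorem g2_LO : (LO hc).g₂ = (c ^ 4)⁻¹ * (LO one_ne_zero).g₂ := by
  rw [g₂, g₂, PeriodPair.G, PeriodPair.G, tsum_LO hc fun l => (l ^ 4)⁻¹,
    tsum_LO one_ne_zero fun l => (l ^ 4)⁻¹, mul_left_comm]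
  simp only [mul_pow, mul_inv, one_mul, tsum_mul_left]

end

theorem exists_Om : ∃ c : ℂ, ∃ hc : c ≠ 0, (LO hc).g₂ = 4 := by
  have h := disc_ne_zero (LO one_ne_zero)
  rw [g3_LO] at h
  have h2 : (LO one_ne_zero).g₂ ≠ 0 := fun e => h (by rw [e]; ring)
  obtain ⟨c, hc⟩ := IsAlgClosed.exists_pow_nat_eq ((LO one_ne_zero).g₂ / 4) (n := 4) (by norm_num)
  refine ⟨c, fun e => ?_, ?_⟩
  · rw [e] at hc
    exact h2 (by linear_combination -4 * hc)
  · rw [g2_LO, hc]
    field_simp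

/-- The period. -/
noncomputable def Om : ℂ := exists_Om.choose

theorem Om_ne : Om ≠ 0 := exists_Om.choose_spec.choose

/-- The period lattice. -/
noncomputable def LG : PeriodPair := LO Om_ne

theorem mem_LG {z : ℂ} : z ∈ LG.lattice ↔ ∃ γ : G, z = Om * γ := mem_LO _

theorem g2_LG : LG.g₂ = 4 := exists_Om.choose_spec.choose_spec

theorem g3_LG : LG.g₃ = 0 := g3_LO _

theorem isPer : IsPer LG (W1 ℂ) := by
  constructor
  · rw [g2_LG]
    norm_num [W1, WeierstrassCurve.c₄, WeierstrassCurve.b₂, WeierstrassCurve.b₄]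
  · rw [g3_LG]
    norm_num [W1, WeierstrassCurve.c₆, WeierstrassCurve.b₂, WeierstrassCurve.b₄,
      WeierstrassCurve.b₆]

theorem mul_mem_LG (β : G) {z : ℂ} (h : z ∈ LG.lattice) : β * z ∈ LG.lattice := by
  obtain ⟨γ, rfl⟩ := mem_LG.1 h
  exact mem_LG.2 ⟨β * γ, by rw [map_mul, mul_left_comm]⟩

theorem I_mem_LG {z : ℂ} : I * z ∈ LG.lattice ↔ z ∈ LG.lattice := by
  refine ⟨fun h => ?_, fun h => ii_coe ▸ mul_mem_LG ii h⟩
  have := neg_mem (mul_mem_LG ii h)
  rwa [ii_coe, ← mul_assoc, I_mul_I, neg_one_mul, neg_neg] at this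

theorem div_mem_LG {a n : G} (hn : n ≠ 0) : Om * a / n ∈ LG.lattice ↔ n ∣ a := by
  have n0 : (n : ℂ) ≠ 0 := fun e => hn (GaussianInt.toComplex_eq_zero.1 e)
  rw [mem_LG]
  refine exists_congr fun γ => ?_
  rw [div_eq_iff n0, mul_assoc, mul_right_inj' Om_ne, ← map_mul, GaussianInt.toComplex_inj,
    mul_comm]

theorem wp_I (z : ℂ) : ℘[LG] (I * z) = -℘[LG] z := by
  rw [weierstrassP, weierstrassP, ← tsum_neg]
  refine (tsum_rot Om_ne fun l => 1 / (I * z - l) ^ 2 - 1 / l ^ 2).symm.trans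
    (tsum_congr fun l => ?_)
  rw [← mul_sub, mul_pow, mul_pow, I_sq, neg_one_mul, neg_one_mul, div_neg, div_neg]
  ring

theorem wp'_I (z : ℂ) : ℘'[LG] (I * z) = I * ℘'[LG] z := by
  rw [derivWeierstrassP, derivWeierstrassP, mul_neg, ← tsum_mul_left, neg_inj]
  refine (tsum_rot Om_ne fun l => 2 / (I * z - l) ^ 3).symm.trans (tsum_congr fun l => ?_)
  rw [← mul_sub, mul_pow, I_pow_three, div_mul_eq_div_div_swap, div_neg, div_I, neg_neg, mul_comm]

theorem zet_I (z : ℂ) : zet LG (I * z) = -I * zet LG z := by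
  rw [zet, zet, zet0, zet0, mul_add, ← tsum_mul_left]
  congr 1
  · rw [div_mul_eq_div_div_swap, div_I]
    ring
  refine (tsum_rot Om_ne fun l => (I * z) ^ 2 / (l ^ 2 * (I * z - l))).symm.trans
    (tsum_congr fun l => ?_)
  rw [← mul_sub, mul_pow, mul_pow, mul_assoc, mul_div_mul_left _ _ (pow_ne_zero _ I_ne_zero),
    mul_left_comm, div_mul_eq_div_div_swap, div_I]
  ring

theorem eta_mul (β : G) (z : ℂ) : eta LG (β * z) = conj (β : ℂ) * eta LG z := by
  have h1 : ∀ l ∈ LG.lattice, eta LG (I * l) = -I * eta LG l := fun l hl => by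
    have h0 := LG.ω₁_div_two_notMem_lattice
    have a := zet_add (I_mem_LG.2 hl) (mt I_mem_LG.1 h0)
    rw [← mul_add, zet_I, zet_I, zet_add hl h0] at a
    linear_combination -a
  have h2 : eta LG (I * z) = -I * eta LG z := by
    obtain ⟨a, b, e⟩ : ∃ a b : ℝ, z = a • LG.ω₁ + b • LG.ω₂ :=
      ⟨LG.basis.repr z 0, LG.basis.repr z 1, by simpa using (LG.basis.sum_repr z).symm⟩
    rw [e, mul_add, mul_smul_comm, mul_smul_comm, map_add, map_add, map_smul, map_smul, map_smul,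
      map_smul, h1 _ LG.ω₁_mem_lattice, h1 _ LG.ω₂_mem_lattice]
    simp only [real_smul]
    ring
  rw [GaussianInt.toComplex_def, add_mul, map_add, mul_assoc, ← zsmul_eq_mul, ← zsmul_eq_mul,
    map_zsmul, map_zsmul, h2]
  simp
  ring

/-- The uniformisation. -/
noncomputable def un : ℂ →+ P1 ℂ := isPer.unif

theorem un_eq_zero {z : ℂ} : un z = 0 ↔ z ∈ LG.lattice := isPer.unif_eq_zero_iff

theorem un_surj : Function.Surjective un := isPer.unif_surjective

theorem un_some {z : ℂ} (hz : z ∉ LG.lattice) : ∃ h, un z = .some (℘[LG] z) (℘'[LG] z / 2) h := by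
  have e1 : ux LG (W1 ℂ) z = ℘[LG] z := by simp [ux, W1, WeierstrassCurve.b₂]
  have e2 : uy LG (W1 ℂ) z = ℘'[LG] z / 2 := by simp [uy, W1]
  exact ⟨e1 ▸ e2 ▸ isPer.nonsingular hz, (isPer.unif_of_notMem hz).trans (pt_ext e1 e2)⟩

theorem un_I (z : ℂ) : un (I * z) = vm (RingHom.id ℂ) (-I) (un z) := by
  by_cases hz : z ∈ LG.lattice
  · rw [un_eq_zero.2 hz, un_eq_zero.2 (I_mem_LG.2 hz), map_zero]
  obtain ⟨h1, e1⟩ := un_some hz
  obtain ⟨h2, e2⟩ := un_some (mt I_mem_LG.1 hz)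
  obtain ⟨h3, e3⟩ := vm_some (f := RingHom.id ℂ) (u := -I)
    (by rw [Even.neg_pow (by decide), I_pow_four]) h1
  rw [e1, e2, e3]
  refine pt_ext ?_ ?_
  · rw [wp_I, neg_sq, I_sq, neg_one_mul, RingHom.id_apply]
  · rw [wp'_I, Odd.neg_pow (by decide), I_pow_three, neg_neg, RingHom.id_apply, mul_div_assoc]

end Pool.Agent.Lib.MP_696deb_nt.EA
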