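import Pool.Agent.Lib.MP_696deb_nt.EA.K2
import Pool.Agent.Lib.MP_696deb_nt.QF.Fe

/-! The central value as a finite sum. -/

set_option autoImplicit false

open scoped Classical Real ComplexConjugate
open Complex Finset Filter Topology MeasureTheory

namespace Pool.Agent.Lib.MP_696deb_nt.EA

open Pool.Agent.Shared.Weier QF

/-- The regularised central value. -/
noncomputable def Ph (f : G → ℂ) (t : ℝ) : ℂ :=
  ∑' α : G, f α * (α : ℂ) * (Real.exp (-π * t * (α.norm : ℝ)) : ℝ) / (α.norm : ℝ)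

instance : Countable G := Function.Injective.countable (f := fun α : G => (α.re, α.im))
  fun _ _ e => Zsqrtd.ext (congrArg Prod.fst e) (congrArg Prod.snd e)

theorem k3_int {f : G → ℂ} (bd : ∀ α, ‖f α‖ ≤ 1) {l : ℝ} (hl : 0 < l) {e : ℝ} (he : 0 < e) :
    Ph f (l * e) = π * l * ∫ t in Set.Ioi e, th f (l * t) := by
  have l0 : (l : ℂ) ≠ 0 := ofReal_ne_zero.2 hl.ne'
  have p0 : (π : ℂ) ≠ 0 := ofReal_ne_zero.2 Real.pi_ne_zero
  have h1 := (hasSum_mellin_pi_mul (s := 1)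
    (a := fun α : G => f α * (α : ℂ) * (Real.exp (-π * (l * e) * (α.norm : ℝ)) : ℝ))
    (q := fun α => l * (α.norm : ℝ)) (F := fun t => th f (l * (e + t))) (fun α => (eq_or_ne α 0).imp
      (fun e => by simp [e]) fun e => mul_pos hl (by exact_mod_cast GaussianInt.norm_pos.2 e))
    one_pos (fun t ht => (summable_th bd (mul_pos hl (add_pos he ht))).of_norm.hasSum.congr_fun
      fun α => by
        rw [mul_assoc (f α * _), ← ofReal_mul, ← Real.exp_add]
        congr 3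
        ring) (.of_nonneg_of_le (fun α => div_nonneg (norm_nonneg _) (Real.rpow_nonneg
          (mul_nonneg hl.le (by exact_mod_cast GaussianInt.norm_nonneg α)) _)) (fun α => by
        rcases eq_or_ne α 0 with rfl | h0
        · simp
        have h1 : (1 : ℝ) ≤ α.norm := by exact_mod_cast GaussianInt.norm_pos.2 h0
        rw [one_re, Real.rpow_one]
        exact div_le_div_of_nonneg_left (norm_nonneg _) hl (le_mul_of_one_le_right hl.le h1))
      ((summable_th bd (mul_pos hl he)).div_const l))).mul_left (π * l : ℂ)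
  have h2 := (measurePreserving_add_left volume e).setIntegral_preimage_emb
    (measurableEmbedding_addLeft e) (fun t => th f (l * t)) (Set.Ioi e)
  rw [Set.preimage_const_add_Ioi, sub_self] at h2
  rw [← h2, Ph, (h1.congr_fun fun α => ?_).tsum_eq]
  · simp [mellin]
  · rw [cpow_neg, cpow_one, cpow_one, Gamma_one, ofReal_mul l]
    field_simp

theorem analytic2 {f : G → ℂ} (bd : ∀ α, ‖f α‖ ≤ 1) {l : ℝ} (hl : 0 < l) {w : ℂ} (hw : w ≠ 0)
    (fe : ∀ t : ℝ, 0 < t → th f (l / t) = w * t ^ 2 * th f (l * t)) {a : ℕ → ℂ}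
    (ha : ∀ n, ∑ α ∈ reps n, f α * (α : ℂ) = 4 * a n) :
    ∃ L : ℂ → ℂ, Differentiable ℂ L ∧ (∀ s : ℂ, (3 : ℝ) / 2 < s.re → L s = LSeries a s) ∧
      Tendsto (Ph f) (𝓝[>] 0) (𝓝 (4 * L 1)) := by
  have hi : LocallyIntegrableOn (fun t => th f (l * t)) (Set.Ioi 0) :=
    ((f7_cont bd).comp (by fun_prop) fun t ht => mul_pos hl ht).locallyIntegrableOn
      measurableSet_Ioi
  have ht (r : ℝ) : (fun t => th f (l * t) - 0) =O[Filter.atTop] (· ^ r) := by
    refine Asymptotics.IsBigO.trans ?_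
      (isLittleO_exp_neg_mul_rpow_atTop (mul_pos Real.pi_pos hl) r).isBigO
    refine .of_bound ((∑' α : G, ‖f α * (α : ℂ) * (Real.exp (-π * l * (α.norm : ℝ)) : ℝ)‖) *
      Real.exp (π * l)) ((Filter.eventually_ge_atTop 1).mono fun t h => ?_)
    rw [sub_zero, Real.norm_of_nonneg (Real.exp_pos _).le, mul_assoc, ← Real.exp_add]
    convert f7_bound bd hl (le_mul_of_one_le_right hl.le h) using 3
    ring
  let P : WeakFEPair ℂ := ⟨fun t => th f (l * t), fun t => th f (l * t), 2, w, 0, 0, hi, hi,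
    two_pos, hw, fun x hx => by
      rw [mul_one_div, fe x hx, Real.rpow_two, ofReal_pow, smul_eq_mul], ht, ht⟩
  have hP : IsStrongFEPair P := ⟨rfl, rfl⟩
  have l0 : (l : ℂ) ≠ 0 := ofReal_ne_zero.2 hl.ne'
  have p0 : (π : ℂ) ≠ 0 := ofReal_ne_zero.2 Real.pi_ne_zero
  refine ⟨fun s => π ^ s * l ^ s * (Gamma s)⁻¹ / 4 * P.Λ s,
    ((((differentiable_id.const_cpow (.inl p0)).mul (differentiable_id.const_cpow (.inl l0))).mul
      differentiable_one_div_Gamma).div_const 4).mul hP.differentiable_Λ, fun s hs => ?_, ?_⟩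
  · have s0 : 0 < s.re := by linarith
    have h1 := ((hasSum_mellin_pi_mul (a := fun α : G => f α * (α : ℂ))
      (q := fun α => l * (α.norm : ℝ)) (F := P.f) (fun α => (eq_or_ne α 0).imp
        (fun e => by simp [e]) fun e => mul_pos hl (by exact_mod_cast GaussianInt.norm_pos.2 e))
      s0 (fun t ht => (summable_th bd (mul_pos hl ht)).of_norm.hasSum.congr_fun fun α => by
        congr 3
        ring) (f7_sum bd hl hs)).mul_left
      (π ^ s * l ^ s * (Gamma s)⁻¹ / 4)).tsum_fiberwise fun α => α.norm.toNat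
    have h2 : LSeriesHasSum a s (π ^ s * l ^ s * (Gamma s)⁻¹ / 4 * P.Λ s) := by
      rw [hP.Λ_eq]
      refine h1.congr_fun fun n => ?_
      have e : (fun α : G => α.norm.toNat) ⁻¹' {n} = (reps n : Set G) := by
        ext α
        have := GaussianInt.norm_nonneg α
        simp only [Set.mem_preimage, Set.mem_singleton_iff, mem_coe, mem_reps]
        omega
      have g0 := Gamma_ne_zero_of_re_pos s0
      have k : ∀ α ∈ reps n, π ^ s * l ^ s * (Gamma s)⁻¹ / 4 * (π ^ (-s) * Gamma s *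
          (f α * (α : ℂ)) / ((l * (α.norm : ℝ) : ℝ) : ℂ) ^ s) = f α * (α : ℂ) / 4 / n ^ s :=
        fun α hα => by
          have := cpow_ne_zero_iff.2 (.inl p0 : _ ∨ s = 0)
          have := cpow_ne_zero_iff.2 (.inl l0 : _ ∨ s = 0)
          rw [mem_reps.1 hα, ofReal_mul, mul_cpow_ofReal_nonneg hl.le (by positivity), cpow_neg]
          push_cast
          field_simp
      rw [e, Finset.tsum_subtype' (reps n) fun α : G => π ^ s * l ^ s * (Gamma s)⁻¹ / 4 *
        (π ^ (-s) * Gamma s * (f α * (α : ℂ)) / ((l * (α.norm : ℝ) : ℝ) : ℂ) ^ s), sum_congr rfl k,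
        ← sum_div, ← sum_div, ha, mul_div_cancel_left₀ _ (by norm_num : (4 : ℂ) ≠ 0)]
      rcases eq_or_ne n 0 with rfl | n0
      · simp [ne_zero_of_re_pos s0]
      · exact LSeries.term_of_ne_zero n0 _ _
    exact h2.LSeries_eq.symm
  · have h1 : IntegrableOn (fun t => th f (l * t)) (Set.Ioi 0) := by
      simpa [MellinConvergent, P] using (hP.hasMellin 1).1
    have h2 := ((h1.continuousWithinAt_Ici_primitive_Ioi.mono Set.Ioi_subset_Ici_self).tendsto.comp
      (show Tendsto (fun t : ℝ => t / l) (𝓝[>] 0) (𝓝[>] 0) from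
        tendsto_nhdsWithin_iff.2 ⟨(Continuous.tendsto' (by fun_prop) 0 _ (zero_div l)).mono_left
          nhdsWithin_le_nhds, eventually_mem_nhdsWithin.mono fun t ht => div_pos ht hl⟩)).const_mul
      (π * l : ℂ)
    convert h2.congr' (eventually_mem_nhdsWithin.mono fun t ht => ?_) using 2
    · simp only [hP.Λ_eq, mellin, cpow_one, Gamma_one, sub_self, cpow_zero, one_smul, P]
      ring
    · rw [Function.comp_apply, ← k3_int bd hl (div_pos ht hl), mul_div_cancel₀ _ hl.ne']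

/-- The finite sum of values of the Eisenstein-Kronecker function. -/
noncomputable def ES (M : ℕ) (f : G → ℂ) : ℂ :=
  ∑ x ∈ range M, ∑ y ∈ range M, f ⟨x, y⟩ * Es LG (Om * (⟨x, y⟩ : G) / M)

theorem tendsto_Ph {M : ℕ} (hM : 0 < M) {f : G → ℂ} (per : Per M f) (h0 : f 0 = 0) :
    Tendsto (Ph f) (𝓝[>] 0) (𝓝 (conj (Om / M * ES M fun α => conj (f α)))) := by
  have M0 : (M : ℝ) ≠ 0 := by positivity
  have M1 : (M : ℂ) ≠ 0 := by exact_mod_cast hM.ne'
  have O0 := norm_pos_iff.2 Om_ne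
  have O1 := Om_ne
  have hc : 0 < (M : ℝ) ^ 2 / ‖Om‖ ^ 2 := by positivity
  have sc : Tendsto (fun t : ℝ => (M : ℝ) ^ 2 / ‖Om‖ ^ 2 * t) (𝓝[>] 0) (𝓝[>] 0) :=
    tendsto_nhdsWithin_iff.2 ⟨(Continuous.tendsto' (by fun_prop) 0 _ (mul_zero _)).mono_left
      nhdsWithin_le_nhds, eventually_mem_nhdsWithin.mono fun t ht => mul_pos hc ht⟩
  have h1 : Tendsto (fun t : ℝ => conj (Om / M * ∑ x ∈ range M, ∑ y ∈ range M,
      conj (f ⟨x, y⟩) * St LG ((M : ℝ) ^ 2 / ‖Om‖ ^ 2 * t) (Om * (⟨x, y⟩ : G) / M))) (𝓝[>] 0)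
      (𝓝 (conj (Om / M * ES M fun α => conj (f α)))) := by
    refine (continuous_conj.tendsto _).comp (Tendsto.const_mul _ (tendsto_finsetSum _ fun x hx =>
      tendsto_finsetSum _ fun y hy => ?_))
    by_cases e : (M : G) ∣ ⟨x, y⟩
    · obtain ⟨γ, e⟩ := e
      have := per 0 γ
      rw [zero_add, ← e, h0] at this
      simp [this]
    · refine Tendsto.const_mul _ ((tendsto_St fun k => e ?_).comp sc)
      exact (div_mem_LG (Nat.cast_ne_zero.2 hM.ne')).1 (by simpa using k)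
  refine h1.congr' ((sc.eventually (Ioc_mem_nhdsGT one_pos)).mono fun t ht => ?_)
  have h2 := f6_split hM (F := fun α => conj (f α * (α : ℂ) *
      (Real.exp (-π * t * (α.norm : ℝ)) : ℝ) / (α.norm : ℝ)))
    (s := fun x y => Om / M * (conj (f ⟨x, y⟩) *
      St LG ((M : ℝ) ^ 2 / ‖Om‖ ^ 2 * t) (Om * (⟨x, y⟩ : G) / M))) fun x y => by
    refine (((((Equiv.neg G).trans (eO Om_ne)).hasSum_iff.2 (summable_St ht.1 ht.2
      (Om * (⟨x, y⟩ : G) / M)).hasSum).mul_left _).mul_left _).congr_fun fun γ => ?_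
    have e : Om * (⟨x, y⟩ : G) / M - (((Equiv.neg G).trans (eO Om_ne)) γ : ℂ) =
        Om / M * ((⟨x, y⟩ + M * γ : G) : ℂ) := by
      change _ - Om * ((-γ : G) : ℂ) = _
      rw [map_neg, map_add, map_mul, map_natCast]
      field_simp
      ring
    rw [per, Function.comp_apply, e]
    generalize (⟨x, y⟩ + M * γ : G) = α
    have e2 : gs ((M : ℝ) ^ 2 / ‖Om‖ ^ 2 * t) (Om / M * α) = Real.exp (-π * t * (α.norm : ℝ)) := by
      rw [gs, GaussianInt.intCast_real_norm, normSq_eq_norm_sq, norm_mul, norm_div, norm_natCast]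
      congr 1
      field_simp
    rw [e2, map_div₀, map_mul, map_mul, conj_ofReal, conj_ofReal, GaussianInt.intCast_real_norm,
      ← mul_conj]
    rcases eq_or_ne (α : ℂ) 0 with k | k
    · simp [k]
    · have k2 : conj (α : ℂ) ≠ 0 := (map_ne_zero _).2 k
      field_simp
  simp only [← mul_sum] at h2
  rw [← h2.tsum_eq, Ph, ← conj_tsum, conj_conj]

/-- The central value of a self-dual Hecke character that counts the points of the curve. -/
theorem value_of {D : ℤ} (hD : D ≠ 0) {φ : G → G} {M : ℕ} {ν : G} {w : ℂ} (h1 : Gch (2 * D) φ)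
    (h2 : 0 < M) (h3 : Per M φ) (h4 : ν ≠ 0) (h5 : w ≠ 0) (h6 : SD M (fun α => (φ α : ℂ)) ν w)
    (h8 : ∀ (p : ℕ) [Fact p.Prime] (z : G) (ρ : G →+* ZMod p) (χ : MulChar (ZMod p) G),
      Qc p z ρ χ → ¬ (p : ℤ) ∣ D → φ z = star (χ D))
    {F : ℂ → ℂ} (hF : Differentiable ℂ F)
    (hp : ∀ s : ℂ, (3 : ℝ) / 2 < s.re → HasProd (fun p : ℕ =>
        if p.Prime ∧ ¬ ((p : ℤ) ∣ 2 * (-4 * (-D) ^ 3 - 27 * 0 ^ 2)) then
          (1 - ((p : ℂ) - (cnt D p : ℂ)) * (p : ℂ) ^ (-s) + (p : ℂ) ^ (1 - 2 * s))⁻¹ else 1)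
        (F s)) (h0 : F 1 = 0) {N : ℕ} (hN : 0 < N) (hP : Per N φ) :
    ES N (fun α => ((star (φ α) : G) : ℂ)) = 0 := by
  obtain ⟨a, a1, a2, a3, a4⟩ := h1.hecke
  have per : Per M fun α => (φ α : ℂ) := fun α γ => congrArg _ (h3 α γ)
  obtain ⟨l, l1, l2⟩ := th_fe h2 per h4 h6
  have bd : ∀ α, ‖(φ α : ℂ)‖ ≤ 1 := fun α => by
    have k : ((φ α).norm : ℝ) ≤ 1 := by exact_mod_cast h1.bd α
    rw [GaussianInt.intCast_real_norm, Complex.normSq_eq_norm_sq] at k
    exact (sq_le_one_iff₀ (norm_nonneg _)).1 k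
  have ha : ∀ n, ∑ α ∈ reps n, (φ α : ℂ) * (α : ℂ) = 4 * (1 * (a n : ℂ)) := fun n => by
    simpa [map_ofNat] using congrArg GaussianInt.toComplex (a2 n)
  obtain ⟨L, b1, b2, b3⟩ := analytic2 bd l1 h5 l2 ha
  obtain ⟨_, -, b4, -⟩ := analytic bd l1 h5 l2 ha
  have m0 : 2 * (-4 * (-D) ^ 3 - 27 * 0 ^ 2) ≠ 0 := by
    rw [show 2 * (-4 * (-D) ^ 3 - 27 * 0 ^ 2) = 8 * D ^ 3 by ring]
    positivity
  have e : F = L := by
    refine AnalyticOnNhd.eq_of_eventuallyEq (fun z _ => hF.analyticAt z)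
      (fun z _ => b1.analyticAt z) (z₀ := 2) ?_
    filter_upwards [(isOpen_lt continuous_const continuous_re).mem_nhds
      (show (2 : ℂ) ∈ {s : ℂ | (3 : ℝ) / 2 < s.re} by norm_num)] with s hs
    rw [b2 s hs, (hp s hs).unique (hasProd_frozen a1 rfl (fun _ _ => (mul_one _).symm) (b4 s hs).1 m0
      (fun p => (p : ℂ) - (cnt D p : ℂ)) fun p hp k => ?_), prod_eq_one fun p hp => ?_, one_mul]
    · obtain ⟨p1, p2, -⟩ := Nat.mem_primeFactors.1 hp
      have p3 : (p : ℤ) ∣ 2 * D := (Nat.prime_iff_prime_int.1 p1).dvd_of_dvd_pow (n := 3)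
        ((Int.natCast_dvd.2 p2).trans (Dvd.intro 1 (by ring)))
      have p4 := ha p
      rw [sum_eq_zero fun α hα => by
        rw [h1.zero p p1 p3 α (by rw [mem_reps.1 hα]), map_zero, zero_mul]] at p4
      have p5 : (a p : ℂ) = 0 := by simpa using p4
      simp [loc, p3, p5]
    have := Fact.mk hp
    have k1 : ¬ (p : ℤ) ∣ 2 * D := fun e => k (e.trans ⟨4 * D ^ 2, by ring⟩)
    refine ⟨?_, one_pow 2, if_neg k1⟩
    have k2 : p ≠ 2 := fun e => k1 (e ▸ dvd_mul_right _ _)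
    have k3 := hp.eq_two_or_odd.resolve_left k2
    rw [one_mul]
    rcases (by omega : p % 4 = 1 ∨ p % 4 = 3) with e | e
    · obtain ⟨z, ρ, χ, hq⟩ := exists_qc e
      have k4 : ¬ (p : ℤ) ∣ D := fun e => k1 (e.mul_left 2)
      have k5 := a4 p z hp e hq.norm
      rw [h8 p z ρ χ hq k4, star_mul', star_star, ← hq.count k4, Int.cast_inj] at k5
      rw [k5]
      push_cast
      rfl
    · rw [a3 p hp e, count_three e, sub_self, Int.cast_zero]
  have k := tendsto_nhds_unique b3 (tendsto_Ph hN (fun α γ => congrArg _ (hP α γ)) (by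
    rw [h1.zero 2 Nat.prime_two h1.two 0 (by simp), map_zero]))
  rw [← e, h0, mul_zero, eq_comm, map_eq_zero, mul_eq_zero] at k
  simpa only [GaussianInt.toComplex_star] using k.resolve_left
    (div_ne_zero Om_ne (by exact_mod_cast hN.ne'))

/-- The Hecke character of the curve and the central value. -/
theorem value {D : ℤ} (hD : Squarefree D) : ∃ (φ : G → G) (M : ℕ),
    Gch (2 * D) φ ∧ 0 < M ∧ Per M φ ∧
    (∀ (p : ℕ) [Fact p.Prime] (z : G) (ρ : G →+* ZMod p) (χ : MulChar (ZMod p) G), Qc p z ρ χ →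
      ¬ (p : ℤ) ∣ D → φ z = star (χ D)) ∧
    ∀ F : ℂ → ℂ, Differentiable ℂ F →
      (∀ s : ℂ, (3 : ℝ) / 2 < s.re → HasProd (fun p : ℕ =>
        if p.Prime ∧ ¬ ((p : ℤ) ∣ 2 * (-4 * (-D) ^ 3 - 27 * 0 ^ 2)) then
          (1 - ((p : ℂ) - (cnt D p : ℂ)) * (p : ℂ) ^ (-s) + (p : ℂ) ^ (1 - 2 * s))⁻¹ else 1)
        (F s)) → F 1 = 0 → ES M (fun α => ((star (φ α) : G) : ℂ)) = 0 := by
  obtain ⟨φ, M, ν, w, h1, h2, h3, h4, h5, h6, h7, h8⟩ := exists_phi hD
  exact ⟨φ, M, h1, h2, h3, h8, fun F hF hp h0 =>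
    value_of hD.ne_zero h1 h2 h3 h4 h5 h6 h8 hF hp h0 h2 h3⟩

end Pool.Agent.Lib.MP_696deb_nt.EA
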