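import Pool.Agent.Lib.MP_696deb_nt.EA.K2

/-! Distribution relations. -/

set_option autoImplicit false

open scoped Classical Real ComplexConjugate
open Complex Finset Filter Topology PeriodPair

namespace Pool.Agent.Lib.MP_696deb_nt.EA

open Pool.Agent.Shared.Weier QF

/-- The standard basis of the Gaussian integers. -/
noncomputable def bG : Module.Basis (Fin 2) ℤ G := Module.Basis.ofEquivFun
  { toFun := fun α => ![α.re, α.im]
    map_add' := fun a b => by ext i; fin_cases i <;> simp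
    map_smul' := fun a b => by ext i; fin_cases i <;> simp
    invFun := fun v => ⟨v 0, v 1⟩
    left_inv := fun _ => rfl
    right_inv := fun v => by ext i; fin_cases i <;> rfl }

theorem card_quot (n : G) : (Nat.card (G ⧸ Ideal.span {n}) : ℤ) = n.norm := by
  have := Module.Free.of_basis bG
  have := Module.Finite.of_basis bG
  rw [← Submodule.cardQuot_apply, ← Ideal.absNorm_apply, Ideal.absNorm_span_singleton,
    Algebra.norm_eq_matrix_det bG, Matrix.det_fin_two,
    ← Int.natAbs_of_nonneg (GaussianInt.norm_nonneg n)]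
  have b0 : bG 0 = 1 := by rw [bG, Module.Basis.coe_ofEquivFun]; rfl
  have b1 : bG 1 = ⟨0, 1⟩ := by rw [bG, Module.Basis.coe_ofEquivFun]; rfl
  have r0 : ∀ a, bG.repr a 0 = a.re := fun _ => rfl
  have r1 : ∀ a, bG.repr a 1 = a.im := fun _ => rfl
  simp [Algebra.leftMulMatrix_eq_repr_mul, b0, b1, r0, r1, Zsqrtd.norm_def]

/-- Systems of representatives modulo `n`. -/
structure IsRep (n : G) (R : Finset G) : Prop where
  ne : n ≠ 0
  ex : ∀ a, ∃ r ∈ R, n ∣ a - r
  uq : ∀ r ∈ R, ∀ r' ∈ R, n ∣ r - r' → r = r'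

theorem exists_rep {n : G} (hn : n ≠ 0) : ∃ R, IsRep n R ∧ 0 ∈ R := by
  have : Finite (G ⧸ Ideal.span {n}) := Nat.finite_of_card_ne_zero fun e => by
    have := card_quot n
    rw [e, Nat.cast_zero] at this
    exact (GaussianInt.norm_pos.2 hn).ne this
  have := Fintype.ofFinite (G ⧸ Ideal.span {n})
  let f : G ⧸ Ideal.span {n} → G := fun q => if q = 0 then 0 else q.out
  have hf : ∀ q, Ideal.Quotient.mk _ (f q) = q := fun q => by
    simp only [f]
    split_ifs with h
    · rw [h, map_zero]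
    · exact Ideal.Quotient.mk_out q
  refine ⟨univ.image f, ⟨hn, fun a => ⟨_, mem_image_of_mem f (mem_univ (Ideal.Quotient.mk _ a)),
    Ideal.mem_span_singleton.1 (Ideal.Quotient.eq.1 (hf _).symm)⟩, fun r hr r' hr' h => ?_⟩,
    mem_image.2 ⟨0, mem_univ _, if_pos rfl⟩⟩
  obtain ⟨q, -, rfl⟩ := mem_image.1 hr
  obtain ⟨q', -, rfl⟩ := mem_image.1 hr'
  rw [← hf q, Ideal.Quotient.eq.2 (Ideal.mem_span_singleton.2 h), hf]

theorem hasSum_St {t : ℝ} (ht : 0 < t) (h1 : t ≤ 1) (z : ℂ) :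
    HasSum (fun γ : G => (gs t (z + Om * γ) : ℂ) / (z + Om * γ)) (St LG t z) := by
  refine (((Equiv.neg G).trans (eO Om_ne)).hasSum_iff.2 (summable_St ht h1 z).hasSum).congr_fun
    fun γ => ?_
  have e : z - (((Equiv.neg G).trans (eO Om_ne)) γ : ℂ) = z + Om * γ := by
    change _ - Om * ((-γ : G) : ℂ) = _
    rw [map_neg, mul_neg, sub_neg_eq_add]
  rw [Function.comp_apply, e]

theorem Es_neg (L : PeriodPair) (z : ℂ) : Es L (-z) = -Es L z := by
  rw [Es, Es, zet_neg, map_neg]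
  ring

theorem coe_ne {n : G} (hn : n ≠ 0) : (n : ℂ) ≠ 0 := fun e => hn (GaussianInt.toComplex_eq_zero.1 e)

theorem add_div_notMem {n : G} (hn : n ≠ 0) {z : ℂ} (hz : n * z ∉ LG.lattice) (r : G) :
    z + Om * r / n ∉ LG.lattice := fun h => hz (by
  have := sub_mem (mul_mem_LG n h) (mem_LG.2 ⟨r, rfl⟩)
  rwa [mul_add, mul_div_cancel₀ _ (coe_ne hn), add_sub_cancel_right] at this)

namespace IsRep

variable {n : G} {R : Finset G} (h : IsRep n R)
include h

theorem card : (R.card : ℤ) = n.norm := by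
  rw [← card_quot, ← Nat.card_eq_finsetCard]
  refine congrArg _ (Nat.card_eq_of_bijective (fun r => Ideal.Quotient.mk _ r.1)
    ⟨fun r r' e => Subtype.ext (h.uq _ r.2 _ r'.2
      (Ideal.mem_span_singleton.1 (Ideal.Quotient.eq.1 e))), fun q => ?_⟩)
  obtain ⟨a, rfl⟩ := Ideal.Quotient.mk_surjective q
  obtain ⟨r, hr, k⟩ := h.ex a
  exact ⟨⟨r, hr⟩, (Ideal.Quotient.eq.2 (Ideal.mem_span_singleton.2 k)).symm⟩

theorem card' : (R.card : ℂ) = n * conj (n : ℂ) := by
  rw [mul_conj, ← GaussianInt.intCast_complex_norm, ← h.card, Int.cast_natCast]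

theorem split {F s : G → ℂ} (k : ∀ r ∈ R, HasSum (fun γ : G => F (r + n * γ)) (s r)) :
    HasSum F (∑ r ∈ R, s r) := by
  have key : ∀ r ∈ R, HasSum (fun α : G => if n ∣ α - r then F α else 0) (s r) := fun r hr => by
    refine (Function.Injective.hasSum_iff (g := fun γ : G => r + n * γ)
      (fun a b e => mul_left_cancel₀ h.ne (add_left_cancel e))
      fun α hα => if_neg fun ⟨γ, e⟩ => hα ⟨γ, (eq_add_of_sub_eq' e).symm⟩).1 ?_
    exact (k r hr).congr_fun fun γ => if_pos ⟨γ, add_sub_cancel_left _ _⟩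
  refine (hasSum_sum key).congr_fun fun α => ?_
  obtain ⟨r, hr, e⟩ := h.ex α
  rw [sum_eq_single_of_mem r hr fun r' hr' k => if_neg fun e' => k (h.uq _ hr' _ hr (by
    simpa using dvd_sub e e')), if_pos e]

/-- The distribution relation of the Eisenstein-Kronecker function. -/
theorem Es_dist {z : ℂ} (hz : n * z ∉ LG.lattice) :
    ∑ r ∈ R, Es LG (z + Om * r / n) = n * Es LG (n * z) := by
  have n0 := coe_ne h.ne
  have n1 := norm_pos_iff.2 n0
  have sc : Tendsto (fun t : ℝ => t / ‖(n : ℂ)‖ ^ 2) (𝓝[>] 0) (𝓝[>] 0) :=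
    tendsto_nhdsWithin_iff.2 ⟨(Continuous.tendsto' (by fun_prop) 0 _ (by simp)).mono_left
      nhdsWithin_le_nhds, eventually_mem_nhdsWithin.mono fun t ht => div_pos ht (pow_pos n1 2)⟩
  refine tendsto_nhds_unique_of_eventuallyEq
    (tendsto_finsetSum R fun r _ => tendsto_St (add_div_notMem h.ne hz r))
    (((tendsto_St hz).comp sc).const_mul (n : ℂ)) ?_
  filter_upwards [Ioc_mem_nhdsGT one_pos, sc.eventually (Ioc_mem_nhdsGT one_pos)] with t h1 h2
  refine (h.split fun r _ => (hasSum_St h1.1 h1.2 _).congr_fun fun γ => ?_).unique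
    ((hasSum_St h2.1 h2.2 (n * z)).mul_left (n : ℂ))
  have e : n * z + Om * ((r + n * γ : G) : ℂ) = n * (z + Om * r / n + Om * γ) := by
    rw [map_add, map_mul]
    field_simp
    ring
  have e2 : ∀ w, gs (t / ‖(n : ℂ)‖ ^ 2) (n * w) = gs t w := fun w => by
    rw [gs, gs, norm_mul]
    congr 1
    field_simp
  rw [e, e2, ← mul_div_assoc, mul_div_mul_left _ _ n0]

theorem sig_dist : ∃ C a : ℂ, ∀ z, ∏ r ∈ R, sig LG (z + Om * r / n) =
    C * (cexp (a * z) * sig LG (n * z)) := by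
  have n0 := coe_ne h.ne
  obtain ⟨a, ha⟩ : ∃ a, a = ∑ r ∈ R, eta LG (Om * r / n) := ⟨_, rfl⟩
  have h1 : ∀ z : ℂ, n * z ∉ LG.lattice →
      ∑ r ∈ R, zet LG (z + Om * r / n) = a + n * zet LG (n * z) := fun z hz => by
    have := h.Es_dist hz
    simp only [Es, map_add, sum_sub_distrib, sum_add_distrib, sum_const, nsmul_eq_mul, h.card',
      eta_mul, ← ha] at this
    linear_combination this
  let f : ℂ → ℂ := fun z => (∏ r ∈ R, sig LG (z + Om * r / n)) / (cexp (a * z) * sig LG (n * z))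
  have h2 : ∀ z : ℂ, n * z ∉ LG.lattice → HasDerivAt f 0 z := fun z hz => by
    have d1 : HasDerivAt (fun z => ∏ r ∈ R, sig LG (z + Om * r / n))
        ((∑ r ∈ R, zet LG (z + Om * r / n)) * ∏ r ∈ R, sig LG (z + Om * r / n)) z := by
      refine (HasDerivAt.fun_finsetProd fun r _ =>
        (hasDerivAt_sig (add_div_notMem h.ne hz r)).comp_add_const z _).congr_deriv ?_
      rw [sum_mul]
      refine sum_congr rfl fun r hr => ?_
      rw [← mul_prod_erase R _ hr, smul_eq_mul]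
      ring
    have d2 := (((hasDerivAt_id z).const_mul a).cexp).mul
      ((hasDerivAt_sig hz).comp z ((hasDerivAt_id z).const_mul (n : ℂ)))
    refine (d1.div d2 (mul_ne_zero (exp_ne_zero _) (sig_ne hz))).congr_deriv ?_
    rw [h1 z hz, div_eq_zero_iff]
    refine .inl ?_
    simp only [Pi.mul_apply, id, Function.comp_apply]
    ring
  have h3 : ∀ w ∉ LG.lattice, HasDerivAt (fun w => f (w / n)) 0 w := fun w hw =>
    (HasDerivAt.comp (h₂ := f) (h := fun w => w / (n : ℂ)) w
      (h2 (w / n) (by rwa [mul_div_cancel₀ _ n0]))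
      ((hasDerivAt_id w).div_const _)).congr_deriv (zero_mul _)
  refine ⟨f (LG.ω₁ / 2 / n), a, fun z => ?_⟩
  have c1 := (differentiable_sig LG).continuous
  have := eq_of_eq_off (L := LG) (f := fun w => ∏ r ∈ R, sig LG (w / n + Om * r / n))
    (g := fun w => f (LG.ω₁ / 2 / n) * (cexp (a * (w / n)) * sig LG (n * (w / n))))
    (by fun_prop) (by fun_prop) (fun w hw => by
      rw [← const_of_hasDerivAt h3 hw LG.ω₁_div_two_notMem_lattice, div_mul_cancel₀]
      exact mul_ne_zero (exp_ne_zero _) (sig_ne (by rwa [mul_div_cancel₀ _ n0]))) (n * z)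
  simpa only [mul_div_cancel_left₀ _ n0] using this

theorem notMem (h0 : 0 ∈ R) {r : G} (hr : r ∈ R.erase 0) : Om * r / n ∉ LG.lattice := fun k =>
  ne_of_mem_erase hr (h.uq _ (mem_of_mem_erase hr) _ h0 (by simpa using (div_mem_LG h.ne).1 k))

/-- The multiplicative distribution relation. -/
theorem wp_dist (h0 : 0 ∈ R) {z s : ℂ} (hz : n * z ∉ LG.lattice) (hs : n * s ∉ LG.lattice) :
    ∏ r ∈ R, (℘[LG] (z + Om * r / n) - ℘[LG] s) =
      n ^ 2 * (∏ r ∈ R.erase 0, (℘[LG] (Om * r / n) - ℘[LG] s)) *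
        (℘[LG] (n * z) - ℘[LG] (n * s)) := by
  obtain ⟨C, a, k⟩ := h.sig_dist
  have s0 : s ∉ LG.lattice := fun e => hs (mul_mem_LG n e)
  have e0 : C * n = ∏ r ∈ R.erase 0, sig LG (Om * r / n) := by
    have d0 := hasDerivAt_sig_zero LG
    have d1 := d0.mul (((Differentiable.fun_finsetProd (u := R.erase 0) fun r _ =>
      (differentiable_sig LG).comp (differentiable_id.add_const (Om * r / n))) 0).hasDerivAt)
    have d2 := ((((hasDerivAt_id (0 : ℂ)).const_mul a).cexp).mul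
      (HasDerivAt.comp (h₂ := sig LG) 0 (by simpa using d0)
        ((hasDerivAt_id (0 : ℂ)).const_mul (n : ℂ)))).const_mul C
    have := deriv_eq_of_ev d1 d2 (.of_forall fun w => by
      have := k w
      rw [← mul_prod_erase R _ h0] at this
      simpa using this)
    simpa [sig_zero] using this.symm
  have e1 : ∀ S : Finset G, ∀ u : ℂ, (∀ r ∈ S, u + Om * r / n ∉ LG.lattice) →
      (∏ r ∈ S, sig LG (u + s + Om * r / n)) * ∏ r ∈ S, sig LG (u - s + Om * r / n) =
      (∏ r ∈ S, (℘[LG] (u + Om * r / n) - ℘[LG] s)) * (∏ r ∈ S, sig LG (u + Om * r / n)) ^ 2 *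
        (-sig LG s ^ 2) ^ S.card := fun S u hu => by
    rw [← prod_mul_distrib, ← prod_pow, ← prod_const, ← prod_mul_distrib, ← prod_mul_distrib]
    refine prod_congr rfl fun r hr => ?_
    rw [add_right_comm, sub_add_eq_add_sub, wp_sub' (hu r hr) s0]
    ring
  have a1 := e1 R z fun r _ => add_div_notMem h.ne hz r
  have a2 := e1 (R.erase 0) 0 fun r hr => by rw [zero_add]; exact h.notMem h0 hr
  have a3 := k s
  have a4 := k (-s)
  rw [← mul_prod_erase R _ h0] at a3 a4
  have a5 := wp_sub' hz hs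
  rw [k, k, k, ← card_erase_add_one h0, pow_succ, mul_add, mul_add, mul_sub, mul_sub, exp_add,
    sub_eq_add_neg (a * z), exp_add] at a1
  simp only [zero_add, zero_sub, ← e0] at a2
  simp only [map_zero, mul_zero, zero_div, add_zero, mul_neg, sig_neg] at a3 a4
  have c0 : C * cexp (a * z) * sig LG (n * z) ≠ 0 := by
    rw [mul_assoc, ← k]
    exact prod_ne_zero_iff.2 fun r _ => sig_ne (add_div_notMem h.ne hz r)
  have c1 := sig_ne s0
  have c2 : C ≠ 0 := fun e => c0 (by rw [e, zero_mul, zero_mul])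
  have a6 : cexp (a * s) * cexp (-(a * s)) = 1 := by rw [← exp_add, add_neg_cancel, exp_zero]
  have a7 : sig LG (n * s) ^ 2 = sig LG s ^ 2 * ((∏ r ∈ R.erase 0, (℘[LG] (Om * r / n) - ℘[LG] s)) *
      n ^ 2 * (-sig LG s ^ 2) ^ (R.erase 0).card) := by
    refine mul_left_cancel₀ (pow_ne_zero 2 c2) ?_
    linear_combination sig LG s ^ 2 * a2 -
      (sig LG s * ∏ r ∈ R.erase 0, sig LG (-s + Om * r / n)) * a3 + (C * (cexp (a * s) * sig LG (n * s))) * a4 - C ^ 2 * sig LG (n * s) ^ 2 * a6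
  refine mul_left_cancel₀ (mul_ne_zero (pow_ne_zero 2 c0) (mul_ne_zero (pow_ne_zero 2 c1)
    (pow_ne_zero (R.erase 0).card (neg_ne_zero.2 (pow_ne_zero 2 c1))))) ?_
  linear_combination a1 - (C * cexp (a * z)) ^ 2 * a5 -
    (C * cexp (a * z)) ^ 2 * sig LG (n * z + n * s) * sig LG (n * z - n * s) * a6 +
    (C * cexp (a * z) * sig LG (n * z)) ^ 2 * (℘[LG] (n * z) - ℘[LG] (n * s)) * a7

/-- The logarithmic derivative of the division polynomial. -/
theorem dlog (h0 : 0 ∈ R) {z : ℂ} (hz : n * z ∉ LG.lattice) :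
    2 * (n * Es LG (n * z) - R.card * Es LG z) =
      ∑ r ∈ R.erase 0, ℘'[LG] z / (℘[LG] z - ℘[LG] (Om * r / n)) := by
  have a1 := h.Es_dist hz
  have hz' : n * -z ∉ LG.lattice := fun e => hz (by simpa using neg_mem e)
  have a2 := h.Es_dist hz'
  have z0 : z ∉ LG.lattice := fun e => hz (mul_mem_LG n e)
  rw [← add_sum_erase R _ h0] at a1 a2
  simp only [map_zero, mul_zero, zero_div, add_zero, mul_neg, Es_neg] at a1 a2
  have a3 : ∑ r ∈ R.erase 0, ℘'[LG] z / (℘[LG] z - ℘[LG] (Om * r / n)) =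
      ∑ r ∈ R.erase 0, (Es LG (z + Om * r / n) - Es LG (-z + Om * r / n) - 2 * Es LG z) := by
    refine sum_congr rfl fun r hr => ?_
    have b1 := add_div_notMem h.ne hz r
    have b2 : z - Om * r / n ∉ LG.lattice := fun e => add_div_notMem h.ne hz' r (by
      simpa [sub_eq_neg_add] using neg_mem e)
    have b3 := zet_aux z0 (h.notMem h0 hr) b1 b2
    rw [div_eq_iff (wp_ne z0 (h.notMem h0 hr) b1 b2),
      show -z + Om * r / n = -(z - Om * r / n) by ring, Es_neg]
    simp only [Es, map_add, map_sub]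
    linear_combination b3
  rw [a3, sum_sub_distrib, sum_sub_distrib, sum_const, nsmul_eq_mul, ← card_erase_add_one h0]
  push_cast
  linear_combination a2 - a1

end IsRep

end Pool.Agent.Lib.MP_696deb_nt.EA
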