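import Pool.Agent.Lib.MP_696deb_nt.EA.K5
import Pool.Agent.Lib.MP_696deb_nt.B6.Red0

/-! The kernel of reduction and the action of Frobenius elements on division points. -/

set_option autoImplicit false

open scoped Classical
open Finset WeierstrassCurve.Affine

namespace Pool.Agent.Lib.MP_696deb_nt.EA

open Q4 Sm
open QF (G Prim)

/-- The integral model. -/
@[reducible] def cw1 : B6.Cw := ⟨⟨0, 0, 0, -1, 0⟩, by decide⟩

theorem k6_aux (W : WeierstrassCurve Qb) (h : W = (@B6.Wu cw1).baseChange Qb) (v : Plc) :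
    ∃ K : AddSubgroup W.toAffine.Point, (∀ P, P ∈ K ↔ P = 0 ∨ 1 < v.V (xco P)) ∧
      (∀ P, P ∉ K → v.V (yco P) ≤ 1) ∧
      (∀ P Q, P ∉ K → P - Q ∈ K → v.V (xco P - xco Q) < 1 ∧ v.V (yco P - yco Q) < 1) ∧
      (v.p ≠ 2 → ∀ P Q, P ∉ K → Q ∉ K → v.V (xco P - xco Q) < 1 → v.V (yco P - yco Q) < 1 →
        P - Q ∈ K) := by
  subst h
  let _ := cw1
  refine ⟨B6.K1 v, fun _ => Iff.rfl, fun _ k => (B6.V_xco_le k).2, fun _ _ => B6.near_of_K1,
    fun hv _ _ => B6.K1_near fun e => hv ?_⟩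
  have e2 : (v.p : ℤ) ∣ 2 ^ 6 := e
  exact (Nat.prime_dvd_prime_iff_eq v.prime Nat.prime_two).1 (Int.natCast_dvd_natCast.1
    ((Nat.prime_iff_prime_int.1 v.prime).dvd_of_dvd_pow e2))

theorem W_eq : W1 Qb = (@B6.Wu cw1).baseChange Qb := by
  rw [@B6.Wu_bc cw1]
  ext <;> simp [W1, B6.WZ, B6.Cw.W]

/-- The kernel of reduction. -/
noncomputable def Kr (v : Plc) : Submodule G A where
  toAddSubmonoid := (k6_aux _ W_eq v).choose.toAddSubmonoid
  smul_mem' c P h := by
    have k := (k6_aux _ W_eq v).choose_spec.1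
    refine add_mem (zsmul_mem (S := AddSubgroup A) h _) (zsmul_mem ((k _).2 (((k _).1 h).imp
      (fun e => by rw [e, map_zero]) fun e => ?_)) _)
    rwa [JJ, (xco_vm _ II_four P).1, sq, II_mul, neg_one_mul, v.V.map_neg]

variable {v : Plc} {P Q : A} {n : G}

theorem mem_Kr : P ∈ Kr v ↔ P = 0 ∨ 1 < v.V (xco P) := (k6_aux _ W_eq v).choose_spec.1 P

theorem V_x (h : P ∉ Kr v) : v.V (xco P) ≤ 1 := not_lt.1 fun e => h (mem_Kr.2 (.inr e))

theorem V_y (h : P ∉ Kr v) : v.V (yco P) ≤ 1 := (k6_aux _ W_eq v).choose_spec.2.1 P h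

theorem near_of_Kr (h : P ∉ Kr v) (k : P - Q ∈ Kr v) :
    v.V (xco P - xco Q) < 1 ∧ v.V (yco P - yco Q) < 1 :=
  (k6_aux _ W_eq v).choose_spec.2.2.1 P Q h k

theorem Kr_near (hv : v.p ≠ 2) (h : P ∉ Kr v) (k : Q ∉ Kr v) (hx : v.V (xco P - xco Q) < 1)
    (hy : v.V (yco P - yco Q) < 1) : P - Q ∈ Kr v :=
  (k6_aux _ W_eq v).choose_spec.2.2.2 hv P Q h k hx hy

theorem co_eq (h : P ≠ 0) : yco P ^ 2 = xco P ^ 3 - xco P := by
  rcases P with _ | ⟨x, y, k⟩
  · exact absurd rfl h
  · exact gen_eq k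

theorem co_neg (P : A) : yco (-P) = -yco P := by
  rcases P with _ | ⟨x, y, k⟩
  · exact neg_zero.symm
  · obtain ⟨h, e⟩ := gen_neg k
    rw [e]
    rfl

theorem x_ii (P : A) : xco (ii • P) = -xco P := by
  rw [ii_smul, JJ, (xco_vm _ II_four P).1, sq, II_mul, neg_one_mul, RingHom.id_apply]

theorem x_ne (h : w • P ≠ 0) : xco P ≠ 0 := fun e => by
  rcases P with _ | ⟨x, y, k⟩
  · exact h (smul_zero _)
  · exact h (by rw [gen_T k e, ← T, ← kT_one, w_kT])

theorem x_add_T (h : w • P ≠ 0) : xco (P + T) = -(xco P)⁻¹ := by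
  have hx := x_ne h
  rcases P with _ | ⟨x, y, k⟩
  · exact absurd (smul_zero _) h
  obtain ⟨h2, e2⟩ := gen_add (l := y / x) k ns_zero hx (by
    rw [sub_zero, sub_zero]; exact div_mul_cancel₀ _ hx)
  rw [T, T1, e2]
  simp only [xco_some] at hx ⊢
  field_simp
  linear_combination gen_eq k

theorem w_T : w • T = 0 := by rw [← kT_one, w_kT]

theorem smul_T (h : red n = 1) : n • T = T := by rw [← kT_one, smul_kT, h, one_mul]

theorem ne_of_red (h : red n = 1) : n ≠ 0 := by
  rintro rfl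
  exact absurd h (by decide)

theorem ne_of_smul (hn : n ≠ 0) {c : G} (h : c • n • P ≠ 0) {S : A} (hS : S ∈ En n) :
    c • (P + S) ≠ 0 := fun e => h (by
  have := congrArg (n • ·) e
  simpa only [smul_comm n c, smul_add, (mem_En hn).1 hS, add_zero, smul_zero] using this)

/-- The distribution relation for the first coordinate. -/
theorem x_norm (h : red n = 1) (hP : n • P ≠ 0) : ∏ S ∈ En n, xco (P + S) =
    io n ^ 2 * (∏ S ∈ (En n).erase 0, xco S) * xco (n • P) := by
  have := x_dist (ne_of_red h) hP (S := T) (by rw [smul_T h]; exact T_ne)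
  rw [smul_T h] at this
  simpa [T, T1] using this

/-- A point of order two. -/
noncomputable def T2 : A := .some 1 0 (ns_iff.2 (by norm_num))

theorem w_T2 : w • T2 = T := by
  obtain ⟨X, Y, h, e, k⟩ := gen_wm II_mul (ns_iff.2 (by norm_num) : NS (1 : Qb) 0) one_ne_zero
  rw [w_smul, T2, e]
  exact gen_T h (by simpa [gen_ne II_mul] using k)

theorem two_T2 : (2 : G) • T2 = 0 := by
  rw [two_eq, sq, mul_smul, mul_smul, w_T2, w_T, smul_zero]

theorem V_prod (h : red n = 1) : v.V (io n ^ 2 * ∏ S ∈ (En n).erase 0, xco S) = 1 := by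
  have h1 : w • n • T2 ≠ 0 := by
    rw [smul_comm, w_T2, smul_T h]
    exact T_ne
  have h2 : n • T2 ≠ 0 := fun e => h1 (by rw [e, smul_zero])
  have h3 : n • (T2 + T) ≠ 0 := fun e => h1 (by
    have := congrArg (w • ·) e
    simpa only [smul_add, smul_T h, w_T, add_zero, smul_zero] using this)
  have a1 := x_norm h h2
  have a2 := x_norm h h3
  rw [smul_add, smul_T h, x_add_T h1, prod_congr rfl fun S hS => by
    rw [add_right_comm, x_add_T (ne_of_smul (ne_of_red h) h1 hS)]] at a2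
  have a3 := congrArg v.V (congrArg₂ (· * ·) a1 a2)
  simp only [← prod_mul_distrib] at a3
  rw [map_prod, prod_eq_one fun S hS => by
    rw [mul_neg, mul_inv_cancel₀ (x_ne (ne_of_smul (ne_of_red h) h1 hS)), v.V.map_neg, map_one],
    mul_mul_mul_comm, mul_neg, mul_inv_cancel₀ (x_ne h1), map_mul, v.V.map_neg, map_one,
    mul_one, map_mul] at a3
  exact (pow_eq_one_iff_left two_ne_zero).1 (by rw [sq, a3])

theorem V_II (v : Plc) : v.V II = 1 := v.V_root_of_unity four_ne_zero II_four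

theorem V_io_le (v : Plc) (n : G) : v.V (io n) ≤ 1 := by
  rw [io_apply]
  exact v.V.map_sub_le (v.V_int_le _) (by rw [map_mul, V_II, mul_one]; exact v.V_int_le _)

theorem red_prime (hp : Prime n) : red n = 1 ∨ Associated w n := by
  refine (F2_cases (red n)).symm.imp_right fun e => (Irreducible.associated_of_dvd ?_
    hp.irreducible ?_)
  · exact irreducible_iff.2 ⟨fun k => absurd (Zsqrtd.isUnit_iff_norm_isUnit _ |>.1 k) (by decide),
      fun a b k => by
        have k2 : a.norm * b.norm = 2 := by rw [← Zsqrtd.norm_mul, ← k]; rfl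
        exact (Int.prime_two.irreducible.isUnit_or_isUnit k2.symm).imp
          (Zsqrtd.isUnit_iff_norm_isUnit _).2 (Zsqrtd.isUnit_iff_norm_isUnit _).2⟩
  · rw [red, ← Int.cast_add, ZMod.intCast_zmod_eq_zero_iff_dvd] at e
    obtain ⟨c, e⟩ := e
    exact ⟨⟨c, c - n.re⟩, by
      ext
      · simp [w]
      · simp only [w, Zsqrtd.im_mul]
        omega⟩

theorem Kr_all (hp : Prime n) (h : P ∈ Kr v) (h0 : P ≠ 0) (hP : n • P = 0) (hQ : n • Q = 0) :
    Q ∈ Kr v := by
  obtain ⟨a, rfl⟩ := exists_eq_tq hp.ne_zero hP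
  obtain ⟨b, rfl⟩ := exists_eq_tq hp.ne_zero hQ
  obtain ⟨s, t, e⟩ := (hp.irreducible.coprime_iff_not_dvd).2 (mt (smul_tq_one hp.ne_zero).2 h0)
  have := (Kr v).smul_mem (b * t) h
  rwa [smul_smul, mul_assoc, eq_sub_of_add_eq' e, mul_sub, mul_one, sub_smul,
    (smul_tq_one hp.ne_zero).2 ((dvd_mul_left n s).mul_left b), sub_zero] at this

theorem erase_ne (hp : Prime n) : tq 1 n ∈ (En n).erase 0 :=
  mem_erase.2 ⟨fun e => hp.not_dvd_one ((tq_eq_zero hp.ne_zero).1 e),
    (mem_En hp.ne_zero).2 ((smul_tq_one hp.ne_zero).2 dvd_rfl)⟩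

/-- Reduction is injective on the torsion of order prime to the place. -/
theorem Kr_tors (hn : v.V (io n) = 1) (h : P ∈ Kr v) (hP : n • P = 0) : P = 0 := by
  induction n using UniqueFactorizationMonoid.induction_on_prime generalizing P with
  | h₁ => simp at hn
  | h₂ u hu => exact hu.smul_eq_zero.1 hP
  | h₃ a p _ hp ih =>
    rw [map_mul, map_mul] at hn
    have h1 : v.V (io p) = 1 := le_antisymm (V_io_le v p)
      (hn.symm.trans_le (mul_le_of_le_one_right' (V_io_le v a)))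
    rw [h1, one_mul] at hn
    refine ih hn h (by_contra fun h0 => ?_)
    rw [mul_smul] at hP
    have h2 := (Kr v).smul_mem a h
    rcases red_prime hp with e | ⟨u, rfl⟩
    · have h3 := V_prod (v := v) e
      rw [map_mul, map_pow, h1, one_pow, one_mul, map_prod] at h3
      have h4 : ∀ S ∈ (En p).erase 0, 1 < v.V (xco S) := fun S hS => (mem_Kr.1 (Kr_all hp h2 h0 hP
        ((mem_En hp.ne_zero).1 (mem_of_mem_erase hS)))).resolve_left (ne_of_mem_erase hS)
      exact ((one_lt_prod_iff_of_one_le fun S hS => (h4 S hS).le).2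
        ⟨_, erase_ne hp, h4 _ (erase_ne hp)⟩).ne' h3
    · rw [mul_comm, mul_smul, u.isUnit.smul_eq_zero, w_smul, wm_eq_zero II_mul] at hP
      rw [hP.resolve_left h0, mem_Kr] at h2
      simp [T1] at h2

/-- The points killed by a prime reduce to zero at the places above it. -/
theorem mem_Kr_of (hp : Prime n) (h : red n = 1) (hv : v.V (io n) < 1) (hP : n • P = 0) :
    P ∈ Kr v := by
  by_contra k
  have h3 := V_prod (v := v) h
  rw [map_mul, map_pow, map_prod] at h3
  refine (mul_lt_one_of_lt_of_le (pow_lt_one' hv two_ne_zero) (prod_le_one' fun S hS =>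
    V_x fun e => k ?_)).ne h3
  exact Kr_all hp e (ne_of_mem_erase hS) ((mem_En hp.ne_zero).1 (mem_of_mem_erase hS)) hP

theorem V_prod_sub {ι : Type} (s : Finset ι) {f : ι → Qb} {x : Qb} (hx : v.V x ≤ 1)
    (h : ∀ i ∈ s, v.V (f i - x) < 1) : v.V (∏ i ∈ s, f i - x ^ s.card) < 1 := by
  induction s using Finset.induction_on with
  | empty => simp
  | insert a s ha ih =>
    have h1 := h a (mem_insert_self _ _)
    have h2 := ih fun i hi => h i (mem_insert_of_mem hi)
    rw [prod_insert ha, card_insert_of_notMem ha, show f a * ∏ i ∈ s, f i - x ^ (s.card + 1) =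
      (f a - x) * (∏ i ∈ s, f i - x ^ s.card) + (f a - x) * x ^ s.card +
        (∏ i ∈ s, f i - x ^ s.card) * x by ring]
    refine v.V.map_add_lt (v.V.map_add_lt ?_ ?_) ?_ <;> rw [map_mul]
    · exact mul_lt_one_of_lt_of_le h1 h2.le
    · exact mul_lt_one_of_lt_of_le h1 (by rw [map_pow]; exact pow_le_one' hx _)
    · exact mul_lt_one_of_lt_of_le h2 hx

theorem vm_smul {g : GQ} (hg : g II = II) (c : G) (P : A) :
    vm (g : Qb →+* Qb) 1 (c • P) = c • vm (g : Qb →+* Qb) 1 P := by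
  rw [Q4.smul_def, Q4.smul_def, map_add, map_zsmul, map_zsmul, JJ, vm_comp II_four (one_pow 4),
    vm_comp (one_pow 4) II_four]
  simp [hg]

theorem prim_eq (h : Prim n) : ∃ c, n = 1 + w ^ 3 * c := by
  obtain ⟨h1, h2⟩ := h
  exact ⟨⟨(n.im - n.re + 1) / 4, (1 - n.re - n.im) / 4⟩, by
    ext <;> simp [w, pow_succ] <;> omega⟩

theorem red_iff : red n = 1 ↔ (n.re + n.im) % 2 = 1 := by
  rw [red, ← Int.cast_add]
  exact ZMod.intCast_eq_intCast_iff' _ 1 2

theorem prim_red (h : Prim n) : red n = 1 := red_iff.2 (by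
  obtain ⟨h1, h2⟩ := h
  omega)

theorem V_two_of (h : red n = 1) (hv : v.V (io n) < 1) : v.p ≠ 2 := fun e => by
  have h1 : v.V (n.norm : Qb) < 1 := by
    rw [← map_intCast io, Zsqrtd.norm_eq_mul_conj, map_mul, map_mul]
    exact mul_lt_one_of_lt_of_le hv (V_io_le v _)
  refine h1.ne (v.V_int_eq_one.2 ?_)
  rw [red_iff] at h
  rw [e, Zsqrtd.norm_def, Nat.cast_ofNat, ← even_iff_two_dvd]
  have : Even n.re ↔ ¬ Even n.im := by simp only [Int.even_iff]; omega
  simp [parity_simps, this, -Int.not_even_iff_odd]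

theorem V_w (hv : v.p ≠ 2) : v.V (io w) = 1 := by
  have h1 : v.V ((2 : ℤ) : Qb) = 1 := v.V_int_eq_one.2 fun e => hv
    ((Nat.prime_dvd_prime_iff_eq v.prime Nat.prime_two).1 (Int.natCast_dvd_natCast.1 e))
  rw [← map_intCast io, Int.cast_ofNat, two_eq, map_mul, map_mul, map_pow, map_pow] at h1
  by_contra k
  exact (mul_lt_one_of_lt_of_le (pow_lt_one' ((V_io_le v w).lt_of_ne k) two_ne_zero)
    (V_io_le v _)).ne ((mul_comm _ _).trans h1)

/-- A point of order `w ^ 3`. -/
noncomputable def T3 : A := .some II (1 - II) (ns_iff.2 (by linear_combination (1 - II) * II_mul))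

theorem w_T3 : w ^ 3 • T3 = 0 ∧ w ^ 2 • T3 ≠ 0 := by
  have i0 : II ≠ 0 := fun e => by simpa [e] using II_mul
  obtain ⟨X, Y, h, e, k⟩ := gen_wm II_mul
    (ns_iff.2 (by linear_combination (1 - II) * II_mul) : NS II (1 - II)) i0
  have hX : X = -1 := mul_left_cancel₀ (pow_ne_zero 2 (gen_ne II_mul)) (by
    rw [k, div_pow, sq II, II_mul]
    ring)
  subst hX
  obtain rfl : Y = 0 := pow_eq_zero_iff two_ne_zero |>.1 (by linear_combination gen_eq h)
  obtain ⟨X, Y, h', e', k'⟩ := gen_wm II_mul h (by norm_num)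
  have e2 : w ^ 2 • T3 = T := by
    rw [sq, mul_smul, w_smul, w_smul, T3, e, e']
    exact gen_T h' (by simpa [gen_ne II_mul] using k')
  exact ⟨by rw [pow_succ', mul_smul, e2, w_T], e2 ▸ T_ne⟩

theorem frob_II {N : ℕ} (hN : N % 4 = 1) (hv : v.p ≠ 2) {g : GQ} (hg : IsFrob v N g) :
    g II = II := by
  have h := hg.2 II (V_II v).le
  rw [← Nat.div_add_mod N 4, pow_add, pow_mul, II_four, one_pow, one_mul, hN, pow_one] at h
  refine (ell_root2 (u := g II) (by rw [← map_mul, II_mul, map_neg, map_one])).resolve_right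
    fun e => h.ne ?_
  have h1 : v.V ((2 : ℤ) : Qb) = 1 := v.V_int_eq_one.2 fun e => hv
    ((Nat.prime_dvd_prime_iff_eq v.prime Nat.prime_two).1 (Int.natCast_dvd_natCast.1 e))
  rw [e, show -II - II = -((2 : ℤ) * II) by push_cast; ring, v.V.map_neg, map_mul, h1, V_II, mul_one]

theorem prim_norm (h : Prim n) : n.norm.natAbs % 4 = 1 := by
  obtain ⟨h1, h2⟩ := h
  obtain ⟨a, ha⟩ : ∃ a, n.re = 2 * a + 1 := ⟨n.re / 2, by omega⟩
  obtain ⟨b, hb⟩ : ∃ b, n.im = 2 * b := ⟨n.im / 2, by omega⟩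
  have : n.norm = 4 * (a * a + a + b * b) + 1 := by rw [Zsqrtd.norm_def, ha, hb]; ring
  have := GaussianInt.norm_nonneg n
  omega

/-- Frobenius elements act on division points as multiplication by the primary generator. -/
theorem frob {z : G} (hp : Prime z) (h : Prim z) (hv : v.V (io z) < 1) {g : GQ}
    (hg : IsFrob v z.norm.natAbs g) (hn : v.V (io n) = 1) (hP : n • P = 0) :
    vm (g : Qb →+* Qb) 1 P = z • P := by
  have r1 := prim_red h
  have v2 := V_two_of r1 hv
  have gI := frob_II (prim_norm h) v2 hg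
  obtain ⟨c, hc⟩ := prim_eq h
  have cong : ∀ P : A, P ∉ Kr v → z • P ≠ 0 ∧ v.V (io z ^ 2 * (∏ S ∈ (En z).erase 0, xco S) *
      xco (z • P) - xco P ^ z.norm.natAbs) < 1 := fun P k => by
    have k0 : z • P ≠ 0 := fun e => k (mem_Kr_of hp r1 hv e)
    rw [← x_norm r1 k0, ← card_En hp.ne_zero, Int.natAbs_natCast]
    refine ⟨k0, V_prod_sub _ (V_x k) fun S hS => ?_⟩
    rw [v.V.map_sub_swap]
    exact (near_of_Kr k (by
      rw [sub_add_cancel_left]
      exact neg_mem (mem_Kr_of hp r1 hv ((mem_En hp.ne_zero).1 hS)))).1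
  have c1 := (cong T2 (by simp [mem_Kr, T2])).2
  rw [show z • T2 = T2 by
    rw [hc, add_smul, one_smul, mul_comm, pow_succ, sq, mul_smul, mul_smul, mul_smul, w_T2, w_T,
      smul_zero, smul_zero, add_zero]] at c1
  simp only [T2, xco_some, one_pow, mul_one] at c1
  have key : ∀ (n : G) (P : A), v.V (io n) = 1 → n • P = 0 →
      vm (g : Qb →+* Qb) 1 P = z • P ∨ vm (g : Qb →+* Qb) 1 P = -(z • P) := fun n P hn hP => by
    by_cases p0 : P = 0
    · exact .inl (by rw [p0, map_zero, smul_zero])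
    have k : P ∉ Kr v := fun e => p0 (Kr_tors hn e hP)
    obtain ⟨k0, k1⟩ := cong P k
    have t1 : n • z • P = 0 := by rw [smul_comm, hP, smul_zero]
    have t2 : n • vm (g : Qb →+* Qb) 1 P = 0 := by rw [← vm_smul gI, hP, map_zero]
    have g0 : vm (g : Qb →+* Qb) 1 P ≠ 0 := mt (map_eq_zero_iff _ (vm_inj (one_pow 4))).1 p0
    have k2 : z • P ∉ Kr v := fun e => k0 (Kr_tors hn e t1)
    have k3 : vm (g : Qb →+* Qb) 1 P ∉ Kr v := fun e => g0 (Kr_tors hn e t2)
    have k4 := hg.2 _ (V_x k)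
    have k5 : xco (vm (g : Qb →+* Qb) 1 P) = g (xco P) := by
      rw [(xco_vm _ (one_pow 4) P).1, one_pow, one_mul]
      rfl
    rw [← k5] at k4
    generalize vm (g : Qb →+* Qb) 1 P = Q at *
    generalize z • P = R at *
    have k6 : v.V (xco Q - xco R) < 1 := by
      have := v.V.map_add_lt (v.V.map_sub_lt k4 k1) ((map_mul v.V _ _).trans_lt
        (mul_lt_one_of_lt_of_le c1 (V_x k2)))
      convert this using 2
      ring
    have k7 : v.V ((yco Q - yco R) * (yco Q - yco (-R))) < 1 := by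
      rw [show (yco Q - yco R) * (yco Q - yco (-R)) = (xco Q - xco R) *
        (xco Q * xco Q + xco Q * xco R + xco R * xco R - 1) by
          rw [co_neg]; linear_combination co_eq g0 - co_eq k0, map_mul]
      refine mul_lt_one_of_lt_of_le k6 (v.V.map_sub_le (v.V.map_add_le (v.V.map_add_le ?_ ?_) ?_)
        (map_one v.V).le) <;> rw [map_mul] <;> exact mul_le_one' (V_x ‹_›) (V_x ‹_›)
    rw [map_mul] at k7
    by_cases k8 : v.V (yco Q - yco R) < 1
    · exact .inl (sub_eq_zero.1 (Kr_tors hn (Kr_near v2 k3 k2 k6 k8)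
        (by rw [smul_sub, t1, t2, sub_zero])))
    · exact .inr (sub_eq_zero.1 (Kr_tors hn (Kr_near v2 k3 (mt neg_mem_iff.1 k2) (by rwa [xco_neg])
        ((le_mul_of_one_le_left' (not_lt.1 k8)).trans_lt k7))
        (by rw [smul_sub, smul_neg, t1, t2, neg_zero, sub_zero])))
  have f3 : vm (g : Qb →+* Qb) 1 T3 = T3 := by
    obtain ⟨h1, e1⟩ := vm_some (f := (g : Qb →+* Qb)) (one_pow 4)
      (ns_iff.2 (by linear_combination (1 - II) * II_mul) : NS II (1 - II))
    exact e1.trans (pt_ext (by simp [gI]) (by simp [gI]))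
  have z3 : z • T3 = T3 := by
    rw [hc, add_smul, one_smul, mul_comm, mul_smul, w_T3.1, smul_zero, add_zero]
  refine (key n P hn hP).elim id fun e => ?_
  rcases key (n * w ^ 3) (P + T3) (by rw [map_mul, map_mul, map_pow, map_pow, hn, V_w v2]; simp)
    (by rw [smul_add, mul_smul n _ T3, w_T3.1, mul_comm, mul_smul, hP]; simp) with k | k
  · rw [map_add, smul_add, f3, z3] at k
    exact add_right_cancel k
  · rw [map_add, smul_add, f3, z3, e, neg_add, add_right_inj, eq_neg_iff_add_eq_zero,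
      ← two_smul G, two_eq, mul_smul, isUnit_ii.neg.smul_eq_zero] at k
    exact absurd k w_T3.2

end Pool.Agent.Lib.MP_696deb_nt.EA
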