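import Pool.Agent.Lib.MP_696deb_nt.EA.K6

/-! The elliptic unit function and its norm relations. -/

set_option autoImplicit false

open scoped Classical
open Finset WeierstrassCurve.Affine

namespace Pool.Agent.Lib.MP_696deb_nt.EA

open Q4 Sm
open QF (G Prim)

/-- The auxiliary prime of norm five. -/
def be : G := ⟨2, 1⟩

/-- The leading coefficient. -/
noncomputable def al : Qb := 1 + 2 * II

/-- The elliptic unit function. -/
noncomputable def uf (P : A) : Qb := (al * xco P ^ 2 - 1) / 4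

/-- Its logarithmic derivative. -/
noncomputable def du (P : A) : Qb := 4 * al * xco P * yco P / (al * xco P ^ 2 - 1)

variable {P Q : A} {n : G}

theorem be_ne : be ≠ 0 := by decide

theorem be_red : red be = 1 := by decide

theorem be_prime : Prime be := by
  refine Irreducible.prime (irreducible_iff.2
    ⟨fun k => absurd (Zsqrtd.isUnit_iff_norm_isUnit _ |>.1 k) (by decide), fun a b k => ?_⟩)
  have k2 : a.norm * b.norm = 5 := by rw [← Zsqrtd.norm_mul, ← k]; rfl
  exact ((Nat.prime_iff_prime_int.1 Nat.prime_five).irreducible.isUnit_or_isUnit k2.symm).imp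
    (Zsqrtd.isUnit_iff_norm_isUnit _).2 (Zsqrtd.isUnit_iff_norm_isUnit _).2

theorem al_sq : al ^ 2 - 2 * al + 5 = 0 := by
  rw [al]
  linear_combination 4 * II_mul

theorem al_ne : al ≠ 0 := fun e => by simpa [e] using al_sq

theorem al_eq : al = II * io be := by
  rw [al, io_apply, be]
  push_cast
  linear_combination II_mul

theorem be_x (h : be • P = 0) (h0 : P ≠ 0) : al * xco P ^ 2 = 1 := by
  have hw : w • P ≠ 0 := fun e => h0 (by
    have : P = be • P - w • P := by rw [← sub_smul, show be - w = 1 by decide, one_smul]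
    rw [this, h, e, sub_zero])
  have hx := x_ne hw
  have e : w • P = -P := by
    rw [eq_neg_iff_add_eq_zero, ← h, show be = w + 1 by decide, add_smul, one_smul]
  rcases P with _ | ⟨x, y, k⟩
  · exact absurd rfl h0
  obtain ⟨k2, e2⟩ := gen_neg k
  have h1 := wm_some II_mul (((w_smul _).symm.trans e).trans e2)
  simp only [Q4.sl, xco_some] at h1 hx ⊢
  rw [div_pow, eq_div_iff (pow_ne_zero 2 hx), gen_eq k] at h1
  refine mul_left_cancel₀ hx ?_
  rw [al]
  linear_combination x ^ 3 * II_mul - h1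

theorem ii_perm (hn : n ≠ 0) {β : Type} [CommMonoid β] (f : A → β) :
    ∏ S ∈ (En n).erase 0, f (ii • S) = ∏ S ∈ (En n).erase 0, f S := by
  refine prod_bij' (fun S _ => ii • S) (fun S _ => -ii • S) (fun S hS => ?_) (fun S hS => ?_)
    (fun S _ => ?_) (fun S _ => ?_) fun _ _ => rfl
  · rw [mem_erase, mem_En hn] at hS ⊢
    exact ⟨mt isUnit_ii.smul_eq_zero.1 hS.1, by rw [smul_comm, hS.2, smul_zero]⟩
  · rw [mem_erase, mem_En hn] at hS ⊢
    exact ⟨mt isUnit_ii.neg.smul_eq_zero.1 hS.1, by rw [smul_comm, hS.2, smul_zero]⟩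
  · rw [smul_smul, show -ii * ii = 1 by decide, one_smul]
  · rw [smul_smul, show ii * -ii = 1 by decide, one_smul]

theorem x_eq (h0 : P ≠ 0) (h1 : Q ≠ 0) (h : xco P = xco Q) : P = Q ∨ P = -Q := by
  rcases P with _ | ⟨x, y, k⟩
  · exact absurd rfl h0
  rcases Q with _ | ⟨x', y', k'⟩
  · exact absurd rfl h1
  exact Point.X_eq_iff.1 h

theorem uf_ne (h : be • P ≠ 0) : uf P ≠ 0 := fun e => by
  have s0 := mem_erase.1 (erase_ne be_prime)
  have s1 := (mem_En be_ne).1 s0.2
  have p0 : P ≠ 0 := fun k => h (by rw [k, smul_zero])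
  rw [uf, div_eq_zero_iff, or_iff_left (by norm_num : (4 : Qb) ≠ 0), ← be_x s1 s0.1, ← mul_sub,
    mul_eq_zero, or_iff_right al_ne, sub_eq_zero, sq_eq_sq_iff_eq_or_eq_neg, ← x_ii] at e
  have s2 : be • ii • tq 1 be = 0 := by rw [smul_comm, s1, smul_zero]
  rcases e with e | e
  · rcases x_eq p0 s0.1 e with rfl | rfl <;> simp [s1] at h
  · rcases x_eq p0 (mt isUnit_ii.smul_eq_zero.1 s0.1) e with rfl | rfl <;> simp [s2] at h

theorem uf_ii (P : A) : uf (ii • P) = uf P := by rw [uf, uf, x_ii, neg_sq]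

theorem uf_neg (P : A) : uf (-P) = uf P := by rw [uf, uf, xco_neg]

theorem uf_vm {g : GQ} (hg : g II = II) (P : A) : uf (vm (g : Qb →+* Qb) 1 P) = g (uf P) := by
  simp [uf, (xco_vm _ (one_pow 4) P).1, al, hg, map_ofNat]

/-- The norm relation at the prime above two. -/
theorem uf_w (h : w • P ≠ 0) : uf P * uf (P + T) = uf (w • P) := by
  have hx := x_ne h
  rw [uf, uf, uf, x_add_T h]
  rcases P with _ | ⟨x, y, k⟩
  · exact absurd (smul_zero _) h
  obtain ⟨X, Y, k', e, h1⟩ := gen_wm II_mul k hx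
  rw [w_smul, e]
  simp only [xco_some] at hx ⊢
  have h2 : -2 * II * X * x = x ^ 2 - 1 := mul_left_cancel₀ hx (by
    rw [div_pow, eq_div_iff (pow_ne_zero 2 hx), gen_eq k] at h1
    linear_combination h1 - X * x ^ 2 * II_mul)
  have h3 : X ^ 2 = -(x ^ 2 - 1) ^ 2 / (4 * x ^ 2) := by
    rw [← h2, eq_div_iff (mul_ne_zero (by norm_num : (4 : Qb) ≠ 0) (pow_ne_zero 2 hx))]
    linear_combination 4 * X ^ 2 * x ^ 2 * II_mul
  rw [h3]
  field_simp
  linear_combination x ^ 2 * al_sq

theorem uf_const (hn : ¬ be ∣ n) : ∃ κ : Qb, ∀ P : A, n • P ≠ 0 →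
    ∏ S ∈ En n, uf (P + S) = κ * uf (n • P) := by
  have n0 : n ≠ 0 := fun e => hn (e ▸ dvd_zero _)
  have s0 := mem_erase.1 (erase_ne be_prime)
  have s1 := (mem_En be_ne).1 s0.2
  have s2 : n • tq 1 be ≠ 0 := mt (smul_tq_one be_ne).1 hn
  have s3 : n • ii • tq 1 be ≠ 0 := by rwa [smul_comm, Ne, isUnit_ii.smul_eq_zero]
  have e : ∀ {S : A}, be • S = 0 → S ≠ 0 → ∀ P : A,
      uf P = al / 4 * ((xco P - xco S) * (xco P - xco (ii • S))) := fun h1 h2 P => by
    rw [uf, x_ii, ← be_x h1 h2]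
    ring
  refine ⟨(al / 4) ^ ((En n).erase 0).card *
    (io n ^ 2 * (∏ S ∈ (En n).erase 0, (xco S - xco (tq 1 be))) *
      (io n ^ 2 * ∏ S ∈ (En n).erase 0, (xco S - xco (ii • tq 1 be)))), fun P hP => ?_⟩
  rw [prod_congr rfl fun S _ => e s1 s0.1 _, prod_mul_distrib, prod_mul_distrib, x_dist n0 hP s2,
    x_dist n0 hP s3, e (S := n • tq 1 be) (by rw [smul_comm, s1, smul_zero]) s2, prod_const,
    ← card_erase_add_one (zero_mem_En n0), smul_comm n ii]
  ring

theorem uf_odd (h : red n = 1) (hn : ¬ be ∣ n) (hP : n • P ≠ 0) :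
    ∏ S ∈ En n, uf (P + S) = uf (n • P) := by
  have n0 := ne_of_red h
  obtain ⟨κ, k⟩ := uf_const hn
  have a1 := k T (by rw [smul_T h]; exact T_ne)
  have cop : ∀ {c : G}, Prime c → ¬ c ∣ n → ∀ S ∈ (En n).erase 0, c • S ≠ 0 := fun hc h1 S hS e => by
    obtain ⟨s, t, e2⟩ := hc.irreducible.coprime_iff_not_dvd.2 h1
    refine ne_of_mem_erase hS ?_
    rw [← one_smul G S, ← e2, add_smul, mul_smul, mul_smul, e,
      (mem_En n0).1 (mem_of_mem_erase hS), smul_zero, smul_zero, add_zero]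
  have wn : ∀ S ∈ (En n).erase 0, w • S ≠ 0 := fun S hS e => by
    obtain ⟨b, rfl⟩ := exists_kT e
    have := (mem_En n0).1 (mem_of_mem_erase hS)
    rw [smul_kT, h, one_mul] at this
    exact ne_of_mem_erase hS this
  have a2 : ∏ S ∈ (En n).erase 0, uf (w • S) = ∏ S ∈ (En n).erase 0, uf S := by
    have m : ∀ S ∈ (En n).erase 0, w • S ∈ (En n).erase 0 := fun S hS => mem_erase.2 ⟨wn S hS,
      (mem_En n0).2 (by rw [smul_comm, (mem_En n0).1 (mem_of_mem_erase hS), smul_zero])⟩
    have inj : Set.InjOn (w • ·) ((En n).erase 0 : Set A) := fun S hS S' hS' e => by_contra fun k =>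
      wn (S - S') (mem_erase.2 ⟨sub_ne_zero.2 k, (mem_En n0).2 (by
        rw [smul_sub, (mem_En n0).1 (mem_of_mem_erase hS), (mem_En n0).1 (mem_of_mem_erase hS'),
          sub_zero])⟩) (by rw [smul_sub, sub_eq_zero]; exact e)
    exact prod_nbij (w • ·) m inj (surjOn_of_injOn_of_card_le _ m inj le_rfl) fun _ _ => rfl
  rw [← prod_congr rfl fun S hS => uf_w (wn S hS), prod_mul_distrib, mul_eq_left₀
    (prod_ne_zero_iff.2 fun S hS => uf_ne (cop be_prime hn S hS))] at a2
  rw [← mul_prod_erase _ _ (zero_mem_En n0), add_zero, smul_T h,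
    prod_congr rfl fun S _ => congrArg uf (add_comm T S), a2, mul_one, eq_comm, mul_eq_right₀
    (uf_ne (by rw [smul_T be_red]; exact T_ne))] at a1
  rw [k P hP, a1, one_mul]

theorem prod_En_mul {a b : G} (ha : a ≠ 0) (hb : b ≠ 0) {β : Type} [CommMonoid β] (f : A → β) :
    ∃ r : A → A, (∀ S ∈ En a, b • r S = S) ∧
      ∏ S ∈ En (a * b), f S = ∏ S ∈ En a, ∏ S' ∈ En b, f (r S + S') := by
  have : ∀ S, ∃ R, S ∈ En a → b • R = S := fun S => by
    by_cases h : S ∈ En a
    · obtain ⟨c, rfl⟩ := exists_eq_tq ha ((mem_En ha).1 h)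
      exact ⟨tq c (b * a), fun _ => by
        rw [smul_tq _ _ (mul_ne_zero hb ha), tq_mul hb _ ha, tq_eq _ ha]⟩
    · exact ⟨0, fun k => absurd k h⟩
  choose r hr using this
  refine ⟨r, hr, ?_⟩
  rw [← prod_product']
  refine prod_bij' (fun S _ => (b • S, S - r (b • S))) (fun x _ => r x.1 + x.2) (fun S hS => ?_)
    (fun x hx => ?_) (fun S _ => add_sub_cancel _ _) (fun x hx => ?_)
    fun S _ => by rw [add_sub_cancel]
  · have h1 : b • S ∈ En a := (mem_En ha).2 (by
      rw [smul_smul]; exact (mem_En (mul_ne_zero ha hb)).1 hS)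
    exact mem_product.2 ⟨h1, (mem_En hb).2 (by rw [smul_sub, hr _ h1, sub_self])⟩
  · obtain ⟨h1, h2⟩ := mem_product.1 hx
    rw [mem_En (mul_ne_zero ha hb), mul_smul, smul_add, hr _ h1, (mem_En hb).1 h2, add_zero]
    exact (mem_En ha).1 h1
  · obtain ⟨h1, h2⟩ := mem_product.1 hx
    simp only [smul_add, hr _ h1, (mem_En hb).1 h2, add_zero, add_sub_cancel_left]

theorem En_w : En w = {0, T} := by
  ext P
  rw [mem_En (by decide), w_smul, wm_eq_zero II_mul, mem_insert, mem_singleton]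

/-- The norm relation. -/
theorem uf_norm (hn : ¬ be ∣ n) (hP : n • P ≠ 0) : ∏ S ∈ En n, uf (P + S) = uf (n • P) := by
  induction hN : n.norm.natAbs using Nat.strong_induction_on generalizing n P with
  | _ N ih =>
    rcases F2_cases (red n) with e | e
    · rw [red, ← Int.cast_add, ZMod.intCast_zmod_eq_zero_iff_dvd] at e
      obtain ⟨c, e⟩ := e
      obtain ⟨m, rfl⟩ : ∃ m, n = m * w := ⟨⟨c, c - n.re⟩, by
        ext
        · simp [w]
        · simp only [w, Zsqrtd.im_mul]
          omega⟩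
      have h1 : ¬ be ∣ m := fun k => hn (k.mul_right _)
      have m0 : m ≠ 0 := fun k => h1 (k ▸ dvd_zero _)
      obtain ⟨r, hr, k⟩ := prod_En_mul m0 (show w ≠ 0 by decide) fun S => uf (P + S)
      rw [mul_smul] at hP ⊢
      rw [k, ← ih _ ?_ h1 hP rfl]
      · refine prod_congr rfl fun S hS => ?_
        rw [En_w, prod_pair T_ne.symm, add_zero, ← add_assoc, uf_w, smul_add, hr S hS]
        rw [smul_add, hr S hS]
        simpa using ne_of_smul m0 (c := 1) (by rwa [one_smul]) hS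
      · have := Int.natAbs_pos.2 (GaussianInt.norm_pos.2 m0).ne'
        rw [← hN, Zsqrtd.norm_mul, Int.natAbs_mul, show w.norm.natAbs = 2 from rfl]
        omega
    · exact uf_odd e hn hP

theorem du_eq (h : be • P ≠ 0) : ∑ S ∈ (En be).erase 0, yco P / (xco P - xco S) = du P := by
  have h1 := ii_perm be_ne fun S => Multiplicative.ofAdd (yco P / (xco P - xco S))
  simp only [← ofAdd_sum, EmbeddingLike.apply_eq_iff_eq, x_ii] at h1
  have h2 := uf_ne h
  rw [uf, div_ne_zero_iff] at h2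
  have h3 : ((En be).erase 0).card = 4 := by
    have := card_En be_ne
    rw [← card_erase_add_one (zero_mem_En be_ne), show be.norm = 5 from rfl] at this
    omega
  refine mul_left_cancel₀ (two_ne_zero (α := Qb)) ?_
  rw [two_mul]
  nth_rw 1 [← h1]
  rw [← sum_add_distrib, sum_congr rfl (g := fun _ => du P / 2) fun S hS => ?_, sum_const, h3,
    nsmul_eq_mul]
  · push_cast
    ring
  have h4 := be_x ((mem_En be_ne).1 (mem_of_mem_erase hS)) (ne_of_mem_erase hS)
  have h5 : al * xco P ^ 2 - 1 = al * ((xco P - -xco S) * (xco P - xco S)) := by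
    linear_combination h4
  have h6 := h2.1
  rw [h5] at h6
  have h7 := left_ne_zero_of_mul (right_ne_zero_of_mul h6)
  have h8 := right_ne_zero_of_mul (right_ne_zero_of_mul h6)
  have := al_ne
  rw [du, h5]
  field_simp
  ring

end Pool.Agent.Lib.MP_696deb_nt.EA
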