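import Pool.Agent.Lib.MP_696deb_nt.EA.K3
import Pool.Agent.Lib.MP_696deb_nt.EA.K7

/-! The algebraic form of the vanishing of the central value. -/

set_option autoImplicit false

open scoped Classical Real
open Complex Finset

namespace Pool.Agent.Lib.MP_696deb_nt.EA

section
open QF

theorem exists_phi8 {D : ℤ} (hD : Squarefree D) : ∃ (φ : G → G) (M : ℕ) (ν : G) (w : ℂ),
    M ∣ 8 * D.natAbs ∧ Gch (2 * D) φ ∧ 0 < M ∧ Per M φ ∧ ν ≠ 0 ∧ w ≠ 0 ∧ SD M (fun α => (φ α : ℂ)) ν w ∧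
    (¬ (0 < D ↔ D % 16 = 1 ∨ D % 16 = 3 ∨ D % 16 = 11 ∨ D % 16 = 13) → w = -1) ∧
    ∀ (p : ℕ) [Fact p.Prime] (z : G) (ρ : G →+* ZMod p) (χ : MulChar (ZMod p) G), Qc p z ρ χ →
      ¬ (p : ℤ) ∣ D → φ z = star (χ D) := by
  obtain ⟨κ, Q, hQ0, hF⟩ := exists_fac hD
  have hX : ∀ q : ℕ, ∃ X, q ∈ Q → IsX q X := fun q => by
    by_cases h : q ∈ Q
    · exact (exists_X (hQ0 q h).1 (hQ0 q h).2).imp fun _ k _ => k
    · exact ⟨id, fun k => absurd k h⟩
  choose X hX using hX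
  have hQ : ∀ q ∈ Q, q.Prime ∧ q ≠ 2 ∧ IsX q (X q) := fun q h => ⟨(hQ0 q h).1, (hQ0 q h).2, hX q h⟩
  obtain ⟨t, t1, t2⟩ := f8_mod Q hQ0
  have hdvd : ∀ q ∈ Q, (q : ℤ) ∣ D := fun q h => by
    rw [hF]
    exact ((Dvd.intro_left _ (f8_qs q).symm).trans (dvd_prod_of_mem _ h)).mul_left _
  have hσ : ∏ q ∈ Q, f8s q = 1 ∨ ∏ q ∈ Q, f8s q = -1 :=
    prod_induction _ (fun x => x = 1 ∨ x = -1)
      (by rintro a b (rfl | rfl) (rfl | rfl) <;> simp) (Or.inl rfl) fun q _ => by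
        unfold f8s
        split_ifs <;> simp
  have hP : (0 : ℤ) < ∏ q ∈ Q, (q : ℤ) := prod_pos fun q h => by exact_mod_cast (hQ0 q h).1.pos
  have hPσ : 4 * t + 1 = (∏ q ∈ Q, f8s q) * ∏ q ∈ Q, (q : ℤ) := by
    rw [← t1, ← prod_mul_distrib]
    exact prod_congr rfl fun q _ => f8_qs q
  have hW : (ip (e0 κ t) * ∏ q ∈ Q, f8s q * star (X q (ii * nu κ)) : G) =
      ip (e0 κ t) * ((∏ q ∈ Q, f8s q : ℤ) * ip (-((if κ = 0 then 3 else 2) * t))) := by
    rw [prod_congr rfl fun q h => by rw [(hX q h).at_nu (hQ0 q h).1 (hQ0 q h).2],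
      prod_mul_distrib, f8_ip, ← mul_sum, ← t2, Int.cast_prod]
  have hip : ∀ k : ZMod 4, ip k ≠ 0 := by decide
  refine ⟨f8phi κ t X Q, _, nu κ, _, Nat.mul_dvd_mul_left 8 ?_, ⟨?_, f8phi_mul κ t hQ, ?_, fun α => ?_, fun p hp h α e => ?_,
    dvd_mul_right _ _, fun p hp h => ?_, fun α => ?_⟩,
    Nat.mul_pos (by norm_num) (prod_pos fun q hq => (hQ0 q hq).1.pos), f8phi_per κ t hQ,
    (by decide : ∀ κ, nu κ ≠ 0) κ, ?_, f8phi_sd κ t hQ, fun h => ?_, fun p _ z ρ χ h hp => ?_⟩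
  · rw [hF, Int.natAbs_mul]
    exact Dvd.intro_left _ (congrArg _ ((map_prod Int.natAbsHom _ _).trans
      (prod_congr rfl fun q _ => f8_abs q)).symm)
  · have := ph2_nat κ t (n := 1) odd_one
    rw [Nat.cast_one, if_pos rfl] at this
    rw [f8phi, this, one_mul]
    exact prod_eq_one fun q h => by rw [(hX q h).one (hQ0 q h).1, star_one]
  · rw [f8phi, ph2_ii, prod_congr rfl fun q h => by
      rw [(hX q h).at_ii (hQ0 q h).1 (hQ0 q h).2], f8_ip, ← mul_sum, ← t2]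
    exact (by decide : ∀ K : ZMod 4, ip (2 * K - 1) * ip (-(2 * K)) * ii = 1) _
  · rw [f8phi, f8phi, star_mul', star_prod, ph2_conj,
      prod_congr rfl fun q h => by rw [(hX q h).conj]]
  · by_cases h2 : p = 2
    · subst h2
      rw [f8phi, ph2_zero κ t e, zero_mul]
    · have hp' : Prime (p : ℤ) := Nat.prime_iff_prime_int.1 hp
      have k2 : ¬ (p : ℤ) ∣ 2 := f8_ndvd hp Nat.prime_two h2
      rw [hF] at h
      obtain ⟨q, hq, k⟩ := hp'.exists_mem_finset_dvd ((hp'.dvd_or_dvd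
        ((hp'.dvd_or_dvd h).resolve_left k2)).resolve_left fun k =>
          k2 (k.trans ((by decide : ∀ κ, ck κ ∣ 2) κ)))
      obtain rfl : p = q := (Nat.prime_dvd_prime_iff_eq hp (hQ0 q hq).1).1 (by
        simpa [f8_abs] using Int.natAbs_dvd_natAbs.2 k)
      rw [f8phi, prod_eq_zero hq (by rw [(hX p hq).zero α e, star_zero]), mul_zero]
  · rw [f8phi_nat κ t hQ hp (fun e => h (e ▸ dvd_mul_right _ _))
      fun e => h ((hdvd p e).mul_left 2), f8_qs, Int.cast_mul, Int.cast_natCast]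
  · have k : ∀ a b : G, a.norm ≤ 1 → b.norm ≤ 1 → (a * b).norm ≤ 1 := fun a b ha hb => by
      rw [Zsqrtd.norm_mul]
      exact mul_le_one₀ ha (GaussianInt.norm_nonneg _) hb
    exact k _ _ (ph2_bd κ t α) (prod_induction _ (fun x : G => x.norm ≤ 1) k
      Zsqrtd.norm_one.le fun q h => (hX q h).bd α)
  · rw [hW, Ne, GaussianInt.toComplex_eq_zero]
    refine mul_ne_zero (hip _) (mul_ne_zero ?_ (hip _))
    rcases hσ with e | e <;> rw [e] <;> decide
  · rw [hW, f8_sign κ t _ ?_ (t1 ▸ hF) h, map_neg, map_one]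
    rcases hσ with e | e <;> rw [e] at hPσ ⊢
    · exact Or.inl ⟨rfl, by linarith⟩
    · exact Or.inr ⟨rfl, by linarith⟩
  · rw [f8phi, ph2_prim κ t h.prim, ← h.supp, hF, Int.cast_mul, Int.cast_prod, map_mul, map_prod,
      star_mul', star_prod]
    congr 1
    exact prod_congr rfl fun q hq => by
      rw [h.recip (hQ0 q hq).1 (hQ0 q hq).2 (fun e => hp (e ▸ hdvd q hq)) (hX q hq)]

end

open Q4 Sm
open QF (G Prim Per Gch Qc cnt)

/-- The logarithmic derivative of the elliptic unit with zeros at the points killed by `b`. -/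
noncomputable def dl (b : G) (P : A) : Qb := ∑ T ∈ (En b).erase 0, yco P / (xco P - xco T)

theorem dl_ii {b : G} (hb : b ≠ 0) (P : A) : dl b (ii • P) = II * dl b P := by
  have h1 := ii_perm hb fun S => Multiplicative.ofAdd (yco (ii • P) / (xco (ii • P) - xco S))
  simp only [← ofAdd_sum, EmbeddingLike.apply_eq_iff_eq] at h1
  rw [dl, dl, ← h1, mul_sum]
  refine sum_congr rfl fun S _ => ?_
  rw [x_ii, x_ii, ii_smul, JJ, (xco_vm _ II_four P).2, RingHom.id_apply, pow_succ, sq, II_mul,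
    ← neg_sub', neg_one_mul, neg_mul, neg_div_neg_eq, mul_div_assoc]

theorem IsRep.sum_mul {β : Type} [AddCommMonoid β] {n c : G} {R R' : Finset G} (h : IsRep n R)
    (h' : IsRep n R') (hc : IsCoprime c n) {F : G → β} (per : ∀ a γ, F (a + n * γ) = F a) :
    ∑ a ∈ R, F (c * a) = ∑ a ∈ R', F a := by
  choose r hr k using h'.ex
  refine sum_nbij (fun a => r (c * a)) (fun a _ => hr _) (fun a ha a' ha' e => h.uq a ha a' ha' ?_)
    (fun a ha => ?_) fun a _ => ?_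
  · have := dvd_sub (k (c * a)) (k (c * a'))
    rw [show r (c * a) = r (c * a') from e, sub_sub_sub_cancel_right, ← mul_sub] at this
    exact hc.symm.dvd_of_dvd_mul_left this
  · obtain ⟨s, t, e⟩ := hc
    obtain ⟨x, hx, k2⟩ := h.ex (s * a)
    refine ⟨x, hx, h'.uq _ (hr _) _ ha ?_⟩
    have := ((k (c * x)).add (k2.mul_left c)).add (dvd_mul_right n (t * a))
    rw [dvd_sub_comm]
    convert this using 1
    linear_combination -a * e
  · obtain ⟨γ, e⟩ := k (c * a)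
    rw [← per (r _) γ, ← e, add_sub_cancel]

theorem isRep_box {m : ℕ} (hm : 0 < m) :
    IsRep m ((range m ×ˢ range m).image fun p : ℕ × ℕ => (⟨p.1, p.2⟩ : G)) := by
  have m0 : (0 : ℤ) < m := by exact_mod_cast hm
  refine ⟨Nat.cast_ne_zero.2 hm.ne', fun a => ⟨⟨(a.re % m).toNat, (a.im % m).toNat⟩,
    mem_image.2 ⟨(_, _), ?_, rfl⟩, ?_⟩, fun r hr r' hr' e => ?_⟩
  · exact mem_product.2 ⟨mem_range.2 ((Int.toNat_lt' hm).2 (Int.emod_lt_of_pos _ m0)),
      mem_range.2 ((Int.toNat_lt' hm).2 (Int.emod_lt_of_pos _ m0))⟩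
  · rw [QF.f4_dvd]
    simp only [Zsqrtd.re_sub, Zsqrtd.im_sub, Int.toNat_of_nonneg (Int.emod_nonneg _ m0.ne')]
    exact ⟨Int.dvd_self_sub_emod, Int.dvd_self_sub_emod⟩
  · obtain ⟨p, hp, rfl⟩ := mem_image.1 hr
    obtain ⟨q, hq, rfl⟩ := mem_image.1 hr'
    simp only [mem_product, mem_range] at hp hq
    rw [QF.f4_dvd] at e
    have k : ∀ x y : ℕ, x < m → y < m → (m : ℤ) ∣ x - y → (x : ℤ) = y := fun x y hx hy e =>
      sub_eq_zero.1 (Int.eq_zero_of_abs_lt_dvd e (abs_lt.2 ⟨by omega, by omega⟩))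
    exact Zsqrtd.ext (k _ _ hp.1 hq.1 e.1) (k _ _ hp.2 hq.2 e.2)

theorem phi_zero {M : ℤ} {φ : G → G} (h : Gch M φ) {a : G} (ha : (2 : ℤ) ∣ a.norm) : φ a = 0 :=
  h.zero 2 Nat.prime_two h.two a ha

section
variable {M : ℤ} {φ : G → G} (h1 : Gch M φ) {m : ℕ} (hm : 0 < m) (per : Per m φ)
  (h : ES m (fun α => ((star (φ α) : G) : ℂ)) = 0) {R : Finset G} (hR : IsRep m R)
include h1 per

theorem phi_dvd {a : G} (ha : (m : G) ∣ a) : φ a = 0 := by
  obtain ⟨γ, rfl⟩ := ha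
  rw [← zero_add (_ * γ), per, phi_zero h1 (by simp)]

theorem phi_ne {c : G} (hc : IsCoprime c m) : φ c ≠ 0 := fun e => by
  obtain ⟨s, t, k⟩ := hc
  have := per (s * c) t
  rw [mul_comm _ t, k, h1.one, h1.mul, e, mul_zero] at this
  exact one_ne_zero this

include hm h hR

theorem sum_Es {c : G} (hc : IsCoprime c m) :
    ∑ a ∈ R, ((star (φ a) : G) : ℂ) * Es LG (Om * (c * a : G) / (m : G)) = 0 := by
  have k := hR.sum_mul (isRep_box hm) hc
    (F := fun a => ((star (φ a) : G) : ℂ) * Es LG (Om * a / (m : G))) fun a γ => by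
      by_cases e : (m : G) ∣ a
      · simp [per a γ, phi_dvd h1 per e]
      · rw [per, ← Es_add (mt (div_mem_LG hR.ne).1 e) (mem_LG.2 ⟨γ, rfl⟩), map_add, map_mul, mul_add,
          add_div, mul_left_comm, mul_div_cancel_left₀ _ (coe_ne hR.ne)]
  rw [sum_image fun p _ q _ e => by simpa [Prod.ext_iff] using e, sum_product, map_natCast] at k
  refine mul_left_cancel₀ (coe_ne (star_ne_zero.2 (phi_ne h1 per hc))) ?_
  rw [mul_zero, ← h, ES, ← k, mul_sum]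
  refine sum_congr rfl fun a _ => ?_
  rw [h1.mul, star_mul', map_mul _ (star _), mul_assoc, map_natCast]

theorem sum_dl {b c : G} (hb : IsCoprime b m) (hc : IsCoprime c m) :
    ∑ a ∈ R, io (star (φ a)) * dl b (a • tq c m) = 0 := by
  have b0 : b ≠ 0 := fun e => phi_ne h1 per hb (phi_zero h1 (by simp [e]))
  refine jc.injective ?_
  rw [map_zero, map_sum, sum_congr rfl (g := fun a =>
    b * (((star (φ a) : G) : ℂ) * Es LG (Om * (b * c * a : G) / (m : G))) -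
      b.norm * (((star (φ a) : G) : ℂ) * Es LG (Om * (c * a : G) / (m : G)))) fun a _ => ?_,
    sum_sub_distrib, ← mul_sum, ← mul_sum, sum_Es h1 hm per h hR (hb.mul_left hc),
    sum_Es h1 hm per h hR hc, mul_zero, mul_zero, sub_zero]
  by_cases e : (m : G) ∣ a
  · simp [phi_dvd h1 per e]
  rw [map_mul, jc_io, smul_tq _ _ hR.ne, dl, ← dlog_alg b0 (cp_tq _ hR.ne) (by
    rw [smul_tq _ _ hR.ne, Ne, tq_eq_zero hR.ne]
    exact fun k => e (hc.symm.dvd_of_dvd_mul_right (hb.symm.dvd_of_dvd_mul_left k)))]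
  simp only [map_mul]
  ring_nf

theorem sum_prim (h4 : 4 ∣ m) {b c : G} (hb : IsCoprime b m) (hc : IsCoprime c m) :
    ∑ a ∈ R with Prim a, io (star (φ a)) * dl b (a • tq c m) = 0 := by
  have b0 : b ≠ 0 := fun e => phi_ne h1 per hb (phi_zero h1 (by simp [e]))
  have k := sum_dl h1 hm per h hR hb hc
  have p1 : ∀ a γ : G, (a + m * γ) • tq c m = a • tq c m := fun a γ => by
    rw [add_smul, smul_tq (_ * _) _ hR.ne, (tq_eq_zero hR.ne).2 ⟨γ * c, mul_assoc _ _ _⟩, add_zero]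
  have p2 : φ ii = -ii := mul_right_cancel₀ isUnit_ii.ne_zero (h1.unit.trans (by decide))
  generalize ht : (fun a : G => io (star (φ a)) * dl b (a • tq c m)) = t at k ⊢
  have t1 : ∀ a, t (ii * a) = t a := fun a => by
    simp only [← ht, mul_smul, dl_ii b0, h1.mul, p2, star_mul', map_mul]
    rw [show star (-ii) = ii by decide, io_apply ii, ii]
    push_cast
    linear_combination -io (star (φ a)) * dl b (a • tq c m) * II_mul
  have t2 := fun u (hu : IsUnit u) => hR.sum_mul hR (F := fun a => if Prim a then t a else 0)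
    (c := u) (by
      obtain ⟨u, rfl⟩ := hu
      exact ⟨↑u⁻¹, 0, by simp⟩) fun a γ => by
      obtain ⟨n, rfl⟩ := h4
      simp only [← ht, per a γ, p1]
      refine if_congr ?_ rfl rfl
      simp only [Prim, Zsqrtd.re_add, Zsqrtd.im_add, Nat.cast_mul, mul_assoc,
        Zsqrtd.re_mul, Zsqrtd.im_mul, Zsqrtd.re_natCast, Zsqrtd.im_natCast, Nat.cast_ofNat]
      simp
      omega
  refine mul_left_cancel₀ (by norm_num : (4 : Qb) ≠ 0) ?_
  rw [mul_zero, ← k, sum_filter, show ∀ x : Qb, 4 * x = x + x + x + x from fun x => by ring]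
  nth_rw 1 [← t2 _ isUnit_ii, ← t2 _ (isUnit_ii.mul isUnit_ii),
    ← t2 _ (isUnit_ii.mul (isUnit_ii.mul isUnit_ii))]
  simp only [← sum_add_distrib, mul_assoc, t1]
  refine sum_congr rfl fun a _ => ?_
  by_cases e : (2 : ℤ) ∣ a.norm
  · simp [← ht, phi_zero h1 e]
  have e2 : (a.re + a.im) % 2 = 1 := by
    rw [Zsqrtd.norm_def] at e
    by_contra e3
    obtain ⟨s, e4⟩ : (2 : ℤ) ∣ a.re + a.im := by omega
    exact e ⟨(a.re + a.im) * s - a.re * a.im, by linear_combination (a.re + a.im) * e4⟩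
  have q : ∀ x : G, ii * x = ⟨-x.im, x.re⟩ := fun x => by ext <;> simp [ii]
  simp only [q]
  have : (Prim ⟨-a.im, a.re⟩ ∧ ¬ Prim ⟨-a.re, -a.im⟩ ∧ ¬ Prim ⟨- -a.im, -a.re⟩ ∧ ¬ Prim a) ∨
      (¬ Prim ⟨-a.im, a.re⟩ ∧ Prim ⟨-a.re, -a.im⟩ ∧ ¬ Prim ⟨- -a.im, -a.re⟩ ∧ ¬ Prim a) ∨
      (¬ Prim ⟨-a.im, a.re⟩ ∧ ¬ Prim ⟨-a.re, -a.im⟩ ∧ Prim ⟨- -a.im, -a.re⟩ ∧ ¬ Prim a) ∨
      (¬ Prim ⟨-a.im, a.re⟩ ∧ ¬ Prim ⟨-a.re, -a.im⟩ ∧ ¬ Prim ⟨- -a.im, -a.re⟩ ∧ Prim a) := by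
    simp only [Prim]
    omega
  rcases this with k | k | k | k <;> simp only [k, if_true, if_false, add_zero, zero_add]

end

/-- The Hecke character of the curve and the consequence of the vanishing of the central value. -/
theorem final {D : ℤ} (hD : Squarefree D) : ∃ φ : G → G, Gch (2 * D) φ ∧ Per (8 * D.natAbs) φ ∧
    (∀ (p : ℕ) [Fact p.Prime] (z : G) (ρ : G →+* ZMod p) (χ : MulChar (ZMod p) G), Qc p z ρ χ →
      ¬ (p : ℤ) ∣ D → φ z = star (χ D)) ∧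
    ∀ F : ℂ → ℂ, Differentiable ℂ F →
      (∀ s : ℂ, (3 : ℝ) / 2 < s.re → HasProd (fun p : ℕ =>
        if p.Prime ∧ ¬ ((p : ℤ) ∣ 2 * (-4 * (-D) ^ 3 - 27 * 0 ^ 2)) then
          (1 - ((p : ℂ) - (cnt D p : ℂ)) * (p : ℂ) ^ (-s) + (p : ℂ) ^ (1 - 2 * s))⁻¹ else 1)
        (F s)) → F 1 = 0 → ∀ m : ℕ, 0 < m → 8 * D.natAbs ∣ m → ∀ (b c : G) (R : Finset G),
      IsCoprime b m → IsCoprime c m → IsRep m R →
      ∑ a ∈ R with Prim a, io (star (φ a)) * dl b (a • tq c m) = 0 := by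
  obtain ⟨φ, M, ν, w, h0, h1, h2, h3, h4, h5, h6, h7, h8⟩ := exists_phi8 hD
  refine ⟨φ, h1, QF.f8_per h3 h0, h8, fun F hF hp hz m hm k b c R hb hc hR => ?_⟩
  have per := QF.f8_per h3 (h0.trans k)
  exact sum_prim h1 hm per (value_of hD.ne_zero h1 h2 h3 h4 h5 h6 h8 hF hp hz hm per) hR
    (((by decide : 4 ∣ 8).mul_right _).trans k) hb hc

end Pool.Agent.Lib.MP_696deb_nt.EA
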