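import Pool.Agent.Lib.MP_696deb_nt.EA.K8

/-! The elliptic units attached to an odd Gaussian integer, their norm and symmetry relations. -/

set_option autoImplicit false

open scoped Classical
open Finset WeierstrassCurve.Affine

namespace Pool.Agent.Lib.MP_696deb_nt.EA

open Q4 Sm
open QF (G Prim)

/-- The first coordinates of the nonzero points killed by `b`. -/
noncomputable def Xb (b : G) : Finset Qb := ((En b).erase 0).image xco

/-- The elliptic unit function with value one at the point of order `w`. -/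
noncomputable def u0 (b : G) (P : A) : Qb := ∏ r ∈ Xb b, (1 - xco P / r)

/-- The elliptic unit function with exact norm relations. -/
noncomputable def ub (b : G) (P : A) : Qb := u0 b P / u0 b T2 ^ 2

variable {P Q S : A} {a b c n : G} {r : Qb}

theorem w_dvd (h : red n = 0) : w ∣ n := by
  rw [red, ← Int.cast_add, ZMod.intCast_zmod_eq_zero_iff_dvd] at h
  obtain ⟨c, e⟩ := h
  exact ⟨⟨c, c - n.re⟩, by
    ext
    · simp [w]
    · simp only [w, Zsqrtd.im_mul]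
      omega⟩

theorem cop_w (h : red n = 1) : IsCoprime w n := by
  obtain ⟨c, e⟩ := w_dvd (n := n - 1) (by
    rw [red] at h ⊢
    simp only [Zsqrtd.re_sub, Zsqrtd.im_sub, Zsqrtd.re_one, Zsqrtd.im_one]
    push_cast
    linear_combination h)
  exact ⟨-c, 1, by linear_combination e⟩

theorem cop_two (h : red n = 1) : IsCoprime 2 n := by
  rw [two_eq]
  exact (isCoprime_mul_unit_left_left isUnit_ii.neg _ _).2 (cop_w h).pow_left

theorem cop_smul (h : IsCoprime c n) (h1 : n • S = 0) (h2 : c • S = 0) : S = 0 := by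
  obtain ⟨s, t, e⟩ := h
  rw [← one_smul G S, ← e, add_smul, mul_smul, mul_smul, h1, h2, smul_zero, smul_zero, add_zero]

theorem mem_En0 (hn : n ≠ 0) : S ∈ (En n).erase 0 ↔ S ≠ 0 ∧ n • S = 0 := by
  rw [mem_erase, mem_En hn]

theorem mem_Xb (hb : b ≠ 0) : r ∈ Xb b ↔ ∃ S : A, (S ≠ 0 ∧ b • S = 0) ∧ xco S = r := by
  simp only [Xb, mem_image, mem_En0 hb]

theorem exists_sec (hb : b ≠ 0) :
    ∃ s : Qb → A, ∀ r ∈ Xb b, (s r ≠ 0 ∧ b • s r = 0) ∧ xco (s r) = r := by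
  have : ∀ r, ∃ S : A, r ∈ Xb b → (S ≠ 0 ∧ b • S = 0) ∧ xco S = r := fun r => by
    by_cases h : r ∈ Xb b
    · exact ((mem_Xb hb).1 h).imp fun _ k _ => k
    · exact ⟨0, fun k => absurd k h⟩
  choose s hs using this
  exact ⟨s, hs⟩

theorem ne_neg_of (hb : red b = 1) (h0 : S ≠ 0) (h : b • S = 0) : S ≠ -S := fun e =>
  h0 (cop_smul (cop_two hb) h (by rw [two_smul]; exact add_eq_zero_iff_eq_neg.2 e))

theorem Xb_ne (hb : red b = 1) (h : r ∈ Xb b) : r ≠ 0 := by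
  obtain ⟨S, ⟨h0, h1⟩, rfl⟩ := (mem_Xb (ne_of_red hb)).1 h
  exact x_ne fun e => h0 (cop_smul (cop_w hb) h1 e)

theorem prod_Xb (hb : red b = 1) {β : Type} [CommMonoid β] (f : Qb → β) :
    ∏ S ∈ (En b).erase 0, f (xco S) = (∏ r ∈ Xb b, f r) ^ 2 := by
  have b0 := ne_of_red hb
  rw [prod_comp, ← prod_pow]
  refine prod_congr rfl fun r hr => ?_
  obtain ⟨S, ⟨h0, h1⟩, rfl⟩ := (mem_Xb b0).1 hr
  rw [← card_pair (ne_neg_of hb h0 h1)]
  congr 2
  ext R
  rw [mem_filter, mem_En0 b0, mem_insert, mem_singleton]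
  refine ⟨fun k => x_eq k.1.1 h0 k.2, ?_⟩
  rintro (rfl | rfl)
  · exact ⟨⟨h0, h1⟩, rfl⟩
  · exact ⟨⟨neg_ne_zero.2 h0, by rw [smul_neg, h1, neg_zero]⟩, xco_neg _⟩

theorem card_Xb (hb : red b = 1) : b.norm.natAbs = 2 * (Xb b).card + 1 := by
  have h1 := prod_Xb hb fun _ => Multiplicative.ofAdd (1 : ℕ)
  simp only [prod_const, ← ofAdd_nsmul, smul_eq_mul, mul_one,
    EmbeddingLike.apply_eq_iff_eq] at h1
  rw [← card_En (ne_of_red hb), Int.natAbs_natCast,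
    ← card_erase_add_one (zero_mem_En (ne_of_red hb)), h1, mul_comm]

theorem Xb_perm (hb : b ≠ 0) {s : Qb → A}
    (hs : ∀ r ∈ Xb b, (s r ≠ 0 ∧ b • s r = 0) ∧ xco (s r) = r) (φ : A →+ A)
    (h1 : ∀ S, b • S = 0 → b • φ S = 0) (h2 : ∀ S, b • S = 0 → φ S = 0 → S = 0)
    {β : Type} [CommMonoid β] (f : Qb → β) :
    ∏ r ∈ Xb b, f (xco (φ (s r))) = ∏ r ∈ Xb b, f r := by
  have n0 : ∀ r ∈ Xb b, φ (s r) ≠ 0 := fun r hr e => (hs r hr).1.1 (h2 _ (hs r hr).1.2 e)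
  have m : ∀ r ∈ Xb b, xco (φ (s r)) ∈ Xb b := fun r hr =>
    (mem_Xb hb).2 ⟨_, ⟨n0 r hr, h1 _ (hs r hr).1.2⟩, rfl⟩
  have inj : Set.InjOn (fun r => xco (φ (s r))) (Xb b) := fun r hr r' hr' e => by
    rw [← (hs r hr).2, ← (hs r' hr').2]
    rcases x_eq (n0 r hr) (n0 r' hr') e with k | k
    · rw [sub_eq_zero.1 (h2 (s r - s r') (by rw [smul_sub, (hs r hr).1.2, (hs r' hr').1.2, sub_zero])
        (by rw [map_sub, k, sub_self]))]
    · rw [eq_neg_of_add_eq_zero_left (h2 (s r + s r')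
        (by rw [smul_add, (hs r hr).1.2, (hs r' hr').1.2, add_zero])
        (by rw [map_add, k, neg_add_cancel])), xco_neg]
  exact prod_nbij _ m inj (surjOn_of_injOn_of_card_le _ m inj le_rfl) fun _ _ => rfl

theorem Xb_smul (hb : b ≠ 0) {s : Qb → A}
    (hs : ∀ r ∈ Xb b, (s r ≠ 0 ∧ b • s r = 0) ∧ xco (s r) = r) (hc : IsCoprime c b)
    {β : Type} [CommMonoid β] (f : Qb → β) :
    ∏ r ∈ Xb b, f (xco (c • s r)) = ∏ r ∈ Xb b, f r :=
  Xb_perm hb hs (DistribSMul.toAddMonoidHom A c)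
    (fun S h => by rw [DistribSMul.toAddMonoidHom_apply, smul_comm, h, smul_zero])
    (fun _ => cop_smul hc) f

theorem Xb_neg (hb : b ≠ 0) {β : Type} [CommMonoid β] (f : Qb → β) :
    ∏ r ∈ Xb b, f (-r) = ∏ r ∈ Xb b, f r := by
  obtain ⟨s, hs⟩ := exists_sec hb
  rw [← Xb_smul hb hs (c := ii) ⟨-ii, 0, by rw [zero_mul, add_zero]; decide⟩ f]
  exact prod_congr rfl fun r hr => by rw [x_ii, (hs r hr).2]

theorem Xb_gal (hb : b ≠ 0) {g : GQ} (hg : g II = II) {β : Type} [CommMonoid β] (f : Qb → β) :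
    ∏ r ∈ Xb b, f (g r) = ∏ r ∈ Xb b, f r := by
  obtain ⟨s, hs⟩ := exists_sec hb
  rw [← Xb_perm hb hs (vm (g : Qb →+* Qb) 1) (fun S h => by rw [← vm_smul hg, h, map_zero])
    (fun S _ => (map_eq_zero_iff _ (vm_inj (one_pow 4))).1) f]
  exact prod_congr rfl fun r hr => by
    rw [(xco_vm _ (one_pow 4) _).1, (hs r hr).2, one_pow, one_mul]
    rfl

theorem u0_of_x (hb : b ≠ 0) (h : xco P = xco Q ∨ xco P = -xco Q) : u0 b P = u0 b Q := by
  rcases h with h | h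
  · rw [u0, u0, h]
  · rw [u0, u0, h, ← Xb_neg hb]
    simp only [neg_div_neg_eq]

theorem u0_vm (hb : b ≠ 0) {g : GQ} (hg : g II = II) (P : A) :
    u0 b (vm (g : Qb →+* Qb) 1 P) = g (u0 b P) := by
  rw [u0, u0, map_prod, ← Xb_gal hb hg]
  simp [(xco_vm _ (one_pow 4) P).1]

theorem u0_T (b : G) : u0 b T = 1 := by simp [u0, T1]

theorem u0_ne (hb : red b = 1) (h : b • P ≠ 0) : u0 b P ≠ 0 :=
  prod_ne_zero_iff.2 fun r hr e => by
    rw [sub_eq_zero, eq_comm, div_eq_one_iff_eq (Xb_ne hb hr)] at e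
    obtain ⟨S, ⟨h0, h1⟩, rfl⟩ := (mem_Xb (ne_of_red hb)).1 hr
    rcases x_eq (fun k => h (by rw [k, smul_zero])) h0 e with rfl | rfl <;> simp [h1] at h

theorem wn_T2 (h : red n = 1) : w • n • T2 = T := by rw [smul_comm, w_T2, smul_T h]

theorem n_T2 (h : red n = 1) : n • T2 ≠ 0 := fun e => T_ne (by rw [← T, ← wn_T2 h, e, smul_zero])

theorem u0_T2 (hb : b ≠ 0) (h : w • P = T) : u0 b P = u0 b T2 := by
  obtain ⟨x, k, e, rfl⟩ := wm_eq_T II_mul ((w_smul P).symm.trans h)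
  exact u0_of_x hb (mul_self_eq_one_iff.1 e)

theorem ub_ne (hb : red b = 1) (h : b • P ≠ 0) : ub b P ≠ 0 :=
  div_ne_zero (u0_ne hb h) (pow_ne_zero 2 (u0_ne hb (n_T2 hb)))

theorem ub_ii (hb : b ≠ 0) (P : A) : ub b (ii • P) = ub b P := by
  rw [ub, ub, u0_of_x hb (.inr (x_ii P))]

theorem ub_neg (hb : b ≠ 0) (P : A) : ub b (-P) = ub b P := by
  rw [ub, ub, u0_of_x hb (.inl (xco_neg P))]

theorem ub_vm (hb : b ≠ 0) {g : GQ} (hg : g II = II) (P : A) :
    ub b (vm (g : Qb →+* Qb) 1 P) = g (ub b P) := by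
  rw [ub, ub, map_div₀, map_pow, ← u0_vm hb hg, ← u0_vm hb hg,
    u0_T2 hb (P := vm _ 1 T2) (by rw [← vm_smul hg, w_T2, vm_T (one_pow 4)])]

theorem u0_const (hb : red b = 1) (n0 : n ≠ 0) (hn : IsCoprime n b) : ∃ κ : Qb, ∀ P : A,
    n • P ≠ 0 → ∏ S ∈ En n, u0 b (P + S) = κ * u0 b (n • P) := by
  have b0 := ne_of_red hb
  obtain ⟨s, hs⟩ := exists_sec b0
  refine ⟨∏ r ∈ Xb b, (-r⁻¹) ^ (En n).card *
    (io n ^ 2 * (∏ S ∈ (En n).erase 0, (xco S - r)) * -xco (n • s r)), fun P hP => ?_⟩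
  rw [u0, ← Xb_smul b0 hs hn fun r => 1 - xco (n • P) / r, ← prod_mul_distrib]
  refine prod_comm.trans (prod_congr rfl fun r hr => ?_)
  have h1 : n • s r ≠ 0 := fun e => (hs r hr).1.1 (cop_smul hn (hs r hr).1.2 e)
  have h2 := x_dist n0 hP h1
  have h3 := Xb_ne hb hr
  have h4 := Xb_ne hb ((mem_Xb b0).2 ⟨_, ⟨h1, by rw [smul_comm, (hs r hr).1.2, smul_zero]⟩, rfl⟩)
  rw [(hs r hr).2] at h2
  rw [prod_congr rfl fun S _ => show 1 - xco (P + S) / r = -r⁻¹ * (xco (P + S) - r) by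
    field_simp; ring, prod_mul_distrib, h2, prod_const]
  field_simp
  ring

/-- The norm relation at the prime above two. -/
theorem ub_w (hb : red b = 1) (h : w • P ≠ 0) : ub b P * ub b (P + T) = ub b (w • P) := by
  have b0 := ne_of_red hb
  obtain ⟨κ, k⟩ := u0_const hb (show w ≠ 0 by decide) (cop_w hb)
  simp only [En_w, prod_pair T_ne.symm, add_zero] at k
  have h1 := k T2 (w_T2 ▸ T_ne)
  rw [w_T2, u0_T, mul_one, u0_T2 b0 (P := T2 + T) (by rw [smul_add, w_T2, w_T, add_zero])] at h1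
  have := u0_ne hb (n_T2 hb)
  rw [ub, ub, ub, div_mul_div_comm, k P h, ← h1]
  field_simp

theorem ub_odd (hb : red b = 1) (h : red n = 1) (hn : IsCoprime n b) (hP : n • P ≠ 0) :
    ∏ S ∈ En n, ub b (P + S) = ub b (n • P) := by
  have n0 := ne_of_red h
  obtain ⟨κ, k⟩ : ∃ κ : Qb, ∀ P : A, n • P ≠ 0 → ∏ S ∈ En n, ub b (P + S) = κ * ub b (n • P) := by
    obtain ⟨κ, k⟩ := u0_const hb n0 hn
    have := u0_ne hb (n_T2 hb)
    refine ⟨κ * u0 b T2 ^ 2 / (u0 b T2 ^ 2) ^ (En n).card, fun P hP => ?_⟩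
    simp only [ub, prod_div_distrib, k P hP, prod_const]
    field_simp
  have a1 := k T (by rw [smul_T h]; exact T_ne)
  have cop : ∀ {c : G}, IsCoprime c n → ∀ S ∈ (En n).erase 0, c • S ≠ 0 := fun hc S hS e =>
    ne_of_mem_erase hS (cop_smul hc ((mem_En0 n0).1 hS).2 e)
  have wn := cop (cop_w h)
  have a2 : ∏ S ∈ (En n).erase 0, ub b (w • S) = ∏ S ∈ (En n).erase 0, ub b S := by
    have m : ∀ S ∈ (En n).erase 0, w • S ∈ (En n).erase 0 := fun S hS => (mem_En0 n0).2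
      ⟨wn S hS, by rw [smul_comm, ((mem_En0 n0).1 hS).2, smul_zero]⟩
    have inj : Set.InjOn (w • ·) ((En n).erase 0 : Set A) := fun S hS S' hS' e =>
      sub_eq_zero.1 (cop_smul (cop_w h) (by
        rw [smul_sub, ((mem_En0 n0).1 hS).2, ((mem_En0 n0).1 hS').2, sub_zero])
        (by rw [smul_sub, sub_eq_zero]; exact e))
    exact prod_nbij (w • ·) m inj (surjOn_of_injOn_of_card_le _ m inj le_rfl) fun _ _ => rfl
  rw [← prod_congr rfl fun S hS => ub_w hb (wn S hS), prod_mul_distrib, mul_eq_left₀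
    (prod_ne_zero_iff.2 fun S hS => ub_ne hb (cop hn.symm S hS))] at a2
  rw [← mul_prod_erase _ _ (zero_mem_En n0), add_zero, smul_T h,
    prod_congr rfl fun S _ => congrArg (ub b) (add_comm T S), a2, mul_one, eq_comm, mul_eq_right₀
    (ub_ne hb (by rw [smul_T hb]; exact T_ne))] at a1
  rw [k P hP, a1, one_mul]

/-- The norm relation. -/
theorem ub_norm (hb : red b = 1) (hn : IsCoprime n b) (hP : n • P ≠ 0) :
    ∏ S ∈ En n, ub b (P + S) = ub b (n • P) := by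
  induction hN : n.norm.natAbs using Nat.strong_induction_on generalizing n P with
  | _ N ih =>
    rcases F2_cases (red n) with e | e
    · obtain ⟨m, rfl⟩ := w_dvd e
      rw [mul_comm] at *
      have m0 : m ≠ 0 := fun k => hP (by rw [k, zero_mul, zero_smul])
      obtain ⟨r, hr, k⟩ := prod_En_mul m0 (show w ≠ 0 by decide) fun S => ub b (P + S)
      rw [mul_smul] at hP ⊢
      rw [k, ← ih _ ?_ hn.of_mul_left_left hP rfl]
      · refine prod_congr rfl fun S hS => ?_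
        rw [En_w, prod_pair T_ne.symm, add_zero, ← add_assoc, ub_w hb, smul_add, hr S hS]
        rw [smul_add, hr S hS]
        simpa using ne_of_smul m0 (c := 1) (by rwa [one_smul]) hS
      · have := Int.natAbs_pos.2 (GaussianInt.norm_pos.2 m0).ne'
        rw [← hN, Zsqrtd.norm_mul, Int.natAbs_mul, show w.norm.natAbs = 2 from rfl]
        omega
    · exact ub_odd hb e hn hP

theorem x_T2 (h : xco P ≠ 1) (h0 : P ≠ 0) : xco (T2 + P) = (xco P + 1) / (xco P - 1) := by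
  rcases P with _ | ⟨x, y, k⟩
  · exact absurd rfl h0
  simp only [xco_some] at h ⊢
  have h1 := sub_ne_zero.2 h
  obtain ⟨h2, e2⟩ := gen_add (l := y / (x - 1)) k (ns_iff.2 (by norm_num) : NS (1 : Qb) 0) h (by
    rw [sub_zero]; exact div_mul_cancel₀ _ h1)
  rw [add_comm, T2, e2, xco_some]
  field_simp
  linear_combination gen_eq k

/-- The product of the first coordinates of the division points. -/
theorem x_prod (h : n • T2 = T2) : io n ^ 2 * ∏ S ∈ (En n).erase 0, xco S = 1 := by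
  have hr : red n = 1 := (F2_cases (red n)).resolve_left fun e => by
    obtain ⟨m, rfl⟩ := w_dvd e
    have := w_T2
    rw [← h, smul_smul, ← mul_assoc, mul_comm, mul_smul, mul_smul, w_T2, w_T, smul_zero] at this
    exact T_ne this.symm
  have n0 := ne_of_red hr
  have t0 : T2 ≠ 0 := h ▸ n_T2 hr
  have k1 : ∀ S ∈ (En n).erase 0, xco S ≠ 1 := fun S hS e => by
    obtain ⟨s1, s2⟩ := (mem_En0 n0).1 hS
    rcases x_eq s1 t0 e with rfl | rfl <;> simp [h, t0] at s2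
  have a := x_norm hr (n_T2 hr)
  rw [h, ← mul_prod_erase _ _ (zero_mem_En n0), add_zero,
    prod_congr rfl fun S hS => x_T2 (k1 S hS) (ne_of_mem_erase hS),
    prod_Xb hr fun r => (r + 1) / (r - 1), sq (∏ r ∈ Xb n, _)] at a
  nth_rw 1 [← Xb_neg n0] at a
  rw [← prod_mul_distrib, prod_eq_one fun r hr => ?_] at a
  · simpa [T2] using a.symm
  obtain ⟨S, hS, rfl⟩ := mem_image.1 hr
  have h1 := sub_ne_zero.2 (k1 S hS)
  have h2 := sub_ne_zero.2 (k1 (ii • S) ((mem_En0 n0).2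
    ⟨mt isUnit_ii.smul_eq_zero.1 (ne_of_mem_erase hS), by
      rw [smul_comm, ((mem_En0 n0).1 hS).2, smul_zero]⟩))
  rw [x_ii] at h2
  field_simp
  ring

theorem u0_mul (ha : red a = 1) (hb : red b = 1) (hP : b • P ≠ 0) :
    u0 (a * b) P = u0 a (b • P) * u0 b P ^ a.norm.natAbs := by
  have a0 := ne_of_red ha
  have b0 := ne_of_red hb
  have c0 := mul_ne_zero a0 b0
  have hc : red (a * b) = 1 := by rw [red_mul, ha, hb, mul_one]
  obtain ⟨s, hs⟩ := exists_sec a0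
  obtain ⟨t, ht, -⟩ := prod_En_mul a0 b0 fun _ => (1 : ℕ)
  have t1 : ∀ r ∈ Xb a, b • t (s r) = s r := fun r hr => ht _ ((mem_En a0).2 (hs r hr).1.2)
  have t2 : ∀ r ∈ Xb a, ∀ R ∈ En b, b • (t (s r) + R) = s r := fun r hr R hR => by
    rw [smul_add, t1 r hr, (mem_En b0).1 hR, add_zero]
  have t3 : ∀ r ∈ Xb a, ∀ R ∈ En b, t (s r) + R ≠ 0 := fun r hr R hR e =>
    (hs r hr).1.1 (by rw [← t2 r hr R hR, e, smul_zero])
  have t4 : ∀ r ∈ Xb a, ∀ R ∈ En b, xco (t (s r) + R) ∈ Xb (a * b) := fun r hr R hR =>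
    (mem_Xb c0).2 ⟨_, ⟨t3 r hr R hR, by rw [mul_smul, t2 r hr R hR, (hs r hr).1.2]⟩, rfl⟩
  have sub : Xb b ⊆ Xb (a * b) := fun r hr => by
    obtain ⟨S, h, e⟩ := (mem_Xb b0).1 hr
    exact (mem_Xb c0).2 ⟨S, ⟨h.1, by rw [mul_smul, h.2, smul_zero]⟩, e⟩
  have e1 : ∏ p ∈ Xb a ×ˢ En b, (1 - xco P / xco (t (s p.1) + p.2)) =
      ∏ r ∈ Xb (a * b) \ Xb b, (1 - xco P / r) := by
    refine prod_nbij (fun p => xco (t (s p.1) + p.2)) (fun p hp => ?_) (fun p hp q hq e => ?_)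
      (fun y hy => ?_) fun _ _ => rfl
    · obtain ⟨h1, h2⟩ := mem_product.1 hp
      refine mem_sdiff.2 ⟨t4 _ h1 _ h2, fun k => ?_⟩
      obtain ⟨S, h, e⟩ := (mem_Xb b0).1 k
      have := t2 _ h1 _ h2
      rcases x_eq (t3 _ h1 _ h2) h.1 e.symm with k | k <;> simp [k, h.2, (hs _ h1).1.1.symm] at this
    · obtain ⟨h1, h2⟩ := mem_product.1 hp
      obtain ⟨h3, h4⟩ := mem_product.1 hq
      have k1 := t2 _ h1 _ h2
      rcases x_eq (t3 _ h1 _ h2) (t3 _ h3 _ h4) e with k | k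
      · rw [k, t2 _ h3 _ h4] at k1
        have k2 : p.1 = q.1 := by rw [← (hs _ h1).2, ← k1, (hs _ h3).2]
        exact Prod.ext k2 (add_left_cancel (k2 ▸ k))
      · rw [k, smul_neg, t2 _ h3 _ h4] at k1
        have k2 : p.1 = q.1 := by rw [← (hs _ h1).2, ← k1, xco_neg, (hs _ h3).2]
        exact absurd (k2 ▸ k1).symm (ne_neg_of ha (hs _ h3).1.1 (hs _ h3).1.2)
    · obtain ⟨h1, h2⟩ := mem_sdiff.1 hy
      obtain ⟨U, h, rfl⟩ := (mem_Xb c0).1 h1
      have u1 : b • U ≠ 0 := fun e => h2 ((mem_Xb b0).2 ⟨U, ⟨h.1, e⟩, rfl⟩)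
      have u2 : xco (b • U) ∈ Xb a := (mem_Xb a0).2 ⟨_, ⟨u1, by rw [← mul_smul, h.2]⟩, rfl⟩
      rcases x_eq (hs _ u2).1.1 u1 (hs _ u2).2 with k | k
      · exact ⟨(xco (b • U), U - t (s (xco (b • U)))), mem_product.2 ⟨u2, (mem_En b0).2 (by
          rw [smul_sub, t1 _ u2, k, sub_self])⟩, by simp⟩
      · exact ⟨(xco (b • U), -U - t (s (xco (b • U)))), mem_product.2 ⟨u2, (mem_En b0).2 (by
          rw [smul_sub, t1 _ u2, k, smul_neg, sub_self])⟩, by simp [xco_neg]⟩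
  rw [u0, ← prod_sdiff sub, ← e1, prod_product, card_Xb ha, pow_succ, ← mul_assoc, pow_mul,
    ← prod_const, u0, ← prod_mul_distrib]
  refine congrArg₂ _ (prod_congr rfl fun r hr => ?_) rfl
  have h1 : b • t (s r) ≠ 0 := (t1 r hr).symm ▸ (hs r hr).1.1
  have h2 := x_dist b0 h1 hP
  have h3 := x_norm hb h1
  rw [t1 r hr, (hs r hr).2] at h2 h3
  have h4 := Xb_ne ha hr
  have h5 := io_ne b0
  have h6 : ∀ S ∈ (En b).erase 0, xco S ≠ 0 := fun S hS => Xb_ne hb (mem_image_of_mem _ hS)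
  have h7 := prod_ne_zero_iff.2 h6
  rw [prod_congr rfl fun R hR => one_sub_div (Xb_ne hc (t4 r hr R hR)), prod_div_distrib, h2, h3,
    u0, ← prod_Xb hb fun r => 1 - xco P / r, prod_congr rfl fun S hS => one_sub_div (h6 S hS),
    prod_div_distrib]
  field_simp

theorem ub_mul (ha : red a = 1) (hb : red b = 1) (hP : b • P ≠ 0) :
    ub (a * b) P = ub a (b • P) * ub b P ^ a.norm.natAbs := by
  rw [ub, ub, ub, u0_mul ha hb hP, u0_mul ha hb (n_T2 hb), u0_T2 (ne_of_red ha) (wn_T2 hb),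
    div_pow, div_mul_div_comm, mul_pow, ← pow_mul, ← pow_mul, mul_comm 2]

/-- The symmetry relation. -/
theorem ub_symm (ha : red a = 1) (hb : red b = 1) (h1 : a • P ≠ 0) (h2 : b • P ≠ 0) :
    ub a (b • P) * ub b P ^ a.norm.natAbs = ub b (a • P) * ub a P ^ b.norm.natAbs := by
  rw [← ub_mul ha hb h2, ← ub_mul hb ha h1, mul_comm]

end Pool.Agent.Lib.MP_696deb_nt.EA
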