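import Pool.Agent.Lib.MP_696deb_nt.EA.L1

/-! The formal group, separation of points and the valuations of elliptic units. -/

set_option autoImplicit false

open scoped Classical NNReal
open Finset WeierstrassCurve.Affine

namespace Pool.Agent.Lib.MP_696deb_nt.EA

open Q4 Sm
open QF (G Prim)

variable {v : Plc} {P Q R : A} {a b c n : G}

theorem l2_aux (W : WeierstrassCurve Qb) (h : W = (@B6.Wu cw1).baseChange Qb)
    {P Q : W.toAffine.Point} (hP : P ≠ 0) (hQ : Q ≠ 0) (k : P + Q ≠ 0) : ∃ l n : Qb,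
    yco P = l * xco P + n ∧ yco Q = l * xco Q + n ∧ yco (-(P + Q)) = l * xco (P + Q) + n ∧
      xco P + xco Q + xco (P + Q) = l ^ 2 ∧
      xco P * xco Q + xco P * xco (P + Q) + xco Q * xco (P + Q) = -1 - 2 * l * n := by
  subst h
  let _ := cw1
  simpa [B6.WZ, B6.Cw.W] using B6.r0_line hP hQ k

theorem line (hP : P ≠ 0) (hQ : Q ≠ 0) (k : P + Q ≠ 0) : ∃ l n : Qb,
    yco P = l * xco P + n ∧ yco Q = l * xco Q + n ∧ -yco (P + Q) = l * xco (P + Q) + n ∧
      xco P + xco Q + xco (P + Q) = l ^ 2 ∧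
      xco P * xco Q + xco P * xco (P + Q) + xco Q * xco (P + Q) = -1 - 2 * l * n ∧
      xco P * xco Q * xco (P + Q) = n ^ 2 := by
  obtain ⟨l, n, h1, h2, h3, h4, h5⟩ := l2_aux _ W_eq hP hQ k
  refine ⟨l, n, h1, h2, (co_neg _).symm.trans h3, h4, h5, ?_⟩
  have h6 := co_eq hP
  rw [h1] at h6
  linear_combination xco P * h5 - xco P ^ 2 * h4 - h6

/-- The parameter of the formal group. -/
noncomputable def zc (P : A) : Qb := -xco P / yco P

theorem zc_zero : zc 0 = 0 := by simp [zc]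

theorem zc_neg (P : A) : zc (-P) = -zc P := by rw [zc, zc, xco_neg, co_neg, div_neg]

theorem zc_vm (f : Qb →+* Qb) {u : Qb} (hu : u ^ 4 = 1) (P : A) :
    zc (vm f u P) = u⁻¹ * f (zc P) := by
  have : u ≠ 0 := fun e => by simp [e] at hu
  rw [zc, zc, (xco_vm f hu P).1, (xco_vm f hu P).2, map_div₀, map_neg, pow_succ u 2, mul_assoc,
    ← mul_neg, mul_div_mul_left _ _ (pow_ne_zero 2 this), div_mul_eq_div_div_swap, div_eq_inv_mul]

theorem zc_ii (P : A) : zc (ii • P) = io ii * zc P := by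
  rw [ii_smul, JJ, zc_vm _ II_four, RingHom.id_apply, io_apply, ii,
    inv_eq_of_mul_eq_one_right (show II * -II = 1 by rw [mul_neg, II_mul, neg_neg])]
  simp

theorem V_xy (h : 1 < v.V (xco P)) : v.V (yco P) ^ 2 = v.V (xco P) ^ 3 := by
  rw [← map_pow, co_eq (by rintro rfl; simp at h), v.V.map_sub_eq_of_lt_left, map_pow]
  rw [map_pow]
  exact lt_self_pow₀ h (by norm_num)

theorem V_zc (h : 1 < v.V (xco P)) : v.V (zc P) ^ 2 * v.V (xco P) = 1 := by
  rw [zc, map_div₀, v.V.map_neg, div_pow, V_xy h, div_mul_eq_mul_div, ← pow_succ,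
    div_self (pow_ne_zero _ (zero_lt_one.trans h).ne')]

theorem V_zc_lt (h : P ∈ Kr v) : v.V (zc P) < 1 := by
  rcases mem_Kr.1 h with rfl | h
  · simp [zc_zero]
  · exact not_le.1 fun k => (V_zc h).not_gt (one_lt_mul (one_le_pow₀ k) h)

theorem zc_eq_zero (h : P ∈ Kr v) (k : zc P = 0) : P = 0 :=
  (mem_Kr.1 h).resolve_right fun e => by simpa [k] using V_zc e

/-- The group law in the parameter of the formal group. -/
theorem zc_add (hP : P ∈ Kr v) (hQ : Q ∈ Kr v) :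
    v.V (zc (P + Q) - zc P - zc Q) ≤ v.V (zc P) * v.V (zc Q) * v.V (zc (P + Q)) := by
  by_cases p0 : P = 0
  · simp [p0, zc_zero]
  by_cases q0 : Q = 0
  · simp [q0, zc_zero]
  by_cases r0 : P + Q = 0
  · simp [eq_neg_of_add_eq_zero_left r0, zc_zero, zc_neg]
  obtain ⟨l, n, h1, h2, h3, e1, e2, e3⟩ := line p0 q0 r0
  have a1 := (mem_Kr.1 hP).resolve_left p0
  have a2 := (mem_Kr.1 hQ).resolve_left q0
  have a3 := (mem_Kr.1 (add_mem hP hQ)).resolve_left r0
  have y0 : ∀ {S : A}, 1 < v.V (xco S) → yco S ≠ 0 := fun h e => by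
    have := V_xy h
    rw [e, map_zero, zero_pow two_ne_zero] at this
    exact pow_ne_zero _ (zero_lt_one.trans h).ne' this.symm
  have b1 : v.V (n ^ 2) = v.V (xco P) * v.V (xco Q) * v.V (xco (P + Q)) := by
    rw [← e3, map_mul, map_mul]
  have b2 : v.V (l ^ 2) < v.V (n ^ 2) := by
    rw [b1, ← e1]
    refine v.V.map_add_lt (v.V.map_add_lt ?_ ?_) ?_
    · rw [mul_assoc]
      exact lt_mul_of_one_lt_right (zero_lt_one.trans a1) (one_lt_mul'' a2 a3)
    · rw [mul_right_comm]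
      exact lt_mul_of_one_lt_left (zero_lt_one.trans a2) (one_lt_mul'' a1 a3)
    · exact lt_mul_of_one_lt_left (zero_lt_one.trans a3) (one_lt_mul'' a1 a2)
  have b3 := v.V.map_sub_eq_of_lt_left b2
  have n0 : v.V n ≠ 0 := fun e => by simp [e] at b2
  have b4 : (zc (P + Q) - zc P - zc Q) * (n ^ 2 - l ^ 2) = -(2 * l) := by
    have k1 := y0 a1
    have k2 := y0 a2
    have k3 := y0 a3
    have k4 : yco P * yco Q * yco (P + Q) = -(n * (n ^ 2 - l ^ 2)) := by
      rw [h1, h2, neg_eq_iff_eq_neg.1 h3]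
      linear_combination -l ^ 3 * e3 - l ^ 2 * n * e2 - l * n ^ 2 * e1
    refine mul_left_cancel₀ (fun e : n = 0 => n0 (by rw [e, map_zero])) ?_
    rw [mul_left_comm, ← neg_eq_iff_eq_neg.2 k4, zc, zc, zc]
    field_simp
    rw [h1, h2, neg_eq_iff_eq_neg.1 h3]
    linear_combination 3 * l ^ 2 * e3 + 2 * l * n * e2 + n ^ 2 * e1
  have b5 := congrArg v.V b4
  rw [map_mul, b3, v.V.map_neg, map_mul, map_pow] at b5
  rw [map_pow, map_pow] at b2
  have b6 : v.V (zc (P + Q) - zc P - zc Q) * v.V n ≤ 1 := by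
    refine le_of_mul_le_mul_right ?_ (pos_iff_ne_zero.2 n0)
    rw [mul_assoc, ← sq, b5, one_mul]
    exact (mul_le_of_le_one_left' (by simpa using v.V_int_le 2)).trans
      (lt_of_pow_lt_pow_left₀ 2 zero_le b2).le
  have b7 : v.V (zc P) * v.V (zc Q) * v.V (zc (P + Q)) * v.V n = 1 := by
    refine (pow_eq_one_iff_left two_ne_zero).1 ?_
    rw [mul_pow, ← map_pow v.V n, b1]
    calc _ = v.V (zc P) ^ 2 * v.V (xco P) * (v.V (zc Q) ^ 2 * v.V (xco Q)) *
        (v.V (zc (P + Q)) ^ 2 * v.V (xco (P + Q))) := by ring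
      _ = 1 := by rw [V_zc a1, V_zc a2, V_zc a3, one_mul, one_mul]
  exact le_of_mul_le_mul_right (b6.trans_eq b7.symm) (pos_iff_ne_zero.2 n0)

theorem zc_add_le (hP : P ∈ Kr v) (hQ : Q ∈ Kr v) {m : ℝ≥0} (h1 : v.V (zc P) ≤ m)
    (h2 : v.V (zc Q) ≤ m) : v.V (zc (P + Q)) ≤ m := not_lt.1 fun k => by
  refine lt_irrefl (v.V (zc (P + Q))) ?_
  nth_rw 1 [show zc (P + Q) = zc (P + Q) - zc P - zc Q + zc P + zc Q by ring]
  exact v.V.map_add_lt (v.V.map_add_lt ((zc_add hP hQ).trans_lt (mul_lt_of_lt_one_left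
    (zero_le.trans_lt k) (mul_lt_one_of_lt_of_le (V_zc_lt hP) (V_zc_lt hQ).le)))
    (h1.trans_lt k)) (h2.trans_lt k)

theorem zc_smul (hP : P ∈ Kr v) (a : G) : v.V (zc (a • P)) ≤ v.V (zc P) ∧
    v.V (zc (a • P) - io a * zc P) ≤ v.V (zc P) ^ 3 := by
  let S : AddSubgroup G :=
    { carrier := {a | v.V (zc (a • P)) ≤ v.V (zc P) ∧
        v.V (zc (a • P) - io a * zc P) ≤ v.V (zc P) ^ 3}
      zero_mem' := by simp [zc_zero]
      neg_mem' := fun {a} h => by
        simpa only [Set.mem_ofPred_eq, neg_smul, zc_neg, map_neg, neg_mul, ← neg_sub', v.V.map_neg]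
          using h
      add_mem' := fun {a b} h k => by
        have h1 := zc_add_le ((Kr v).smul_mem a hP) ((Kr v).smul_mem b hP) h.1 k.1
        have h2 := (zc_add ((Kr v).smul_mem a hP) ((Kr v).smul_mem b hP)).trans
          (mul_le_mul' (mul_le_mul' h.1 k.1) h1)
        rw [← add_smul, ← sq, ← pow_succ] at h2
        refine ⟨by rwa [add_smul], ?_⟩
        convert v.V.map_add_le (v.V.map_add_le h2 h.2) k.2 using 2
        rw [map_add]
        ring }
  have h1 : (1 : G) ∈ S := by simp [S]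
  have h2 : ii ∈ S := ⟨by
    rw [zc_ii, map_mul]
    exact mul_le_of_le_one_left' (V_io_le v _), by simp [zc_ii]⟩
  have : a ∈ S := by
    rw [show a = a.re • (1 : G) + a.im • ii by ext <;> simp [ii]]
    exact add_mem (zsmul_mem h1 _) (zsmul_mem h2 _)
  exact this

theorem V_zc_smul (hP : P ∈ Kr v) (h : v.V (zc P) ^ 2 < v.V (io a)) :
    v.V (zc (a • P)) = v.V (io a) * v.V (zc P) := by
  by_cases z0 : zc P = 0
  · simp [zc_eq_zero hP z0, zc_zero]
  rw [← map_mul]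
  refine v.V.map_eq_of_sub_lt ((zc_smul hP a).2.trans_lt ?_)
  rw [map_mul, pow_succ]
  exact mul_lt_mul_of_pos_right h (pos_iff_ne_zero.2 (v.V.ne_zero_iff.2 z0))

theorem V_zc_smul_le (hP : P ∈ Kr v) (h : v.V (zc P) ^ 2 ≤ v.V (io a)) :
    v.V (zc (a • P)) ≤ v.V (io a) * v.V (zc P) := by
  rw [← sub_add_cancel (zc (a • P)) (io a * zc P)]
  exact v.V.map_add_le ((zc_smul hP a).2.trans (by rw [pow_succ]; exact mul_le_mul_left h _))
    (map_mul _ _ _).le

theorem slope_le (hP : P ∉ Kr v) (hR : R ∉ Kr v) (h : P + R ∉ Kr v) :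
    v.V (yco P - yco R) ≤ v.V (xco P - xco R) := by
  have n0 : ∀ {S : A}, S ∉ Kr v → S ≠ 0 := fun k e => k (e ▸ zero_mem _)
  obtain ⟨l, n, h1, h2, -, e1, -⟩ := line (n0 hP) (n0 hR) (n0 h)
  rw [show yco P - yco R = l * (xco P - xco R) by linear_combination h1 - h2, map_mul]
  refine mul_le_of_le_one_left' ((pow_le_one_iff_of_nonneg zero_le two_ne_zero).1 ?_)
  rw [← map_pow, ← e1]
  exact v.V.map_add_le (v.V.map_add_le (V_x hP) (V_x hR)) (V_x h)

/-- Separation of points with distinct reductions. -/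
theorem sep (hP : P ∉ Kr v) (hR : R ∉ Kr v) (h1 : P + R ∉ Kr v) (h2 : P - R ∉ Kr v) :
    v.V (2 * yco R) ≤ v.V (xco P - xco R) := by
  have k := slope_le hP (mt neg_mem_iff.1 hR) (sub_eq_add_neg P R ▸ h2)
  rw [xco_neg, co_neg] at k
  convert v.V.map_sub_le k (slope_le hP hR h1) using 2
  ring

theorem V_two (hv : v.p ≠ 2) : v.V 2 = 1 := by
  simpa using (v.V_int_eq_one (a := 2)).2 fun e => hv
    ((Nat.prime_dvd_prime_iff_eq v.prime Nat.prime_two).1 (Int.natCast_dvd_natCast.1 e))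

theorem V_x_one (hv : v.p ≠ 2) (h : w • R ∉ Kr v) : v.V (xco R) = 1 := by
  have h1 : R ∉ Kr v := fun e => h ((Kr v).smul_mem w e)
  refine (V_x h1).eq_of_not_lt fun k => h ?_
  have h2 : v.V (yco R) < 1 := (pow_lt_one_iff_of_nonneg zero_le two_ne_zero).1 (by
    rw [← map_pow, co_eq (P := R) fun e => h1 (e ▸ zero_mem _)]
    exact v.V.map_sub_lt (by rw [map_pow]; exact pow_lt_one' k three_ne_zero) k)
  have := (Kr v).smul_mem w (Kr_near (Q := T) hv h1 (by simp [mem_Kr, T1]) (by simpa [T1] using k)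
    (by simpa [T1] using h2))
  rwa [smul_sub, w_T, sub_zero] at this

theorem V_y_one (hv : v.p ≠ 2) (h : (2 : G) • R ∉ Kr v) : v.V (yco R) = 1 := by
  have h1 : R ∉ Kr v := fun e => h ((Kr v).smul_mem 2 e)
  refine (V_y h1).eq_of_not_lt fun k => h ?_
  rw [two_smul, ← sub_neg_eq_add]
  refine Kr_near hv h1 (mt neg_mem_iff.1 h1) (by simp [xco_neg]) ?_
  rw [co_neg, sub_neg_eq_add]
  exact v.V.map_add_lt k k

theorem Kr_cop (h : IsCoprime c n) (h1 : n • R = 0) (h2 : c • R ∈ Kr v) : R ∈ Kr v := by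
  obtain ⟨s, t, e⟩ := h
  have := (Kr v).smul_mem s h2
  rwa [smul_smul, eq_sub_of_add_eq e, sub_smul, one_smul, mul_smul, h1, smul_zero, sub_zero] at this

theorem V_fac (hP : P ∉ Kr v) (hR : R ∈ Kr v) (h0 : R ≠ 0) : v.V (1 - xco P / xco R - 1) < 1 := by
  have h1 := (mem_Kr.1 hR).resolve_left h0
  rw [sub_sub_cancel_left, v.V.map_neg, map_div₀, div_lt_one (zero_lt_one.trans h1)]
  exact (V_x hP).trans_lt h1

theorem V_one_of {x : Qb} (h : v.V (x - 1) < 1) : v.V x = 1 := by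
  simpa using v.V.map_eq_of_sub_lt (x := 1) (y := x) (by simpa using h)

theorem u0_unit (hv : v.p ≠ 2) (hb : red b = 1) (hP : P ∉ Kr v)
    (h : ∀ R, R ≠ 0 → b • R = 0 → P + R ∉ Kr v) : v.V (u0 b P) = 1 := by
  rw [u0, map_prod]
  refine prod_eq_one fun r hr => ?_
  obtain ⟨R, ⟨h0, h1⟩, rfl⟩ := (mem_Xb (ne_of_red hb)).1 hr
  by_cases k : R ∈ Kr v
  · exact V_one_of (V_fac hP k h0)
  have k1 := sep hP k (h R h0 h1) (sub_eq_add_neg P R ▸ h _ (neg_ne_zero.2 h0) (by simp [h1]))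
  rw [map_mul, V_two hv, V_y_one hv (mt (Kr_cop (cop_two hb) h1) k), one_mul] at k1
  rw [one_sub_div (Xb_ne hb hr), map_div₀, V_x_one hv (mt (Kr_cop (cop_w hb) h1) k), div_one,
    v.V.map_sub_swap]
  exact le_antisymm (v.V.map_sub_le (V_x hP) (V_x k)) k1

theorem not_Kr (hn : v.V (io n) = 1) (h1 : n • c • P = 0) (h2 : c • P ≠ 0) : P ∉ Kr v :=
  fun e => h2 (Kr_tors hn ((Kr v).smul_mem c e) h1)

theorem T2_not (hv : v.p ≠ 2) (hb : red b = 1) (h : b • R = 0) : T2 + R ∉ Kr v :=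
  not_Kr (n := 2) (c := b) (by rw [map_ofNat, V_two hv])
    (by rw [smul_add, h, add_zero, smul_comm, two_T2, smul_zero])
    (by rw [smul_add, h, add_zero]; exact n_T2 hb)

/-- Elliptic units are units at odd places. -/
theorem ub_unit (hv : v.p ≠ 2) (hb : red b = 1) (h : ∀ R, b • R = 0 → P + R ∉ Kr v) :
    v.V (ub b P) = 1 := by
  rw [ub, map_div₀, map_pow, u0_unit hv hb (add_zero P ▸ h 0 (smul_zero _)) fun R _ => h R,
    u0_unit hv hb (add_zero T2 ▸ T2_not hv hb (smul_zero _)) fun R _ => T2_not hv hb]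
  simp

theorem V_prod_one {ι : Type} (s : Finset ι) {f : ι → Qb} (h : ∀ i ∈ s, v.V (f i - 1) < 1) :
    v.V (∏ i ∈ s, f i - 1) < 1 := by
  simpa using V_prod_sub s (x := 1) (map_one v.V).le h

theorem V_prod_cong {ι : Type} (s : Finset ι) {f g : ι → Qb} (hf : ∀ i ∈ s, v.V (f i) ≤ 1)
    (hg : ∀ i ∈ s, v.V (g i) ≤ 1) (h : ∀ i ∈ s, v.V (f i - g i) < 1) :
    v.V (∏ i ∈ s, f i - ∏ i ∈ s, g i) < 1 := by
  induction s using Finset.induction_on with
  | empty => simp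
  | insert a s ha ih =>
    have m := mem_insert_self a s
    rw [prod_insert ha, prod_insert ha, show f a * ∏ i ∈ s, f i - g a * ∏ i ∈ s, g i =
      (f a - g a) * ∏ i ∈ s, f i + (∏ i ∈ s, f i - ∏ i ∈ s, g i) * g a by ring]
    refine v.V.map_add_lt ?_ ?_ <;> rw [map_mul]
    · exact mul_lt_one_of_lt_of_le (h a m) (by
        rw [map_prod]; exact prod_le_one' fun i hi => hf i (mem_insert_of_mem hi))
    · exact mul_lt_one_of_lt_of_le (ih (fun i hi => hf i (mem_insert_of_mem hi))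
        (fun i hi => hg i (mem_insert_of_mem hi)) fun i hi => h i (mem_insert_of_mem hi)) (hg a m)

theorem V_div_one {x y : Qb} (hx : v.V (x - 1) < 1) (hy : v.V (y - 1) < 1) :
    v.V (x / y - 1) < 1 := by
  have := V_one_of hy
  rw [div_sub_one (v.V.ne_zero_iff.1 (this ▸ one_ne_zero)), map_div₀, this, div_one,
    ← sub_sub_sub_cancel_right x y 1]
  exact v.V.map_sub_lt hx hy

/-- Elliptic units are one modulo the places above their index. -/
theorem ub_one (hp : Prime b) (hb : red b = 1) (hv : v.V (io b) < 1) (hP : P ∉ Kr v) :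
    v.V (ub b P - 1) < 1 := by
  have k : ∀ P : A, P ∉ Kr v → v.V (u0 b P - 1) < 1 := fun P hP => V_prod_one _ fun r hr => by
    obtain ⟨R, ⟨h0, h1⟩, rfl⟩ := (mem_Xb hp.ne_zero).1 hr
    exact V_fac hP (mem_Kr_of hp hb hv h1) h0
  have k2 := k T2 (by simp [mem_Kr, T2])
  exact V_div_one (k P hP) (by simpa using V_prod_one (range 2) fun _ _ => k2)

/-- Elliptic units are compatible with reduction. -/
theorem ub_cong (hv : v.p ≠ 2) (hb : red b = 1) (hP : P ∉ Kr v) (h : P - Q ∈ Kr v) :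
    v.V (ub b P - ub b Q) < 1 := by
  have hQ : Q ∉ Kr v := fun e => hP (by simpa using add_mem h e)
  have h1 := (near_of_Kr hP h).1
  have h2 : ∀ r ∈ Xb b, 1 ≤ v.V r := fun r hr => by
    obtain ⟨R, ⟨h0, h1⟩, rfl⟩ := (mem_Xb (ne_of_red hb)).1 hr
    by_cases k : R ∈ Kr v
    · exact ((mem_Kr.1 k).resolve_left h0).le
    · exact (V_x_one hv (mt (Kr_cop (cop_w hb) h1) k)).ge
  have h3 : ∀ S : A, S ∉ Kr v → ∀ r ∈ Xb b, v.V (1 - xco S / r) ≤ 1 := fun S hS r hr =>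
    v.V.map_sub_le (map_one v.V).le (by
      rw [map_div₀]; exact div_le_one_of_le₀ ((V_x hS).trans (h2 r hr)) zero_le)
  rw [ub, ub, ← sub_div, map_div₀, map_pow,
    u0_unit hv hb (add_zero T2 ▸ T2_not hv hb (smul_zero _)) fun R _ => T2_not hv hb, one_pow,
    div_one, u0, u0]
  refine V_prod_cong _ (h3 P hP) (h3 Q hQ) fun r hr => ?_
  rw [sub_sub_sub_cancel_left, ← sub_div, map_div₀, v.V.map_sub_swap]
  exact (div_le_self zero_le (h2 r hr)).trans_lt h1

theorem ine_II (hv : v.p ≠ 2) {g : GQ} (hg : g ∈ Ine v) : g II = II := by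
  refine (ell_root2 (u := g II) (by rw [← map_mul, II_mul, map_neg, map_one])).resolve_right
    fun e => (hg.2 II (V_II v).le).ne ?_
  rw [e, show -II - II = -(2 * II) by ring, v.V.map_neg, map_mul, V_two hv, V_II, mul_one]

theorem Kr_vm {g : GQ} (hg : g ∈ Dec v) {u : Qb} (hu : u ^ 4 = 1) :
    vm (g : Qb →+* Qb) u P ∈ Kr v ↔ P ∈ Kr v := by
  rw [mem_Kr, mem_Kr, map_eq_zero_iff _ (vm_inj hu), (xco_vm _ hu P).1, map_mul, map_pow,
    v.V_root_of_unity four_ne_zero hu, one_pow, one_mul]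
  exact or_congr_right (by rw [← B2.mem_Dec.1 hg (xco P)]; rfl)

theorem ine_Kr (hv : v.p ≠ 2) {g : GQ} (hg : g ∈ Ine v) (P : A) :
    vm (g : Qb →+* Qb) 1 P - P ∈ Kr v := by
  by_cases h : P ∈ Kr v
  · exact sub_mem ((Kr_vm hg.1 (one_pow 4)).2 h) h
  · refine Kr_near hv (mt (Kr_vm hg.1 (one_pow 4)).1 h) h ?_ ?_
    · simpa [(xco_vm _ (one_pow 4) P).1] using hg.2 _ (V_x h)
    · simpa [(xco_vm _ (one_pow 4) P).2] using hg.2 _ (V_y h)

/-- Inertia groups at odd places fix the torsion of order prime to the place. -/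
theorem ine_fix (hv : v.p ≠ 2) {g : GQ} (hg : g ∈ Ine v) (hn : v.V (io n) = 1) (hP : n • P = 0) :
    vm (g : Qb →+* Qb) 1 P = P :=
  sub_eq_zero.1 (Kr_tors hn (ine_Kr hv hg P) (by
    rw [smul_sub, ← vm_smul (ine_II hv hg), hP, map_zero, sub_zero]))

end Pool.Agent.Lib.MP_696deb_nt.EA
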