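import Pool.Agent.Lib.MP_696deb_nt.EA.L2
import Pool.Agent.Lib.MP_696deb_nt.B2.CH2
import Pool.Agent.Lib.MP_696deb_nt.B2.B4c

/-! The Galois action on division points and the Hecke character. -/

set_option autoImplicit false

open scoped Classical
open Finset WeierstrassCurve.Affine

namespace Pool.Agent.Lib.MP_696deb_nt.EA

open Q4 Sm
open QF (G Prim Per Gch Qc)
open B2 (GK)

theorem mem_GK1 {g : GQ} : g ∈ GK 1 ↔ g II = II := B2.B4c_mem.trans B2.chi_eq_one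

/-- The discrete logarithm of a division point. -/
noncomputable def dlg (m : G) (P : A) : G := if h : ∃ a : G, P = a • tq 1 m then h.choose else 0

/-- The scalar by which `g` acts on the points killed by `m`. -/
noncomputable def cm (m : G) (g : GQ) : G := dlg m (vm (g : Qb →+* Qb) 1 (tq 1 m))

variable {m n a π : G} {g h : GQ} {P : A} {v : Plc}

theorem dlg_spec (hm : m ≠ 0) (hP : m • P = 0) : dlg m P • tq 1 m = P := by
  rw [dlg, dif_pos (exists_eq_tq hm hP)]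
  exact (exists_eq_tq hm hP).choose_spec.symm

theorem m_tq (hm : m ≠ 0) : m • tq 1 m = 0 := (smul_tq_one hm).2 dvd_rfl

theorem cm_spec (hm : m ≠ 0) (hg : g II = II) (hP : m • P = 0) :
    vm (g : Qb →+* Qb) 1 P = cm m g • P := by
  obtain ⟨a, rfl⟩ := exists_eq_tq hm hP
  rw [vm_smul hg, smul_comm, cm, dlg_spec hm (by rw [← vm_smul hg, m_tq hm, map_zero])]

theorem smul_tq_eq (hm : m ≠ 0) {a b : G} : a • tq 1 m = b • tq 1 m ↔ m ∣ a - b := by
  rw [← smul_tq_one hm, sub_smul, sub_eq_zero]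

theorem cm_uniq (hm : m ≠ 0) (hg : g II = II) (h : vm (g : Qb →+* Qb) 1 (tq 1 m) = a • tq 1 m) :
    m ∣ cm m g - a := (smul_tq_eq hm).1 ((cm_spec hm hg (m_tq hm)).symm.trans h)

theorem vm_mul (g h : GQ) (P : A) : vm ((g * h : GQ) : Qb →+* Qb) 1 P =
    vm (g : Qb →+* Qb) 1 (vm (h : Qb →+* Qb) 1 P) := by
  rw [vm_comp (one_pow 4) (one_pow 4), map_one, mul_one]
  rfl

theorem cm_one (hm : m ≠ 0) : m ∣ cm m 1 - 1 := cm_uniq hm rfl ((vm_one _).trans (one_smul _ _).symm)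

theorem cm_mul (hm : m ≠ 0) (hg : g II = II) (hh : h II = II) :
    m ∣ cm m (g * h) - cm m g * cm m h :=
  cm_uniq hm (by rw [AlgEquiv.mul_apply, hh, hg]) (by
    rw [vm_mul, cm_spec hm hh (m_tq hm), vm_smul hg, cm_spec hm hg (m_tq hm), smul_smul, mul_comm])

theorem cm_dvd (hm : m ≠ 0) (hn : n ∣ m) (hg : g II = II) : n ∣ cm n g - cm m g := by
  have n0 := ne_zero_of_dvd_ne_zero hm hn
  exact cm_uniq n0 hg (cm_spec hm hg ((smul_tq_one n0).2 hn))

theorem cm_cop (hm : m ≠ 0) (hg : g II = II) : IsCoprime (cm m g) m := by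
  have h1 := mem_GK1.1 (inv_mem (mem_GK1.2 hg))
  obtain ⟨c, e⟩ := (cm_one hm).sub (mul_inv_cancel g ▸ cm_mul hm hg h1)
  exact ⟨cm m g⁻¹, -c, by linear_combination e⟩

theorem cm_prim (hm : m ≠ 0) (h3 : w ^ 3 ∣ m) (hg : g II = II) : w ^ 3 ∣ cm m g - 1 := by
  have f3 : vm (g : Qb →+* Qb) 1 T3 = T3 := by
    obtain ⟨h1, e1⟩ := vm_some (f := (g : Qb →+* Qb)) (one_pow 4)
      (ns_iff.2 (by linear_combination (1 - II) * II_mul) : NS II (1 - II))
    exact e1.trans (pt_ext (by simp [hg]) (by simp [hg]))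
  have w3 : w ^ 3 ≠ 0 := by decide
  obtain ⟨c, rfl⟩ := h3
  obtain ⟨a, e⟩ := exists_eq_tq w3 w_T3.1
  have k := cm_spec hm hg (P := T3) (by rw [mul_comm, mul_smul, w_T3.1, smul_zero])
  rw [f3, e, smul_smul, eq_comm, smul_tq_eq w3, ← sub_one_mul] at k
  refine IsCoprime.dvd_of_dvd_mul_right (cop_w ((F2_cases _).resolve_left fun k => ?_)).pow_left k
  obtain ⟨b, rfl⟩ := w_dvd k
  exact w_T3.2 (by rw [e, smul_smul, smul_tq_one w3, ← mul_assoc]; exact dvd_mul_right _ _)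

theorem prim_iff : Prim n ↔ w ^ 3 ∣ n - 1 := by
  refine ⟨fun h => (prim_eq h).imp fun c e => by rw [e, add_sub_cancel_left], fun ⟨c, e⟩ => ?_⟩
  rw [eq_add_of_sub_eq e, show w ^ 3 = ⟨-2, 2⟩ by decide, Prim]
  simp only [Zsqrtd.re_add, Zsqrtd.im_add, Zsqrtd.re_mul, Zsqrtd.im_mul, Zsqrtd.re_one,
    Zsqrtd.im_one]
  omega

theorem sm_vm (H : Subgroup GQ) (P : A) : B2.Sm H fun g => vm (g : Qb →+* Qb) 1 P := by
  rcases P with _ | ⟨x, y, h⟩
  · exact (B2.Sm.const 0).congr fun g _ => (map_zero _).symm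
  · refine ((B2.sm_apply x).comp₂ (B2.sm_apply y) fun a b =>
      if k : NS a b then (.some a b k : A) else 0).congr fun g _ => ?_
    obtain ⟨h1, e1⟩ := vm_some (f := (g : Qb →+* Qb)) (one_pow 4) h
    rw [e1, dif_pos (by simpa using h1)]
    exact pt_ext (by simp) (by simp)

theorem sm_cm (H : Subgroup GQ) (m : G) : B2.Sm H (cm m) := (sm_vm H _).comp (dlg m)

theorem cm_frob {z : G} (hp : Prime z) (h : Prim z) (hv : v.V (io z) < 1)
    (hg : IsFrob v z.norm.natAbs g) (hm : v.V (io m) = 1) : m ∣ cm m g - z := by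
  have m0 : m ≠ 0 := fun e => by simp [e] at hm
  exact cm_uniq m0 (frob_II (prim_norm h) (V_two_of (prim_red h) hv) hg)
    (frob hp h hv hg hm (m_tq m0))

theorem cm_ine (hv : v.p ≠ 2) (hg : g ∈ Ine v) (hm : v.V (io m) = 1) : m ∣ cm m g - 1 := by
  have m0 : m ≠ 0 := fun e => by simp [e] at hm
  exact cm_uniq m0 (ine_II hv hg) ((ine_fix hv hg hm (m_tq m0)).trans (one_smul _ _).symm)

theorem io_fix (hg : g II = II) (a : G) : g (io a) = io a := by simp [io_apply, hg]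

theorem prim_T2 (h : Prim n) : n • T2 = T2 := by
  obtain ⟨c, hc⟩ := prim_eq h
  rw [hc, add_smul, one_smul, mul_comm, pow_succ, sq, mul_smul, mul_smul, mul_smul, w_T2, w_T,
    smul_zero, smul_zero, add_zero]

/-- The square root of a primary prime lies in the field of its division points. -/
theorem cm_sq (hp : Prime π) (h : Prim π) (hg : g II = II) :
    chB (io π) g = 0 ↔ ∃ s : G, π ∣ cm π g - s ^ 2 := by
  have p0 := hp.ne_zero
  have : (Ideal.span {π}).IsMaximal :=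
    PrincipalIdealRing.isMaximal_of_irreducible hp.irreducible
  let _ := Ideal.Quotient.field (Ideal.span {π})
  have c1 : Nat.card (G ⧸ Ideal.span {π}) = π.norm.natAbs := by
    rw [← card_quot, Int.natAbs_natCast]
  have c2 := prim_norm h
  have : Finite (G ⧸ Ideal.span {π}) := Nat.finite_of_card_ne_zero (by omega)
  obtain ⟨γ, hγ⟩ := IsCyclic.exists_ofOrder_eq_natCard (α := (G ⧸ Ideal.span {π})ˣ)
  obtain ⟨n, hn⟩ : ∃ n, π.norm.natAbs = 4 * n + 1 := ⟨π.norm.natAbs / 4, by omega⟩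
  rw [Nat.card_units, c1, hn, Nat.add_sub_cancel] at hγ
  have n0 : 0 < n := by
    have := orderOf_pos γ
    omega
  obtain ⟨c, hc⟩ := Ideal.Quotient.mk_surjective (γ : G ⧸ Ideal.span {π})
  have q : ∀ {a b : G}, π ∣ a - b ↔ Ideal.Quotient.mk (Ideal.span {π}) a = Ideal.Quotient.mk _ b :=
    (Ideal.Quotient.eq.trans Ideal.mem_span_singleton).symm
  have m : ∀ j : ℕ, c ^ j • tq 1 π ∈ (En π).erase 0 := fun j => (mem_En0 p0).2
    ⟨fun e => (γ ^ j).ne_zero (by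
      rw [Units.val_pow_eq_pow_val, ← hc, ← map_pow, Ideal.Quotient.eq_zero_iff_mem,
        Ideal.mem_span_singleton]
      exact (smul_tq_one p0).1 e), by rw [smul_comm, m_tq p0, smul_zero]⟩
  have inj : Set.InjOn (fun j : ℕ => c ^ j • tq 1 π) (range (4 * n)) := fun i hi j hj e => by
    rw [smul_tq_eq p0, q, map_pow, map_pow, hc] at e
    exact pow_injOn_Iio_orderOf (by simpa [hγ] using hi) (by simpa [hγ] using hj)
      (Units.ext e)
  have sur := surjOn_of_injOn_of_card_le _ (fun j _ => m j) inj (by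
    have := card_En p0
    rw [← card_erase_add_one (zero_mem_En p0)] at this
    rw [card_range]
    omega)
  have e1 : c ^ n • tq 1 π = ii • tq 1 π ∨ c ^ n • tq 1 π = -ii • tq 1 π := by
    rw [smul_tq_eq p0, smul_tq_eq p0, q, q, map_neg, ← mul_self_eq_mul_self_iff, ← map_mul _ ii,
      show ii * ii = -1 by decide, map_neg, map_one, map_pow, hc, ← pow_add]
    refine (mul_self_eq_one_iff.1 ?_).resolve_left fun e => pow_ne_one_of_lt_orderOf (x := γ)
      (n := n + n) (by omega) (by omega) (Units.ext e)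
    rw [← pow_add, ← Units.val_pow_eq_pow_val, show n + n + (n + n) = orderOf γ by omega,
      pow_orderOf_eq_one, Units.val_one]
  obtain ⟨S, hS⟩ : ∃ S : ℕ → Qb, ∀ k, S k = ∏ j ∈ range n, xco (c ^ (k + j) • tq 1 π) :=
    ⟨_, fun _ => rfl⟩
  have x0 : ∀ j : ℕ, xco (c ^ j • tq 1 π) ≠ 0 := fun j =>
    Xb_ne (prim_red h) (mem_image_of_mem _ (m j))
  have e2 : ∀ k, S k = (-1) ^ k * S 0 := fun k => by
    induction k with
    | zero => simp
    | succ k ih =>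
      have k1 := (prod_range_succ (fun j => xco (c ^ (k + j) • tq 1 π)) n).symm.trans
        (prod_range_succ' _ n)
      have k2 : xco (c ^ (k + n) • tq 1 π) = -xco (c ^ k • tq 1 π) := by
        rw [pow_add, mul_smul]
        rcases e1 with e | e <;> rw [e, smul_comm]
        · exact x_ii _
        · rw [neg_smul, xco_neg, x_ii]
      simp only [← add_assoc, add_right_comm k _ 1, ← hS, k2, add_zero] at k1
      rw [pow_succ, mul_right_comm, ← ih]
      exact mul_right_cancel₀ (x0 k) (by linear_combination -k1)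
  have e3 := x_prod (prim_T2 h)
  rw [← prod_nbij _ (fun j _ => m j) inj sur (f := fun j => xco (c ^ j • tq 1 π)) fun _ _ => rfl,
    show 4 * n = n + n + n + n by ring, prod_range_add, prod_range_add, prod_range_add,
    ← hS, ← hS, ← hS, show ∏ j ∈ range n, xco (c ^ j • tq 1 π) = S 0 by simp [hS], e2 n,
    e2 (n + n), e2 (n + n + n)] at e3
  have e4 : io π * S 0 ^ 2 = 1 ∨ io π * S 0 ^ 2 = -1 := mul_self_eq_one_iff.1 (by
    have : ((-1 : Qb) ^ n) ^ 2 = 1 := by rw [← pow_mul, mul_comm, pow_mul, neg_one_sq, one_pow]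
    simp only [pow_add] at e3
    linear_combination e3 - io π ^ 2 * S 0 ^ 4 * (((-1) ^ n) ^ 4 + ((-1) ^ n) ^ 2 + 1) * this)
  have s0 : S 0 ≠ 0 := fun e => by simp [e] at e4
  have lg : ∀ a : G, ¬ π ∣ a → ∃ k < 4 * n, π ∣ a - c ^ k := fun a ha => by
    obtain ⟨k, hk, e⟩ := sur (mem_coe.2 ((mem_En0 p0).2 ⟨mt (smul_tq_one p0).1 ha, by
      rw [smul_comm, m_tq p0, smul_zero]⟩))
    exact ⟨k, by simpa using hk, (smul_tq_eq p0).1 e.symm⟩
  have a0 : ¬ π ∣ cm π g := hp.irreducible.coprime_iff_not_dvd.1 (cm_cop p0 hg).symm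
  obtain ⟨k, -, hk⟩ := lg _ a0
  have e5 : g (S 0) = (-1) ^ k * S 0 := by
    rw [← e2, hS, hS, map_prod]
    refine prod_congr rfl fun j _ => ?_
    have := (xco_vm (g : Qb →+* Qb) (one_pow 4) (c ^ (0 + j) • tq 1 π)).1
    rw [vm_smul hg, cm_spec p0 hg (m_tq p0), (smul_tq_eq p0).2 hk, smul_smul, one_pow, one_mul,
      ← pow_add, zero_add, add_comm] at this
    rw [this, zero_add]
    rfl
  have e6 : (sn (chB (io π) g) : Qb) = ((-1) ^ k)⁻¹ := by
    rcases e4 with e | e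
    · refine mul_right_cancel₀ (inv_ne_zero s0) ?_
      rw [← chB_spec (by field_simp; linear_combination -e) (io_fix hg π), map_inv₀, e5, mul_inv]
    · refine mul_right_cancel₀ (mul_ne_zero (fun e => by simpa [e] using II_mul) (inv_ne_zero s0) :
        II * (S 0)⁻¹ ≠ 0) ?_
      rw [← chB_spec (by field_simp; linear_combination II_mul - e) (io_fix hg π), map_mul, hg,
        map_inv₀, e5, mul_inv, mul_left_comm]
  have e7 : chB (io π) g = 0 ↔ Even k := by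
    rcases F2_cases (chB (io π) g) with e | e <;> rcases Nat.even_or_odd k with k1 | k1 <;>
      rw [e, k1.neg_one_pow] at e6
    · simp [e, k1]
    · norm_num [sn_zero] at e6
    · norm_num [sn_one] at e6
    · simp [e, k1]
  rw [e7]
  refine ⟨fun ⟨l, e⟩ => ⟨c ^ l, by rwa [← pow_mul, mul_two, ← e]⟩, fun ⟨s, e⟩ => ?_⟩
  obtain ⟨l, -, hl⟩ := lg s fun k => a0 (by simpa using e.add (k.pow two_ne_zero))
  rw [q] at hk hl e
  rw [hk, map_pow, map_pow, hl, map_pow, hc, ← pow_mul] at e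
  have := (pow_eq_pow_iff_modEq.1 (Units.ext e : γ ^ k = γ ^ (l * 2))).of_dvd
    (show 2 ∣ orderOf γ by omega)
  rw [Nat.even_iff]
  unfold Nat.ModEq at this
  omega

/-- Two characters of two-power order that agree on Frobenius elements are equal. -/
theorem cheb_eq {Γ : Type} [Monoid Γ] {ε ε' : GQ → Γ} (s1 : B2.Sm (GK 1) ε) (s2 : B2.Sm (GK 1) ε')
    (m1 : ∀ g ∈ GK 1, ∀ h ∈ GK 1, ε (g * h) = ε g * ε h)
    (m2 : ∀ g ∈ GK 1, ∀ h ∈ GK 1, ε' (g * h) = ε' g * ε' h)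
    (t1 : ∀ g ∈ GK 1, ∃ k, ε g ^ 2 ^ k = 1) (t2 : ∀ g ∈ GK 1, ∃ k, ε' g ^ 2 ^ k = 1)
    (B : Finset ℕ) (hF : ∀ (v : Plc) (φ : GQ), v.p ∉ B → IsFrob v v.p φ → φ ∈ GK 1 → ε φ = ε' φ)
    (hg : g ∈ GK 1) : ε g = ε' g := by
  obtain ⟨U1, a1, a2, a3⟩ := s1
  obtain ⟨U2, b1, b2, b3⟩ := s2
  have := B2.normal_GK 1
  have o : B2.Op (U1 ⊓ U2 ⊓ GK 1) := (a1.inter b1).inter (B2.op_GK 1)
  have := Subgroup.quotient_finite_of_isOpen _ o
  obtain ⟨k, n, n1, e⟩ := Nat.exists_eq_two_pow_mul_odd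
    (orderOf_pos (g : GQ ⧸ (U1 ⊓ U2 ⊓ GK 1))).ne'
  obtain ⟨v, φ, a, h1, h2, h3, h4⟩ := B2.cheb _ (g ^ n) k B o inferInstance (by
    rw [← pow_mul, mul_comm, ← e, ← QuotientGroup.eq_one_iff, QuotientGroup.mk_pow,
      pow_orderOf_eq_one])
  rw [← pow_mul] at h4
  have h5 := pow_mem hg (n * a)
  have h6 : φ ∈ GK 1 := by simpa using mul_mem h5 (inv_mem h4.2)
  have h7 := hF v φ h1 h2 h6
  rw [a3 _ h6 _ h5 h4.1.1, b3 _ h6 _ h5 h4.1.2] at h7
  have pw : ∀ {ε : GQ → Γ}, (∀ g ∈ GK 1, ∀ h ∈ GK 1, ε (g * h) = ε g * ε h) →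
      ∀ n, ε (g ^ (n + 1)) = ε g ^ (n + 1) := fun m n => by
    induction n with
    | zero => simp
    | succ n ih => rw [pow_succ, m _ (pow_mem hg _) _ hg, ih, ← pow_succ]
  obtain ⟨N, hN⟩ := n1.mul h3
  rw [hN, pw m1, pw m2] at h7
  obtain ⟨i, hi⟩ := t1 g hg
  obtain ⟨j, hj⟩ := t2 g hg
  have k1 := Nat.ModEq.pow_totient (Nat.Coprime.pow_right (i + j)
    (Nat.coprime_two_right.2 (odd_two_mul_add_one N)))
  obtain ⟨t, ht⟩ := Nat.exists_eq_succ_of_ne_zero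
    (Nat.totient_pos.2 (pow_pos two_pos (i + j))).ne'
  rw [ht, pow_succ'] at k1
  rw [← pow_one (ε g), ← pow_one (ε' g),
    ← pow_eq_pow_of_modEq k1 (by rw [pow_add, pow_mul, hi, one_pow]),
    ← pow_eq_pow_of_modEq k1 (by rw [add_comm, pow_add, pow_mul, hj, one_pow]), pow_mul, pow_mul, h7]

theorem frob_mod (hv : v.p ≠ 2) (h : IsFrob v v.p g) (hg : g II = II) : v.p % 4 = 1 := by
  have h1 := v.prime.eq_two_or_odd.resolve_left hv
  by_contra e
  have k := h.2 II (V_II v).le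
  rw [← Nat.div_add_mod v.p 4, pow_add, pow_mul, II_four, one_pow, one_mul, hg,
    show v.p % 4 = 3 by omega, show II - II ^ 3 = 2 * II by linear_combination -II * II_mul,
    map_mul, V_two hv, V_II, mul_one] at k
  exact k.false

theorem exists_split (hv : v.p % 4 = 1) : ∃ (_ : Fact v.p.Prime) (z : G) (ρ : G →+* ZMod v.p)
    (χ : MulChar (ZMod v.p) G), Qc v.p z ρ χ ∧ (v.V (io z) < 1 ∨ v.V (io (star z)) < 1) := by
  have : Fact v.p.Prime := ⟨v.prime⟩
  obtain ⟨z, ρ, χ, h⟩ := QF.exists_qc hv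
  refine ⟨this, z, ρ, χ, h, by_contra fun k => ?_⟩
  rw [not_or, not_lt, not_lt] at k
  have := one_le_mul k.1 k.2
  rw [← map_mul, ← map_mul, QF.f3_mul h.norm, map_natCast, v.hV,
    one_le_inv₀ (by exact_mod_cast v.prime.pos)] at this
  exact this.not_gt (by exact_mod_cast v.prime.one_lt)

theorem prim_star (h : Prim n) : Prim (star n) := by
  simp only [Prim, Zsqrtd.re_star, Zsqrtd.im_star] at h ⊢
  omega

theorem un_io (h : a ^ 4 = 1) : Q4.un (io a) = star a := by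
  have e : io ii = -II := by simp [io_apply, ii]
  rcases QF.f1_roots (show ii * ii = -1 by decide) h with rfl | rfl | rfl | rfl
  · rw [map_one, un_one, star_one]
  · rw [map_neg, map_one, ell_un.1, star_neg, star_one]
  · rw [e, ell_un.2.2]
    decide
  · rw [map_neg, e, neg_neg, ell_un.2.1]
    decide

theorem un_four (u : Qb) : Q4.un u ^ 4 = 1 := by
  unfold Q4.un
  split_ifs <;> decide

theorem zq_mul_g {ρ : Qb} {D : ℤ} (hD : D ≠ 0) (hρ : ρ ^ 4 = D) (hg : g II = II) (h : GQ) :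
    zq ρ (g * h) = zq ρ g * zq ρ h := by
  have r0 : ρ ≠ 0 := fun e => hD (by simpa [e] using hρ.symm)
  have e : g (zq ρ h) = zq ρ h := by
    rcases ell_root (zq_four hD hρ h) with e | e | e | e <;> simp [e, hg]
  rw [← e, zq, zq, zq, map_div₀, AlgEquiv.mul_apply, mul_comm,
    div_mul_div_cancel₀ ((map_ne_zero g).2 r0)]

theorem V_io_one (h : ¬ (v.p : ℤ) ∣ m.norm) : v.V (io m) = 1 := by
  have := v.V_int_eq_one.2 h
  rw [← map_intCast io, Zsqrtd.norm_eq_mul_conj, map_mul, map_mul] at this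
  exact le_antisymm (V_io_le v m) (this.ge.trans (mul_le_of_le_one_right' (V_io_le v _)))

theorem per_dvd {β : Type} {M : ℕ} {φ : G → β} (per : Per M φ) {b : G} (h : (M : G) ∣ a - b) :
    φ a = φ b := by
  obtain ⟨c, e⟩ := h
  rw [eq_add_of_sub_eq' e, per]

/-- The Hecke character and the twisting character. -/
theorem link_phi {D : ℤ} (hD : D ≠ 0) {φ : G → G} (h1 : Gch (2 * D) φ) {M : ℕ} (hM : 0 < M)
    (per : Per M φ)
    (h8 : ∀ (p : ℕ) [Fact p.Prime] (z : G) (ρ : G →+* ZMod p) (χ : MulChar (ZMod p) G),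
      Qc p z ρ χ → ¬ (p : ℤ) ∣ D → φ z = star (χ D))
    {ρ : Qb} (hρ : ρ ^ 4 = D) (hg : g II = II) : φ (cm M g) = Q4.un (zq ρ g) := by
  have M0 : (M : G) ≠ 0 := Nat.cast_ne_zero.2 hM.ne'
  refine cheb_eq (ε := fun g => φ (cm M g)) (ε' := fun g => Q4.un (zq ρ g)) ((sm_cm _ _).comp φ)
    ((B2.sm_apply ρ).comp fun x => Q4.un (x / ρ)) (fun g hg h hh => ?_) (fun g hg h _ => ?_)
    (fun g hg => ⟨2, ?_⟩) (fun g _ => ⟨2, un_four _⟩) (2 * D.natAbs * M).primeFactors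
    (fun v g hv hf hg => ?_) (mem_GK1.2 hg)
  · rw [per_dvd per (cm_mul M0 (mem_GK1.1 hg) (mem_GK1.1 hh)), h1.mul]
  · rw [zq_mul_g hD hρ (mem_GK1.1 hg), un_mul (zq_four hD hρ _) (zq_four hD hρ _)]
  · have k1 := h1.bd (cm M g)
    have k2 := GaussianInt.norm_pos.2 (phi_ne h1 per (cm_cop M0 (mem_GK1.1 hg)))
    generalize φ (cm M g) = u at k1 k2
    obtain ⟨x, y⟩ := u
    simp only [Zsqrtd.norm_def] at k1 k2
    have : -1 ≤ x ∧ x ≤ 1 ∧ -1 ≤ y ∧ y ≤ 1 := by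
      refine ⟨?_, ?_, ?_, ?_⟩ <;> nlinarith [mul_self_nonneg x, mul_self_nonneg y]
    obtain ⟨_, _, _, _⟩ := this
    interval_cases x <;> interval_cases y <;> first | decide | simp at k1 k2
  have b0 : ¬ v.p ∣ 2 * D.natAbs * M := fun e => hv (Nat.mem_primeFactors.2
    ⟨v.prime, e, by positivity⟩)
  have b1 : v.p ≠ 2 := fun e => b0 (by rw [e]; exact (dvd_mul_right 2 _).mul_right _)
  have b2 : ¬ (v.p : ℤ) ∣ D := fun e => b0 (((Int.natCast_dvd.1 e).mul_left 2).mul_right _)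
  have b3 : v.V (io M) = 1 := by
    rw [map_natCast, ← Int.cast_natCast]
    exact v.V_int_eq_one.2 fun e => b0 ((Int.natCast_dvd_natCast.1 e).mul_left _)
  have b4 := frob_mod b1 hf (mem_GK1.1 hg)
  obtain ⟨_, z, σ, χ, hq, hz⟩ := exists_split b4
  have c1 := hq.four D (mt (ZMod.intCast_zmod_eq_zero_iff_dvd _ _).1 b2)
  have c2 : z ∣ χ D - D ^ (v.p / 4) := (hq.ker _).1 (by
    rw [map_sub, hq.spec, map_pow, map_intCast, sub_self])
  obtain ⟨z, u, z1, z2, z3, u1, u2, u3⟩ : ∃ z u : G, Prim z ∧ z.norm = v.p ∧ v.V (io z) < 1 ∧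
      u ^ 4 = 1 ∧ z ∣ u - D ^ (v.p / 4) ∧ φ z = star u := by
    rcases hz with k | k
    · exact ⟨z, _, hq.prim, hq.norm, k, c1, c2, h8 _ z σ χ hq b2⟩
    · exact ⟨_, star (χ D), prim_star hq.prim, (Zsqrtd.norm_conj z).trans hq.norm, k,
        by rw [← star_pow, c1, star_one], QF.f3_star (by simpa using c2),
        by rw [h1.conj, h8 _ z σ χ hq b2]⟩
  rw [per_dvd per (cm_frob (QF.f3_prime v.prime z2) z1 z3 (by rwa [z2]) b3), u3, ← un_io u1]
  have r1 : v.V ρ = 1 := (pow_eq_one_iff_left four_ne_zero).1 (by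
    rw [← map_pow, hρ, v.V_int_eq_one.2 b2])
  have r0 : ρ ≠ 0 := v.V.ne_zero_iff.1 (r1 ▸ one_ne_zero)
  have u4 : io u ^ 4 = 1 := by rw [← map_pow, u1, map_one]
  have u5 := v.V_root_of_unity four_ne_zero u4
  have u0 : io u ≠ 0 := v.V.ne_zero_iff.1 (u5 ▸ one_ne_zero)
  congr 1
  rw [eq_comm, ← div_eq_one_iff_eq u0]
  refine v.eq_one_of_root (n := 4) (fun e => b0 ?_) (by
    rw [div_pow, zq_four hD hρ, u4, div_one]) ?_
  · exact ((v.prime.dvd_of_dvd_pow (n := 2) e).mul_right _).mul_right _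
  obtain ⟨c, e⟩ := u2
  have e2 := congrArg io e
  rw [map_sub, map_pow, map_intCast, ← hρ, ← pow_mul, map_mul] at e2
  rw [div_sub_one u0, map_div₀, u5, div_one, zq, show g ρ / ρ - io u =
    (g ρ - ρ ^ v.p) / ρ - io z * io c by
      rw [← e2, show ρ ^ v.p = ρ ^ (4 * (v.p / 4) + 1) from congrArg _ (by omega), pow_succ]
      field_simp
      ring]
  refine v.V.map_sub_lt ?_ ?_
  · rw [map_div₀, r1, div_one]
    exact hf.2 ρ r1.le
  · rw [map_mul]
    exact mul_lt_one_of_lt_of_le z3 (V_io_le v c)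

theorem norm_cong {e : ℕ} {b : G} (h : (2 : G) ^ e ∣ a - b) :
    (a.norm : ZMod (2 ^ e)) = (b.norm : ZMod (2 ^ e)) := by
  rw [show (2 : G) ^ e = ((2 ^ e : ℕ) : G) by simp, QF.f4_dvd] at h
  simp only [Zsqrtd.norm_def, Int.cast_sub, Int.cast_mul]
  rw [(ZMod.intCast_eq_intCast_iff_dvd_sub _ _ _).2 h.1,
    (ZMod.intCast_eq_intCast_iff_dvd_sub _ _ _).2 h.2]

/-- The norm of the scalar is the cyclotomic character. -/
theorem link_cy (e : ℕ) (hg : g II = II) : ((cm (2 ^ e) g).norm : ZMod (2 ^ e)) = B2.cy e g := by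
  have M0 : (2 : G) ^ e ≠ 0 := pow_ne_zero _ two_ne_zero
  have two : ∀ x : ZMod (2 ^ e), IsUnit x → ∃ k, x ^ 2 ^ k = 1 := by
    rintro _ ⟨u, rfl⟩
    cases e with
    | zero => exact ⟨0, Subsingleton.elim (α := ZMod 1) _ _⟩
    | succ e =>
      have := ZMod.pow_totient u
      rw [Nat.totient_prime_pow_succ Nat.prime_two, show 2 - 1 = 1 from rfl, mul_one] at this
      exact ⟨e, by rw [← Units.val_pow_eq_pow_val, this, Units.val_one]⟩
  refine cheb_eq (ε := fun g => ((cm (2 ^ e) g).norm : ZMod (2 ^ e)))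
    ((sm_cm _ _).comp fun a : G => (a.norm : ZMod (2 ^ e))) (B2.sm_cy _) (fun g hg h hh => ?_)
    (fun g _ h _ => by rw [B2.cy, B2.cyc_mul, map_mul]; rfl) (fun g hg => two _ ?_)
    (fun g _ => two _ ((B2.cyc_unit g).map _)) {2} (fun v g hv hf hg => ?_) (mem_GK1.2 hg)
  · rw [norm_cong (cm_mul M0 (mem_GK1.1 hg) (mem_GK1.1 hh)), Zsqrtd.norm_mul, Int.cast_mul]
  · obtain ⟨s, t, k⟩ := cm_cop M0 (mem_GK1.1 hg)
    refine IsUnit.of_mul_eq_one_right (s.norm : ZMod (2 ^ e)) ?_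
    rw [← Int.cast_mul, ← Zsqrtd.norm_mul, norm_cong (b := 1) ⟨-t, by linear_combination k⟩,
      Zsqrtd.norm_one, Int.cast_one]
  have b1 : v.p ≠ 2 := mt mem_singleton.2 hv
  obtain ⟨_, z, σ, χ, hq, hz⟩ := exists_split (frob_mod b1 hf (mem_GK1.1 hg))
  obtain ⟨z, z1, z2, z3⟩ : ∃ z : G, Prim z ∧ z.norm = v.p ∧ v.V (io z) < 1 :=
    hz.elim (fun k => ⟨z, hq.prim, hq.norm, k⟩) fun k =>
      ⟨_, prim_star hq.prim, (Zsqrtd.norm_conj z).trans hq.norm, k⟩
  rw [norm_cong (cm_frob (QF.f3_prime v.prime z2) z1 z3 (by rwa [z2]) (by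
    rw [map_pow, map_pow, map_ofNat, V_two b1, one_pow])), z2, B2.cy, B2.cyc_frob b1 hf,
    map_natCast, Int.cast_natCast]

end Pool.Agent.Lib.MP_696deb_nt.EA
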