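import Pool.Agent.Lib.MP_696deb_nt.EA.L3

/-! Expansions of elliptic units along the formal group. -/

set_option autoImplicit false

open scoped Classical NNReal
open Finset WeierstrassCurve.Affine

namespace Pool.Agent.Lib.MP_696deb_nt.EA

open Q4 Sm
open QF (G Prim)

variable {v : Plc} {P Q R : A} {a b : G} {η κ : ℝ≥0}

theorem dl_eq (h : red b = 1) (P : A) : ∑ r ∈ Xb b, 2 * yco P / (xco P - r) = dl b P := by
  have k := prod_Xb h fun r => Multiplicative.ofAdd (yco P / (xco P - r))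
  simp only [← ofAdd_sum, ← ofAdd_nsmul, EmbeddingLike.apply_eq_iff_eq] at k
  rw [dl, k, nsmul_eq_mul, mul_sum]
  simp only [mul_div_assoc, Nat.cast_ofNat]

theorem x_add (hP : P ≠ 0) (hQ : Q ≠ 0) (h : xco P ≠ xco Q) :
    xco (P + Q) = ((yco P - yco Q) / (xco P - xco Q)) ^ 2 - xco P - xco Q := by
  rcases P with _ | ⟨x, y, k⟩
  · exact absurd rfl hP
  rcases Q with _ | ⟨x', y', k'⟩
  · exact absurd rfl hQ
  obtain ⟨h2, e2⟩ := gen_add k k' h (div_mul_cancel₀ _ (sub_ne_zero.2 h))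
  rw [e2]
  rfl

theorem V_two_le (v : Plc) : v.V 2 ≤ 1 := by simpa using v.V_int_le 2

/-- The first coordinates of the translates by a point of the formal group. -/
theorem x_shift (hP : P ∉ Kr v) (h : Q ∈ Kr v) : ∃ δ ε : Qb,
    xco (P + Q) = xco P + δ + ε ∧ xco (P - Q) = xco P + δ - ε ∧
    v.V δ ≤ v.V (zc Q) ^ 2 ∧ v.V (ε - 2 * yco P * zc Q) ≤ v.V (zc Q) ^ 3 := by
  by_cases q0 : Q = 0
  · exact ⟨0, 0, by simp [q0, zc_zero]⟩
  have p0 : P ≠ 0 := fun e => hP (e ▸ zero_mem _)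
  have a1 := (mem_Kr.1 h).resolve_left q0
  have a2 := V_x hP
  have a3 : v.V (xco P - xco Q) = v.V (xco Q) := v.V.map_sub_eq_of_lt_right (a2.trans_lt a1)
  have a0 := zero_lt_one.trans a1
  have d0 : xco P - xco Q ≠ 0 := v.V.ne_zero_iff.1 (a3 ▸ a0.ne')
  have a4 := V_zc a1
  have y0 : yco Q ≠ 0 := fun e => by simp [zc, e] at a4
  have a5 : v.V (zc Q) * v.V (yco Q) = v.V (xco Q) := by
    rw [← map_mul, zc, div_mul_cancel₀ _ y0, v.V.map_neg]
  have e1 := co_eq p0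
  have e2 := co_eq q0
  have i3 : v.V 3 ≤ 1 := by simpa using v.V_int_le 3
  have i4 : v.V (xco P) ^ 2 ≤ 1 := pow_le_one' a2 2
  refine ⟨(3 * xco P ^ 2 * xco Q - xco Q - xco P - xco P ^ 3) / (xco P - xco Q) ^ 2,
    -(2 * yco P * yco Q) / (xco P - xco Q) ^ 2, ?_, ?_, ?_, ?_⟩
  · rw [x_add p0 q0 (sub_ne_zero.1 d0)]
    field_simp
    linear_combination e1 + e2
  · rw [sub_eq_add_neg, x_add p0 (neg_ne_zero.2 q0) (by rw [xco_neg]; exact sub_ne_zero.1 d0),
      xco_neg, co_neg]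
    field_simp
    linear_combination e1 + e2
  · rw [map_div₀, map_pow, a3, div_le_iff₀ (pow_pos a0 2), sq (v.V (xco Q)), ← mul_assoc, a4,
      one_mul]
    refine v.V.map_sub_le (v.V.map_sub_le (v.V.map_sub_le ?_ le_rfl) (a2.trans a1.le)) ?_
    · rw [map_mul, map_mul, map_pow]
      exact mul_le_of_le_one_left' (mul_le_one' i3 i4)
    · rw [map_pow]
      exact (pow_le_one' a2 3).trans a1.le
  · rw [show -(2 * yco P * yco Q) / (xco P - xco Q) ^ 2 - 2 * yco P * zc Q = 2 * yco P *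
      (xco P ^ 2 * xco Q - 2 * xco P * xco Q ^ 2 + xco Q) / (yco Q * (xco P - xco Q) ^ 2) by
        rw [zc]; field_simp; linear_combination -yco P * e2, map_div₀, map_mul v.V (yco Q), map_pow,
      a3, div_le_iff₀ (mul_pos (pos_iff_ne_zero.2 (v.V.ne_zero_iff.2 y0)) (pow_pos a0 2)),
      ← mul_assoc, pow_succ _ 2, mul_assoc _ (v.V (zc Q)), a5, a4, one_mul, map_mul, map_mul]
    have k : v.V (xco Q) ≤ v.V (xco Q) ^ 2 := le_self_pow₀ a1.le two_ne_zero
    refine (mul_le_of_le_one_left' (mul_le_one' (V_two_le v) (V_y hP))).trans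
      (v.V.map_add_le (v.V.map_sub_le ?_ ?_) k)
    · rw [map_mul, map_pow]
      exact (mul_le_of_le_one_left' i4).trans k
    · rw [map_mul, map_mul, map_pow]
      exact mul_le_of_le_one_left' (mul_le_one' (V_two_le v) a2)

/-- The denominators at two are bounded. -/
theorem x_bd (hv : v.p = 2) (h : red b = 1) : ∃ c : ℕ, ∀ P : A,
    (∀ R, b • R = 0 → P + R ∉ Kr v) → ∀ r ∈ Xb b, v.V (2 ^ c) ≤ v.V (xco P - r) := by
  have b0 := ne_of_red h
  have b1 : v.V (io b) = 1 := (V_io_le v b).eq_of_not_lt fun e => V_two_of h e hv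
  have t1 : v.V 2 < 1 := by simpa [hv] using B2.b2a_p_lt v
  have y0 : ∀ R ∈ (En b).erase 0, yco R ≠ 0 := fun R hR e => by
    obtain ⟨r0, r1⟩ := (mem_En0 b0).1 hR
    refine ne_neg_of h r0 r1 ?_
    rcases R with _ | ⟨x, y, k⟩
    · exact absurd rfl r0
    obtain ⟨k2, e2⟩ := gen_neg k
    rw [e2]
    exact pt_ext rfl (by rw [show y = 0 from e, neg_zero])
  obtain ⟨c, hc⟩ := ((Filter.eventually_all_finset ((En b).erase 0)).2 fun R hR =>
    B2.b3a_small 1 t1 (B2.b3a_pos v (mul_ne_zero two_ne_zero (y0 R hR)))).exists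
  refine ⟨c, fun P hP r hr => ?_⟩
  obtain ⟨R, hR, rfl⟩ := mem_image.1 hr
  obtain ⟨r0, r1⟩ := (mem_En0 b0).1 hR
  rw [map_pow, ← one_mul (_ ^ c)]
  exact (hc R hR).le.trans (sep (add_zero P ▸ hP 0 (smul_zero _))
    (fun e => r0 (Kr_tors b1 e r1)) (hP R r1) (sub_eq_add_neg P R ▸ hP _ (by simp [r1])))

/-- `c` is the exponential of `2 s` up to terms of order three. -/
def Th (v : Plc) (η : ℝ≥0) (c s : Qb) : Prop :=
  ∃ t, c * (1 - t) = 1 + t ∧ v.V t ≤ η ∧ v.V (t - s) ≤ η ^ 3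

theorem Th.one : Th v η 1 0 := ⟨0, by simp⟩

theorem Th.mul (hη : η < 1) {c c' s s' : Qb} (h : Th v η c s) (h' : Th v η c' s') :
    Th v η (c * c') (s + s') := by
  obtain ⟨t, h1, h2, h3⟩ := h
  obtain ⟨u, k1, k2, k3⟩ := h'
  have a1 : v.V (t * u) ≤ η ^ 2 := by rw [map_mul, sq]; exact mul_le_mul' h2 k2
  have a2 := v.V.map_one_add_of_lt (a1.trans_lt (pow_lt_one' hη two_ne_zero))
  have a3 : 1 + t * u ≠ 0 := v.V.ne_zero_iff.1 (a2 ▸ one_ne_zero)
  have a4 := v.V.map_add_le h2 k2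
  refine ⟨(t + u) / (1 + t * u), ?_, by rwa [map_div₀, a2, div_one], ?_⟩
  · field_simp
    linear_combination c' * (1 - u) * h1 + (1 + t) * k1
  · rw [show (t + u) / (1 + t * u) - (s + s') = t - s + (u - s') - t * u * (t + u) / (1 + t * u) by
      field_simp; ring]
    refine v.V.map_sub_le (v.V.map_add_le h3 k3) ?_
    rw [map_div₀, a2, div_one, map_mul, pow_succ]
    exact mul_le_mul' a1 a4

theorem Th.prod (hη : η < 1) {ι : Type} (S : Finset ι) {c s : ι → Qb}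
    (h : ∀ i ∈ S, Th v η (c i) (s i)) : Th v η (∏ i ∈ S, c i) (∑ i ∈ S, s i) := by
  induction S using Finset.induction_on with
  | empty => exact Th.one
  | insert a S ha ih =>
    rw [prod_insert ha, sum_insert ha]
    exact (h a (mem_insert_self _ _)).mul hη (ih fun i hi => h i (mem_insert_of_mem hi))

theorem Th.congr {c s s' : Qb} (h : Th v η c s) (k : v.V (s - s') ≤ η ^ 3) : Th v η c s' := by
  obtain ⟨t, h1, h2, h3⟩ := h
  exact ⟨t, h1, h2, sub_add_sub_cancel t s s' ▸ v.V.map_add_le h3 k⟩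

theorem Th.zero (hη : η < 1) {c : Qb} (h : Th v η c 0) : v.V (c - 1) ≤ v.V 2 * η ^ 3 := by
  obtain ⟨t, h1, h2, h3⟩ := h
  have a2 := v.V.map_one_sub_of_lt (h2.trans_lt hη)
  rw [← mul_one (v.V _), ← a2, ← map_mul, show (c - 1) * (1 - t) = 2 * (t - 0) by
    linear_combination h1, map_mul]
  exact mul_le_mul_right h3 _

theorem V_prod_le (hη : η ≤ 1) {ι : Type} (S : Finset ι) {f : ι → Qb}
    (h : ∀ i ∈ S, v.V (f i - 1) ≤ η) : v.V (∏ i ∈ S, f i - 1) ≤ η := by
  induction S using Finset.induction_on with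
  | empty => simp
  | insert a S ha ih =>
    have h1 := h a (mem_insert_self _ _)
    have h2 := ih fun i hi => h i (mem_insert_of_mem hi)
    rw [prod_insert ha, show f a * ∏ i ∈ S, f i - 1 =
      (f a - 1) * (∏ i ∈ S, f i - 1) + (f a - 1) + (∏ i ∈ S, f i - 1) by ring]
    refine v.V.map_add_le (v.V.map_add_le ?_ h1) h2
    rw [map_mul]
    exact (mul_le_of_le_one_left' (h1.trans hη)).trans h2

/-- The expansion of an elliptic unit. -/
theorem ub_tay (hb : red b = 1) (hη : η < 1) (h0 : 0 < κ) (h1 : κ ≤ 1) (hP : P ∉ Kr v)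
    (hd : ∀ r ∈ Xb b, κ ≤ v.V (xco P - r)) (hQ : Q ∈ Kr v) (hz : v.V (zc Q) ≤ κ * η) :
    Th v η (ub b (P + Q) / ub b (P - Q)) (zc Q * dl b P) ∧
      v.V (ub b (P + Q) * ub b (P - Q) / ub b P ^ 2 - 1) ≤ η ^ 2 := by
  obtain ⟨δ, ε, e1, e2, d1, d2⟩ := x_shift hP hQ
  have u0 := pow_ne_zero 2 (u0_ne hb (n_T2 hb))
  have z1 : v.V (2 * yco P * zc Q) ≤ κ * η := by
    rw [map_mul, map_mul]
    exact (mul_le_of_le_one_left' (mul_le_one' (V_two_le v) (V_y hP))).trans hz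
  have z2 := d1.trans (pow_le_pow_left' hz 2)
  have z3 := d2.trans (pow_le_pow_left' hz 3)
  have z0 : κ * η ≤ 1 := mul_le_one' h1 hη.le
  have z4 : v.V ε ≤ κ * η := sub_add_cancel ε (2 * yco P * zc Q) ▸
    v.V.map_add_le (z3.trans (pow_le_of_le_one zero_le z0 three_ne_zero)) z1
  have z5 : v.V δ ≤ κ * η ^ 2 := z2.trans (by
    rw [mul_pow]; exact mul_le_mul_left (pow_le_of_le_one zero_le h1 two_ne_zero) _)
  have key : ∀ r ∈ Xb b, Th v η ((1 - xco (P + Q) / r) / (1 - xco (P - Q) / r))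
      (zc Q * (2 * yco P / (xco P - r))) ∧ v.V ((1 - xco (P + Q) / r) * (1 - xco (P - Q) / r) /
        (1 - xco P / r) ^ 2 - 1) ≤ η ^ 2 := fun r hr => by
    have r0 := Xb_ne hb hr
    have k0 := hd r hr
    obtain ⟨d, hd⟩ : ∃ d, xco P = d + r := ⟨_, (sub_add_cancel _ r).symm⟩
    rw [e1, e2]
    rw [hd, add_sub_cancel_right] at k0 ⊢
    have k1 : v.V (d + δ) = v.V d := v.V.map_add_eq_of_lt_left (z5.trans_lt
      ((mul_lt_of_lt_one_right h0 (pow_lt_one' hη two_ne_zero)).trans_le k0))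
    have k2 := h0.trans_le k0
    have k3 : d ≠ 0 := v.V.ne_zero_iff.1 k2.ne'
    have k4 : d + δ ≠ 0 := v.V.ne_zero_iff.1 (k1 ▸ k2.ne')
    have k5 : v.V (ε / (d + δ)) ≤ η := by
      rw [map_div₀, k1, div_le_iff₀' k2]
      exact z4.trans (mul_le_mul_left k0 _)
    have k6 : d + δ - ε ≠ 0 := fun e => by
      rw [← sub_eq_zero.1 e, div_self k4, map_one] at k5
      exact k5.not_gt hη
    have k7 : κ ^ 2 ≤ v.V d ^ 2 := pow_le_pow_left' k0 2
    rw [show 1 - (d + r + δ + ε) / r = -(d + δ + ε) / r by field_simp; ring,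
      show 1 - (d + r + δ - ε) / r = -(d + δ - ε) / r by field_simp; ring,
      show 1 - (d + r) / r = -d / r by field_simp; ring]
    refine ⟨⟨ε / (d + δ), by field_simp, k5, ?_⟩, ?_⟩
    · rw [show ε / (d + δ) - zc Q * (2 * yco P / d) = (ε - 2 * yco P * zc Q) / (d + δ) -
        2 * yco P * zc Q * δ / (d * (d + δ)) by field_simp; ring]
      refine v.V.map_sub_le ?_ ?_
      · rw [map_div₀, k1, div_le_iff₀' k2]
        refine z3.trans ?_
        rw [mul_pow]
        exact mul_le_mul_left ((pow_le_of_le_one zero_le h1 three_ne_zero).trans k0) _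
      · rw [map_div₀, map_mul v.V d, k1, ← sq, div_le_iff₀' (pow_pos k2 2), map_mul]
        refine (mul_le_mul' z1 z5).trans ?_
        rw [show κ * η * (κ * η ^ 2) = κ ^ 2 * η ^ 3 by ring]
        exact mul_le_mul_left k7 _
    · rw [show -(d + δ + ε) / r * (-(d + δ - ε) / r) / (-d / r) ^ 2 - 1 =
        (2 * δ * d + δ * δ - ε ^ 2) / d ^ 2 by field_simp; ring, map_div₀, map_pow,
        div_le_iff₀' (pow_pos k2 2)]
      have k8 : v.V δ ≤ v.V d * η ^ 2 := z5.trans (mul_le_mul_left k0 _)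
      refine v.V.map_sub_le (v.V.map_add_le ?_ ?_) ?_
      · rw [map_mul, map_mul, sq (v.V d), mul_right_comm (v.V d)]
        exact mul_le_mul_left ((mul_le_of_le_one_left' (V_two_le v)).trans k8) _
      · rw [map_mul, sq (v.V d), mul_right_comm (v.V d)]
        exact mul_le_mul' k8 (k8.trans (mul_le_of_le_one_right' (pow_le_one' hη.le 2)))
      · rw [map_pow, ← mul_pow]
        exact pow_le_pow_left' (z4.trans (mul_le_mul_left k0 _)) 2
  constructor
  · rw [ub, ub, div_div_div_cancel_right₀ u0, EA.u0, EA.u0, ← prod_div_distrib, ← dl_eq hb, mul_sum]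
    exact Th.prod hη _ fun r hr => (key r hr).1
  · rw [ub, ub, ub, div_mul_div_comm, div_pow, ← sq, div_div_div_cancel_right₀ (pow_ne_zero 2 u0),
      EA.u0, EA.u0, EA.u0, ← prod_mul_distrib, ← prod_pow, ← prod_div_distrib]
    exact V_prod_le (pow_le_one' hη.le 2) _ fun r hr => (key r hr).2

end Pool.Agent.Lib.MP_696deb_nt.EA
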